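import Pool.Agent.Lib.MP_f50f2a_an.Spec

/-!
# MP_f50f2a_an, ChNorm: characters are contractive
-/

set_option autoImplicit false

namespace Pool.Agent.MPf50f2a

open Finset Filter Topology

universe u

/-- **ChNorm.** -/
theorem tChNorm (_hUn : S_Un.{u}) : S_ChNorm.{u} := by
  intro A _ _ _ _ _ χ a
  have hone : NormOneClass (WithLp 1 (Unitization ℂ A)) := by
    refine ⟨?_⟩
    rw [WithLp.unitization_norm_def]
    change ‖(1 : Unitization ℂ A).fst‖ + ‖(1 : Unitization ℂ A).snd‖ = 1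
    simp
  have h1 := AlgHom.norm_apply_le_self
    ((Unitization.lift χ : Unitization ℂ A →ₐ[ℂ] ℂ).comp
      (WithLp.unitizationAlgEquiv (𝕜 := ℂ) (A := A) ℂ : WithLp 1 (Unitization ℂ A) →ₐ[ℂ] _))
    (WithLp.toLp 1 (a : Unitization ℂ A))
  rw [WithLp.unitization_norm_inr] at h1
  refine le_trans (le_of_eq ?_) h1
  congr 1
  change χ a = Unitization.lift χ (a : Unitization ℂ A)
  simp

end Pool.Agent.MPf50f2a
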