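import Pool.Agent.Lib.MP_f50f2a_an.Spec

/-!
# MP_f50f2a_an, module ChRad: an algebra without characters is radical
-/

set_option autoImplicit false

namespace Pool.Agent.MPf50f2a

open Finset Filter Topology

universe u

theorem tChRad (hUn : S_Un.{u}) : S_ChRad.{u} := by
  intro A _ _ _ _ _ hχ a
  obtain ⟨U, _, _, _, _, j, hnorm, hdec⟩ := hUn A
  have hunit : IsUnit (1 + j a) := by
    by_contra hcon
    obtain ⟨φ, hφ⟩ := WeakDual.CharacterSpace.exists_apply_eq_zero hcon
    have h1 := hχ ((WeakDual.CharacterSpace.toNonUnitalAlgHom φ).comp j) a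
    have h2 : φ (j a) = 0 := h1
    rw [map_add, map_one, h2, add_zero] at hφ
    exact one_ne_zero hφ
  obtain ⟨y, hy⟩ := hunit.exists_right_inv
  obtain ⟨l, b, rfl⟩ := hdec y
  have h3 : algebraMap ℂ U (l - 1) + j (b + l • a + a * b) = 0 := by
    rw [map_sub, map_one, map_add, map_add, map_smul, map_mul, Algebra.smul_def]
    linear_combination hy
  have h4 := hnorm (l - 1) (b + l • a + a * b)
  rw [h3, norm_zero] at h4
  have h5 : ‖l - 1‖ = 0 := by
    have := norm_nonneg (l - 1); have := norm_nonneg (b + l • a + a * b); linarith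
  have h6 : ‖b + l • a + a * b‖ = 0 := by
    have := norm_nonneg (l - 1); have := norm_nonneg (b + l • a + a * b); linarith
  have h7 : l = 1 := sub_eq_zero.mp (norm_eq_zero.mp h5)
  refine ⟨b, ?_⟩
  have h8 := norm_eq_zero.mp h6
  rw [h7, one_smul] at h8
  rw [← h8]
  abel

end Pool.Agent.MPf50f2a
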