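import Pool.Agent.Lib.MP_f50f2a_an.Spec

/-!
# MP_f50f2a_an, Chain: chains of functionals
-/

set_option autoImplicit false

namespace Pool.Agent.MPf50f2a

universe u

/-- chains of functionals -/
theorem t_Chain (hHB : S_HB.{u}) : S_Chain.{u} := by
  classical
  intro U _ _ b c hd J
  induction J with
  | zero =>
    intro η hη
    refine ⟨1, fun j g => if j = 0 then g else 0, le_rfl, fun g => if_pos rfl,
      fun j hj g => if_neg (by omega), fun j g => ?_, fun j hj => absurd hj (Nat.not_lt_zero j)⟩
    by_cases hj : j = 0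
    · simp [hj]
    · simp [hj]
  | succ J ih =>
    intro η hη
    obtain ⟨K, T, hK, hT0, hTb, hTK, hTs⟩ := ih η hη
    have hK0 : 0 < K := lt_of_lt_of_le zero_lt_one hK
    obtain ⟨K', hK', hs⟩ := hHB U b c hd (η / K) (by positivity)
    choose s hs1 hs2 using hs
    have hK'0 : 0 < K' := lt_of_lt_of_le zero_lt_one hK'
    refine ⟨K' * K, fun j g => if j = J + 1 then s (T J g) else T j g, ?_, ?_, ?_, ?_, ?_⟩
    · calc (1 : ℝ) = 1 * 1 := (one_mul 1).symm
        _ ≤ K' * K := mul_le_mul hK' hK zero_le_one hK'0.le
    · intro g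
      change (if 0 = J + 1 then s (T J g) else T 0 g) = g
      rw [if_neg (by omega), hT0]
    · intro j hj g
      change (if j = J + 1 then s (T J g) else T j g) = 0
      rw [if_neg (by omega), hTb j (by omega)]
    · intro j g
      change ‖(if j = J + 1 then s (T J g) else T j g)‖ ≤ _
      split_ifs with h
      · calc ‖s (T J g)‖ ≤ K' * ‖T J g‖ := hs1 _
          _ ≤ K' * (K * ‖g‖) := by gcongr; exact hTK J g
          _ = K' * K * ‖g‖ := by ring
      · calc ‖T j g‖ ≤ K * ‖g‖ := hTK j g
          _ = 1 * (K * ‖g‖) := (one_mul _).symm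
          _ ≤ K' * (K * ‖g‖) := by gcongr
          _ = K' * K * ‖g‖ := by ring
    · intro j hj g
      change ‖act b (if j + 1 = J + 1 then s (T J g) else T (j + 1) g) -
        act c (if j = J + 1 then s (T J g) else T j g)‖ ≤ _
      rw [if_neg (show ¬ j = J + 1 by omega)]
      split_ifs with h
      · have hjJ : j = J := by omega
        subst hjJ
        calc _ ≤ η / K * ‖T j g‖ := hs2 _
          _ ≤ η / K * (K * ‖g‖) := by gcongr; exact hTK j g
          _ = η * ‖g‖ := by
            field_simp
      · exact hTs j (by omega) g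

end Pool.Agent.MPf50f2a
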