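import Pool.Agent.Lib.MP_f50f2a_an.Spec

set_option autoImplicit false

namespace Pool.Agent.MPf50f2a

open Finset Filter Topology

universe u

/-- the ring seminorm -/
private def compl_rs (P : Type u) [CommRing P] [Algebra ℂ P] (p : P → ℝ) (hp : IsAlgSem P p) :
    RingSeminorm P where
  toFun := p
  map_zero' := hp.zero
  add_le' := hp.add
  neg' := hp.neg
  mul_le' := hp.mul

theorem tCompl : S_Compl.{u} := by
  intro P _ _ p hp
  letI i1 : SeminormedCommRing P :=
    { (compl_rs P p hp).toSeminormedRing with
      mul_comm := mul_comm }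
  have hnorm : ∀ x : P, ‖x‖ = p x := fun _ => rfl
  letI i2 : NormedAlgebra ℂ P :=
    { norm_smul_le := fun r x => by
        rw [hnorm, hnorm, hp.smul] }
  refine ⟨UniformSpace.Completion P, inferInstance, inferInstance, inferInstance,
    { (UniformSpace.Completion.coeRingHom : P →+* UniformSpace.Completion P) with
      commutes' := fun r => ?_ }, fun x => ?_⟩
  · rfl
  · exact UniformSpace.Completion.norm_coe x

end Pool.Agent.MPf50f2a
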