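import Pool.Agent.Lib.MP_f50f2a_an.Spec

set_option autoImplicit false

namespace Pool.Agent.MPf50f2a

open Finset Filter Topology

universe u

theorem tCore (hSeq : S_Seq.{u}) (hExt : S_Ext.{u}) (hWt : S_Wt) (hSemi : S_Semi.{u})
    (hCompl : S_Compl.{u}) : S_Core.{u} := by
  intro U _ _ _ b c ε hε hQ hD
  obtain ⟨J, T, M, hG⟩ := hSeq U b c hQ hD ε hε
  have hM : ∀ n, 1 ≤ M n := fun n => (hG n).one_le
  have hW := hWt M J hM
  obtain ⟨p, hp, hpC, hpz, hpX⟩ := hSemi U b c ε (Wt M J) hε (fun n => (hW n).1)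
    (fun n => (hW n).2.1) (fun n => (hW n).2.2.1) (fun f hf => by
      obtain ⟨F, hF1, hF2⟩ := hExt U b c ε J T M hε hG f hf
      exact ⟨F, hF1, hF2⟩)
  obtain ⟨V, i1, i2, i3, ι₀, hι₀⟩ := hCompl (MvPolynomial ℕ U) p hp
  refine ⟨V, i1, i2, i3, ι₀.comp (IsScalarTower.toAlgHom ℂ U (MvPolynomial ℕ U)),
    fun n => ι₀ (MvPolynomial.X n), ?_, ?_, ?_⟩
  · intro a
    show ‖ι₀ (MvPolynomial.C a)‖ = ‖a‖
    rw [hι₀, hpC]
  · intro n
    show ‖ι₀ (MvPolynomial.C (b n)) * ι₀ (MvPolynomial.X n) - ι₀ (MvPolynomial.C (c n))‖ ≤ ε n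
    rw [← map_mul, ← map_sub, hι₀]
    exact hpz n
  · intro n r hr
    obtain ⟨C, hC⟩ := (hW n).2.2.2 r hr
    refine ⟨C, fun k => ?_⟩
    show ‖(ι₀ (MvPolynomial.X n)) ^ k‖ ≤ C * r ^ k
    rw [← map_pow, hι₀]
    exact (hpX n k).trans (hC k)

end Pool.Agent.MPf50f2a
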