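import Pool.Agent.Lib.MP_f50f2a_an.Spec

/-!
# MP_f50f2a_an, Crude: crude bound for the nested operators
-/

set_option autoImplicit false

namespace Pool.Agent.MPf50f2a

open Finset

universe u

/-- crude bound -/
theorem t_Crude : S_Crude.{u} := by
  intro U _ _ b c ε J T M hε hG f k κ N
  induction N with
  | zero =>
    intro C Φ _ hΦ
    rw [Finset.prod_range_zero, mul_one]
    exact hΦ f
  | succ N ih =>
    intro C Φ hC hΦ
    have hM : 0 ≤ M N := zero_le_one.trans (hG N).one_le
    have hεN : 0 ≤ ε N ^ k N := pow_nonneg (hε N).le _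
    have h := ih (C * M N * ε N ^ k N) (Wop (b N) (c N) (T N) (k N) (κ N) Φ)
      (mul_nonneg (mul_nonneg hC hM) hεN) ((hG N).crude (k N) (κ N) C Φ hC hΦ)
    change ‖DD b c T f k κ N _‖ ≤ _
    refine h.trans (le_of_eq ?_)
    rw [Finset.prod_range_succ]
    ring

end Pool.Agent.MPf50f2a
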