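import Pool.Agent.Lib.MP_f50f2a_an.Spec

/-!
# MP_f50f2a_an, module DMain: the main bound for the nested operators
-/

set_option autoImplicit false

namespace Pool.Agent.MPf50f2a

open Finset Filter Topology

universe u

section

variable {U : Type u} [NormedCommRing U] [NormedAlgebra ℂ U]

lemma dmain_wop_zero (b c : U) (T : ℕ → Du U → Du U) (h0 : ∀ g, T 0 g = g) :
    Wop b c T 0 0 id = id := by
  funext g
  simp [Wop, h0]

end

theorem tDMain (hLin : S_Lin.{u}) (hCrude : S_Crude.{u}) : S_DMain.{u} := by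
  intro U _ _ b c ε J T M hε hG f k κ N
  have hM : ∀ n, 1 ≤ M n := fun n => (hG n).one_le
  have hL : ∀ n, 1 ≤ ∏ m ∈ range n, M m := by
    intro n
    induction n with
    | zero => simp
    | succ n ih =>
      rw [prod_range_succ]
      exact one_le_mul_of_one_le_of_one_le ih (hM n)
  induction N with
  | zero => simp [DD]
  | succ N ih =>
    set P : ℝ := ∏ m ∈ range N, M m with hPdef
    set E : ℝ := ∏ n ∈ range N, ε n ^ k n with hEdef
    set G : ℝ := ∏ n ∈ range N, (∏ m ∈ range (n + 1), M m) ^ κ n * ε n ^ k n with hGdef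
    have hP1 : 1 ≤ P := hL N
    have hP0 : 0 < P := lt_of_lt_of_le one_pos hP1
    have hE0 : 0 < E := prod_pos fun n _ => pow_pos (hε n) _
    have hEG : E ≤ G := by
      refine prod_le_prod (fun n _ => (pow_pos (hε n) _).le) fun n _ => ?_
      have h1 : 1 ≤ (∏ m ∈ range (n + 1), M m) ^ κ n := one_le_pow₀ (hL (n + 1))
      have h2 : 0 < ε n ^ k n := pow_pos (hε n) _
      nlinarith
    have hG0 : 0 < G := lt_of_lt_of_le hE0 hEG
    have he0 : 0 < ε N ^ k N := pow_pos (hε N) _
    have hcr : ∀ (C : ℝ) (Φ : Du U → Du U), 0 ≤ C → (∀ g, ‖Φ g‖ ≤ C * ‖g‖) →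
        ‖DD b c T f k κ N Φ‖ ≤ C * (P * E) * ‖f‖ := by
      intro C Φ hC hΦ
      have h := hCrude U b c ε J T M hε hG f k κ N C Φ hC hΦ
      rwa [prod_mul_distrib] at h
    rw [prod_range_succ]
    change ‖DD b c T f k κ N (Wop (b N) (c N) (T N) (k N) (κ N) id)‖ ≤
      G * ((∏ m ∈ range (N + 1), M m) ^ κ N * ε N ^ k N) * ‖f‖
    have hLN : ∏ m ∈ range (N + 1), M m = P * M N := prod_range_succ _ _
    have hf0 : 0 ≤ ‖f‖ := norm_nonneg f
    rcases Nat.eq_zero_or_pos (κ N) with hκ | hκ
    · rw [hκ, pow_zero, one_mul]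
      rcases Nat.eq_zero_or_pos (k N) with hk | hk
      · rw [hk, pow_zero, mul_one, dmain_wop_zero _ _ _ (hG N).zero]
        exact ih
      · obtain ⟨μ, hμ, herr⟩ := (hG N).main (k N) hk
        set Er : Du U → Du U := fun g =>
          Wop (b N) (c N) (T N) (k N) 0 id g - μ • act (c N ^ k N) g with hErdef
        have hW : Wop (b N) (c N) (T N) (k N) 0 id = fun g => ∑ i ∈ range 2,
            (if i = 0 then μ else 1) • act (if i = 0 then c N ^ k N else 1)
              ((if i = 0 then id else Er) g) := by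
          funext g
          rw [sum_range_succ, sum_range_one]
          simp [hErdef]
        have hlin := hLin U b c T f k κ N (range 2) (fun i => if i = 0 then μ else 1)
          (fun i => if i = 0 then c N ^ k N else 1) (fun i => if i = 0 then id else Er)
        rw [hW]
        have hlin2 : DD b c T f k κ N (fun g => ∑ i ∈ range 2,
            (if i = 0 then μ else 1) • act (if i = 0 then c N ^ k N else 1)
              ((if i = 0 then id else Er) g)) =
            μ • act (c N ^ k N) (DD b c T f k κ N id) + DD b c T f k κ N Er := by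
          refine hlin.trans ?_
          rw [sum_range_succ, sum_range_one]
          simp
        rw [hlin2]
        have h1 : ‖μ • act (c N ^ k N) (DD b c T f k κ N id)‖ ≤ ε N ^ k N / 2 * (G * ‖f‖) := by
          calc ‖μ • act (c N ^ k N) (DD b c T f k κ N id)‖
              = ‖μ‖ * ‖act (c N ^ k N) (DD b c T f k κ N id)‖ := norm_smul _ _
            _ ≤ ‖μ‖ * (‖c N ^ k N‖ * ‖DD b c T f k κ N id‖) := by
                gcongr
                exact norm_act_le _ _
            _ = (‖μ‖ * ‖c N ^ k N‖) * ‖DD b c T f k κ N id‖ := by ring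
            _ ≤ (ε N ^ k N / 2) * (G * ‖f‖) :=
                mul_le_mul hμ ih (norm_nonneg _) (by positivity)
        have h2 : ‖DD b c T f k κ N Er‖ ≤ ε N ^ k N / 2 * (E * ‖f‖) := by
          have h := hcr (ε N ^ k N / (2 * P)) Er (by positivity) herr
          refine h.trans (le_of_eq ?_)
          field_simp
        calc ‖μ • act (c N ^ k N) (DD b c T f k κ N id) + DD b c T f k κ N Er‖
            ≤ ε N ^ k N / 2 * (G * ‖f‖) + ε N ^ k N / 2 * (E * ‖f‖) :=
              (norm_add_le _ _).trans (add_le_add h1 h2)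
          _ ≤ ε N ^ k N / 2 * (G * ‖f‖) + ε N ^ k N / 2 * (G * ‖f‖) := by gcongr
          _ = G * ε N ^ k N * ‖f‖ := by ring
    · have hcrude : ∀ g, ‖Wop (b N) (c N) (T N) (k N) (κ N) id g‖ ≤ (M N * ε N ^ k N) * ‖g‖ := by
        intro g
        have h := (hG N).crude (k N) (κ N) 1 id zero_le_one (fun g => by simp) g
        simpa using h
      have hMN : 0 < M N := lt_of_lt_of_le one_pos (hM N)
      have h := hcr (M N * ε N ^ k N) _ (by positivity) hcrude
      refine h.trans ?_
      have hpow : P * M N ≤ (P * M N) ^ κ N := by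
        have h1 : 1 ≤ P * M N := hLN ▸ hL (N + 1)
        exact le_self_pow₀ h1 (by omega)
      rw [hLN]
      calc M N * ε N ^ k N * (P * E) * ‖f‖ = E * ((P * M N) * ε N ^ k N) * ‖f‖ := by ring
        _ ≤ G * ((P * M N) ^ κ N * ε N ^ k N) * ‖f‖ := by gcongr

end Pool.Agent.MPf50f2a
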