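import Pool.Agent.Lib.MP_f50f2a_an.Spec

/-!
# MP_f50f2a_an, DZero: vanishing of the nested operators
-/

set_option autoImplicit false

namespace Pool.Agent.MPf50f2a

open Finset

universe u

/-- vanishing -/
theorem t_DZero (hCr : S_Crude.{u}) : S_DZero.{u} := by
  intro U _ _ b c ε J T M hε hG f k κ N n Φ hΦ hn hJ
  have hT : ∀ m j, T m j (0 : Du U) = 0 := by
    intro m j
    have h := (hG m).crude 0 j 1 id zero_le_one (fun g => by simp) 0
    have h2 : Wop (b m) (c m) (T m) 0 j id (0 : Du U) = T m j 0 := by
      simp [Wop]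
    rw [h2] at h
    simpa using h
  induction N generalizing Φ with
  | zero => omega
  | succ N ih =>
    change DD b c T f k κ N (Wop (b N) (c N) (T N) (k N) (κ N) Φ) = 0
    rcases Nat.lt_or_ge n N with hnN | hnN
    · apply ih _ _ hnN
      simp only [Wop, hT, hΦ, act_zero_right]
      exact Finset.sum_eq_zero fun i _ => by ext y; simp
    · have hnN' : n = N := by omega
      subst hnN'
      have h3 : ∀ g, Wop (b n) (c n) (T n) (k n) (κ n) Φ g = 0 := by
        intro g
        simp only [Wop]
        refine Finset.sum_eq_zero fun i _ => ?_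
        rw [(hG n).big (κ n + i) (by omega) g, hΦ, act_zero_right]
        ext y
        simp
      have h4 := hCr U b c ε J T M hε hG f k κ n 0 (Wop (b n) (c n) (T n) (k n) (κ n) Φ) le_rfl
        (fun g => by rw [h3 g]; simp)
      rw [zero_mul, zero_mul] at h4
      exact norm_le_zero_iff.1 h4

end Pool.Agent.MPf50f2a
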