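import Mathlib

/-!
# MP_f50f2a_an, definitions

Radical commutative Banach algebras, adjoining approximate quotients.

`U` is always a unital commutative normed algebra over the complex numbers, `Du U` its dual space,
`act b g` is the functional `y ↦ g (b y)`.
-/

set_option autoImplicit false

namespace Pool.Agent.MPf50f2a

open Finset Filter Topology

universe u

/-- A commutative Banach algebra is radical if every element has a quasi-inverse
(for Banach algebras: if every element is quasi-nilpotent). -/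
def IsRad (A : Type u) [NonUnitalNormedCommRing A] : Prop :=
  ∀ a : A, ∃ b : A, a + b + a * b = 0

/-- `a` is quasi-nilpotent: for all `r > 0` the sequence `‖a ^ k‖ / r ^ k` is bounded. -/
def QN {R : Type u} [NormedRing R] (a : R) : Prop :=
  ∀ r : ℝ, 0 < r → ∃ C : ℝ, ∀ k : ℕ, ‖a ^ k‖ ≤ C * r ^ k

/-- The domination condition for a pair `(b, c)`. -/
def Dom {R : Type u} [NormedRing R] (b c : R) : Prop :=
  ∀ δ : ℝ, 0 < δ → ∃ K : ℝ, ∀ y : R, ‖c * y‖ ≤ K * ‖b * y‖ + δ * ‖y‖

/-- The dual space. -/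
abbrev Du (U : Type u) [NormedCommRing U] [NormedAlgebra ℂ U] := U →L[ℂ] ℂ

section act

variable {U : Type u} [NormedCommRing U] [NormedAlgebra ℂ U]

/-- The action of `U` on its dual space: `(act b g) y = g (b y)`. -/
noncomputable def act (b : U) (g : Du U) : Du U := g.comp (ContinuousLinearMap.mul ℂ U b)

@[simp] lemma act_apply (b : U) (g : Du U) (y : U) : act b g y = g (b * y) := rfl

lemma act_mul (b b' : U) (g : Du U) : act (b * b') g = act b (act b' g) := by
  ext y; simp only [act_apply]; congr 1; ring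

lemma act_comm (b b' : U) (g : Du U) : act b (act b' g) = act b' (act b g) := by
  rw [← act_mul, ← act_mul, mul_comm]

@[simp] lemma act_one (g : Du U) : act 1 g = g := by
  ext y; simp

@[simp] lemma act_zero_left (g : Du U) : act 0 g = 0 := by
  ext y; simp

@[simp] lemma act_zero_right (b : U) : act b (0 : Du U) = 0 := by
  ext y; simp

lemma act_add_left (b b' : U) (g : Du U) : act (b + b') g = act b g + act b' g := by
  ext y; simp [add_mul]

lemma act_neg_left (b : U) (g : Du U) : act (-b) g = - act b g := by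
  ext y; simp

lemma act_add_right (b : U) (g g' : Du U) : act b (g + g') = act b g + act b g' := by
  ext y; simp

lemma act_sub_right (b : U) (g g' : Du U) : act b (g - g') = act b g - act b g' := by
  ext y; simp

lemma act_smul_right (b : U) (r : ℂ) (g : Du U) : act b (r • g) = r • act b g := by
  ext y; simp

lemma act_smul_left (b : U) (r : ℂ) (g : Du U) : act (r • b) g = r • act b g := by
  ext y; simp

lemma act_sum_right {ι : Type*} (s : Finset ι) (b : U) (g : ι → Du U) :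
    act b (∑ i ∈ s, g i) = ∑ i ∈ s, act b (g i) := by
  ext y; simp

lemma norm_act_le (b : U) (g : Du U) : ‖act b g‖ ≤ ‖b‖ * ‖g‖ := by
  refine ContinuousLinearMap.opNorm_le_bound _ (by positivity) fun y => ?_
  calc ‖act b g y‖ = ‖g (b * y)‖ := rfl
    _ ≤ ‖g‖ * ‖b * y‖ := g.le_opNorm _
    _ ≤ ‖g‖ * (‖b‖ * ‖y‖) := by gcongr; exact norm_mul_le _ _
    _ = ‖b‖ * ‖g‖ * ‖y‖ := by ring

/-- The operator `(b S - c) ^ k`, applied to the sequence `i ↦ Φ (T (j + i) g)`, at the index `0`. -/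
noncomputable def Wop (b c : U) (T : ℕ → Du U → Du U) (k j : ℕ) (Φ : Du U → Du U) (g : Du U) :
    Du U :=
  ∑ i ∈ range (k + 1), ((k.choose i : ℕ) : ℂ) • act ((-c) ^ (k - i) * b ^ i) (Φ (T (j + i) g))

/-- The properties of the maps `T j` belonging to one pair `(b, c)`; `P` is the product of the
constants of the previous pairs. -/
structure StepOK (b c : U) (ε : ℝ) (J : ℕ) (T : ℕ → Du U → Du U) (M P : ℝ) : Prop where
  one_le : 1 ≤ M
  zero : ∀ g, T 0 g = g
  big : ∀ j, J < j → ∀ g, T j g = 0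
  crude : ∀ (k j : ℕ) (C : ℝ) (Φ : Du U → Du U), 0 ≤ C → (∀ g, ‖Φ g‖ ≤ C * ‖g‖) →
    ∀ g, ‖Wop b c T k j Φ g‖ ≤ C * M * ε ^ k * ‖g‖
  main : ∀ k : ℕ, 1 ≤ k → ∃ μ : ℂ, ‖μ‖ * ‖c ^ k‖ ≤ ε ^ k / 2 ∧
    ∀ g, ‖Wop b c T k 0 id g - μ • act (c ^ k) g‖ ≤ ε ^ k / (2 * P) * ‖g‖

/-- The properties of the data belonging to a sequence of pairs. -/
def Good (b c : ℕ → U) (ε : ℕ → ℝ) (J : ℕ → ℕ) (T : ℕ → ℕ → Du U → Du U) (M : ℕ → ℝ) : Prop :=
  ∀ n, StepOK (b n) (c n) (ε n) (J n) (T n) (M n) (∏ m ∈ range n, M m)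

/-- The nested operators: `DD b c T f k κ N Φ`. -/
noncomputable def DD (b c : ℕ → U) (T : ℕ → ℕ → Du U → Du U) (f : Du U) (k κ : ℕ → ℕ) :
    ℕ → (Du U → Du U) → Du U
  | 0, Φ => Φ f
  | N + 1, Φ => DD b c T f k κ N (Wop (b N) (c N) (T N) (k N) (κ N) Φ)

/-- The composition `T_{N-1}^{κ_{N-1}} ... T_0^{κ_0} f`. -/
def GG (T : ℕ → ℕ → Du U → Du U) (f : Du U) (κ : ℕ → ℕ) : ℕ → Du U
  | 0 => f
  | N + 1 => T N (κ N) (GG T f κ N)

end act

/-- The weights of the powers of the adjoined elements. -/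
noncomputable def Wt (M : ℕ → ℝ) (J : ℕ → ℕ) (n j : ℕ) : ℝ :=
  (∏ m ∈ range (n + 1), M m) ^ j / ((j / (J n + 1)).factorial : ℝ)

/-- Algebra seminorms (with real homogeneity over the complex numbers). -/
structure IsAlgSem (P : Type u) [CommRing P] [Algebra ℂ P] (p : P → ℝ) : Prop where
  nonneg : ∀ x, 0 ≤ p x
  zero : p 0 = 0
  add : ∀ x y, p (x + y) ≤ p x + p y
  neg : ∀ x, p (-x) = p x
  smul : ∀ (r : ℂ) (x : P), p (r • x) = ‖r‖ * p x
  mul : ∀ x y, p (x * y) ≤ p x * p y

end Pool.Agent.MPf50f2a
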