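import Pool.Agent.Lib.MP_f50f2a_an.Spec

/-!
# MP_f50f2a_an, Err: the error estimate for the operator `(b S - c) ^ k`
-/

set_option autoImplicit false

namespace Pool.Agent.MPf50f2a

open Finset Filter Topology

universe u

section

variable {U : Type u} [NormedCommRing U] [NormedAlgebra ℂ U]

theorem err_add_smul (r s : ℂ) (g : Du U) : (r + s) • g = r • g + s • g := by
  ext y; simp [add_mul]

theorem err_zero_smul (g : Du U) : (0 : ℂ) • g = 0 := by
  ext y; simp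

theorem err_smul_zero (r : ℂ) : r • (0 : Du U) = 0 := by
  ext y; simp

theorem err_sum_smul (s : Finset ℕ) (r : ℕ → ℂ) (g : Du U) :
    (∑ i ∈ s, r i) • g = ∑ i ∈ s, r i • g := by
  ext y; simp [Finset.sum_mul]

theorem err_pascal (b c : U) (k : ℕ) (x : ℕ → Du U) :
    ∑ i ∈ range (k + 2), (((k + 1).choose i : ℕ) : ℂ) •
        act ((-c) ^ (k + 1 - i) * b ^ i) (x i) =
      ∑ i ∈ range (k + 1), ((k.choose i : ℕ) : ℂ) •
        act ((-c) ^ (k - i) * b ^ i) (act b (x (i + 1)) - act c (x i)) := by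
  have h1 : ∀ i ∈ range (k + 1), ((k.choose i : ℕ) : ℂ) •
      act ((-c) ^ (k - i) * b ^ i) (act b (x (i + 1)) - act c (x i)) =
      ((k.choose i : ℕ) : ℂ) • act ((-c) ^ (k - i) * b ^ (i + 1)) (x (i + 1)) +
        ((k.choose i : ℕ) : ℂ) • act ((-c) ^ (k + 1 - i) * b ^ i) (x i) := by
    intro i hi
    have hik : i ≤ k := Nat.lt_succ_iff.1 (Finset.mem_range.1 hi)
    have h2 : k + 1 - i = (k - i) + 1 := by omega
    rw [act_sub_right, ← act_mul, ← act_mul, smul_sub, h2]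
    have h3 : (-c) ^ (k - i) * b ^ i * b = (-c) ^ (k - i) * b ^ (i + 1) := by ring
    have h4 : (-c) ^ (k - i + 1) * b ^ i = -((-c) ^ (k - i) * b ^ i * c) := by ring
    rw [h3, h4, act_neg_left, smul_neg, sub_eq_add_neg]
  rw [Finset.sum_congr rfl h1, Finset.sum_add_distrib]
  rw [Finset.sum_range_succ' (fun i => (((k + 1).choose i : ℕ) : ℂ) •
    act ((-c) ^ (k + 1 - i) * b ^ i) (x i)) (k + 1)]
  have h5 : ∀ i ∈ range (k + 1), (((k + 1).choose (i + 1) : ℕ) : ℂ) •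
      act ((-c) ^ (k + 1 - (i + 1)) * b ^ (i + 1)) (x (i + 1)) =
      ((k.choose i : ℕ) : ℂ) • act ((-c) ^ (k - i) * b ^ (i + 1)) (x (i + 1)) +
        ((k.choose (i + 1) : ℕ) : ℂ) •
          act ((-c) ^ (k + 1 - (i + 1)) * b ^ (i + 1)) (x (i + 1)) := by
    intro i _
    rw [Nat.choose_succ_succ, Nat.cast_add, err_add_smul, Nat.add_sub_add_right]
  rw [Finset.sum_congr rfl h5, Finset.sum_add_distrib, add_assoc]
  congr 1
  have h6 := Finset.sum_range_succ' (fun i => ((k.choose i : ℕ) : ℂ) •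
    act ((-c) ^ (k + 1 - i) * b ^ i) (x i)) (k + 1)
  have h7 := Finset.sum_range_succ (fun i => ((k.choose i : ℕ) : ℂ) •
    act ((-c) ^ (k + 1 - i) * b ^ i) (x i)) (k + 1)
  rw [h6] at h7
  rw [Nat.choose_succ_self, Nat.cast_zero, err_zero_smul, add_zero] at h7
  rw [← h7, Nat.choose_zero_right, Nat.choose_zero_right]

theorem err_neg_pow (c : U) (n i : ℕ) (g : Du U) :
    act ((-c) ^ n) (act (c ^ i) g) = ((-1 : ℂ) ^ n) • act (c ^ (n + i)) g := by
  rw [← act_mul, ← act_smul_left]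
  congr 1
  rw [neg_pow c n, pow_add]
  have h : ((-1 : ℂ) ^ n) • (c ^ n * c ^ i) = (-1 : U) ^ n * (c ^ n * c ^ i) := by
    rcases Nat.even_or_odd n with hn | hn
    · rw [hn.neg_one_pow, hn.neg_one_pow, one_smul, one_mul]
    · rw [hn.neg_one_pow, hn.neg_one_pow, neg_smul, one_smul, neg_one_mul]
  rw [h, mul_assoc]

omit [NormedAlgebra ℂ U] in
theorem err_norm_pow [NormOneClass U] (b : U) (L : ℝ) (hb : ‖b‖ ≤ L) (i : ℕ) : ‖b ^ i‖ ≤ L ^ i :=
  (norm_pow_le b i).trans (pow_le_pow_left₀ (norm_nonneg b) hb i)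

/-- The elements `Q i`. -/
theorem err_Q [NormOneClass U] (b c : U) (J : ℕ) (η : ℝ) (hη : 0 < η) (T : ℕ → Du U → Du U)
    (hT0 : ∀ g, T 0 g = g)
    (hR : ∀ j, j < J → ∀ g, ‖act b (T (j + 1) g) - act c (T j g)‖ ≤ η * ‖g‖) (g : Du U) :
    ∀ i ≤ J, ‖act (b ^ i) (T i g) - act (c ^ i) g‖ ≤
      i * (1 + ‖b‖ + ‖c‖) ^ i * (η * ‖g‖) := by
  intro i
  induction i with
  | zero =>
    intro _
    rw [hT0, pow_zero, pow_zero, act_one, sub_self, norm_zero, Nat.cast_zero, zero_mul, zero_mul]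
  | succ i ih =>
    intro hi
    have h1 := ih (by omega)
    have h2 := hR i (by omega) g
    set L := 1 + ‖b‖ + ‖c‖ with hL
    have hb : ‖b‖ ≤ L := by linarith [norm_nonneg c, norm_nonneg b]
    have hc : ‖c‖ ≤ L := by linarith [norm_nonneg c, norm_nonneg b]
    have hL1 : 1 ≤ L := by linarith [norm_nonneg c, norm_nonneg b]
    have hL0 : 0 ≤ L := by linarith
    have hg : 0 ≤ η * ‖g‖ := mul_nonneg hη.le (norm_nonneg _)
    have h3 : act (b ^ (i + 1)) (T (i + 1) g) - act (c ^ (i + 1)) g =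
        act (b ^ i) (act b (T (i + 1) g) - act c (T i g)) +
          act c (act (b ^ i) (T i g) - act (c ^ i) g) := by
      rw [act_sub_right, act_sub_right, ← act_mul, ← act_mul, ← act_mul, ← act_mul,
        pow_succ b i, mul_comm (b ^ i) c, ← pow_succ' c i]
      abel
    rw [h3]
    calc ‖act (b ^ i) (act b (T (i + 1) g) - act c (T i g)) +
          act c (act (b ^ i) (T i g) - act (c ^ i) g)‖
        ≤ ‖b ^ i‖ * ‖act b (T (i + 1) g) - act c (T i g)‖ +
          ‖c‖ * ‖act (b ^ i) (T i g) - act (c ^ i) g‖ :=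
          (norm_add_le _ _).trans (add_le_add (norm_act_le _ _) (norm_act_le _ _))
      _ ≤ L ^ i * (η * ‖g‖) + L * (i * L ^ i * (η * ‖g‖)) := by
          gcongr
          exact err_norm_pow b L hb i
      _ ≤ L ^ (i + 1) * (η * ‖g‖) + L * (i * L ^ i * (η * ‖g‖)) := by
          have h4 : L ^ i ≤ L ^ (i + 1) := pow_le_pow_right₀ hL1 (Nat.le_succ i)
          have h5 := mul_le_mul_of_nonneg_right h4 hg
          linarith
      _ = ((i + 1 : ℕ) : ℝ) * L ^ (i + 1) * (η * ‖g‖) := by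
          push_cast
          ring

theorem err_small [NormOneClass U] (b c : U) (J : ℕ) (η : ℝ) (hη : 0 < η)
    (T : ℕ → Du U → Du U)
    (hR : ∀ j, j < J → ∀ g, ‖act b (T (j + 1) g) - act c (T j g)‖ ≤ η * ‖g‖) (g : Du U)
    (k : ℕ) (hk : k + 1 ≤ J) :
    ‖Wop b c T (k + 1) 0 id g‖ ≤ (1 + ‖b‖ + ‖c‖) ^ J * (η * ‖g‖) := by
  have h1 : Wop b c T (k + 1) 0 id g =
      ∑ i ∈ range (k + 1), ((k.choose i : ℕ) : ℂ) •
        act ((-c) ^ (k - i) * b ^ i) (act b (T (i + 1) g) - act c (T i g)) := by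
    unfold Wop
    rw [← err_pascal b c k (fun i => T i g)]
    refine Finset.sum_congr rfl (fun i _ => ?_)
    rw [zero_add]
    rfl
  have hg : 0 ≤ η * ‖g‖ := mul_nonneg hη.le (norm_nonneg _)
  rw [h1]
  calc ‖∑ i ∈ range (k + 1), ((k.choose i : ℕ) : ℂ) •
        act ((-c) ^ (k - i) * b ^ i) (act b (T (i + 1) g) - act c (T i g))‖
      ≤ ∑ i ∈ range (k + 1), (‖b‖ ^ i * ‖c‖ ^ (k - i) * (k.choose i : ℝ)) * (η * ‖g‖) := by
        refine (norm_sum_le _ _).trans (Finset.sum_le_sum (fun i hi => ?_))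
        have hik : i ≤ k := Nat.lt_succ_iff.1 (Finset.mem_range.1 hi)
        rw [norm_smul, Complex.norm_natCast]
        have h2 := norm_act_le ((-c) ^ (k - i) * b ^ i) (act b (T (i + 1) g) - act c (T i g))
        have h3 : ‖(-c) ^ (k - i) * b ^ i‖ ≤ ‖c‖ ^ (k - i) * ‖b‖ ^ i := by
          refine (norm_mul_le _ _).trans ?_
          gcongr
          · have := norm_pow_le (-c) (k - i)
            rwa [norm_neg] at this
          · exact norm_pow_le b i
        calc (k.choose i : ℝ) * ‖act ((-c) ^ (k - i) * b ^ i)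
              (act b (T (i + 1) g) - act c (T i g))‖
            ≤ (k.choose i : ℝ) * ((‖c‖ ^ (k - i) * ‖b‖ ^ i) * (η * ‖g‖)) := by
              gcongr
              exact h2.trans (mul_le_mul h3 (hR i (by omega) g) (norm_nonneg _)
                (mul_nonneg (pow_nonneg (norm_nonneg _) _) (pow_nonneg (norm_nonneg _) _)))
          _ = _ := by ring
    _ = (‖b‖ + ‖c‖) ^ k * (η * ‖g‖) := by
        rw [← Finset.sum_mul, ← add_pow]
    _ ≤ (1 + ‖b‖ + ‖c‖) ^ J * (η * ‖g‖) := by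
        gcongr
        calc (‖b‖ + ‖c‖) ^ k ≤ (1 + ‖b‖ + ‖c‖) ^ k := by
              apply pow_le_pow_left₀ (add_nonneg (norm_nonneg _) (norm_nonneg _))
              linarith
          _ ≤ (1 + ‖b‖ + ‖c‖) ^ J := by
              apply pow_le_pow_right₀ _ (by omega)
              linarith [norm_nonneg b, norm_nonneg c]

theorem err_big [NormOneClass U] (b c : U) (J : ℕ) (η : ℝ) (hη : 0 < η)
    (T : ℕ → Du U → Du U) (hT0 : ∀ g, T 0 g = g) (hTJ : ∀ j, J < j → ∀ g, T j g = 0)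
    (hR : ∀ j, j < J → ∀ g, ‖act b (T (j + 1) g) - act c (T j g)‖ ≤ η * ‖g‖) (g : Du U)
    (k : ℕ) :
    ‖Wop b c T k 0 id g - (∑ i ∈ (range (k + 1)).filter (fun i => i ≤ J),
        ((k.choose i : ℕ) : ℂ) * (-1) ^ (k - i)) • act (c ^ k) g‖ ≤
      (∑ i ∈ (range (k + 1)).filter (fun i => i ≤ J),
        (k.choose i : ℝ) * ‖(-c) ^ (k - i) * 1 ^ i‖) *
        (J * (1 + ‖b‖ + ‖c‖) ^ J * (η * ‖g‖)) := by
  have hg : 0 ≤ η * ‖g‖ := mul_nonneg hη.le (norm_nonneg _)
  set L := 1 + ‖b‖ + ‖c‖ with hL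
  have hL1 : 1 ≤ L := by linarith [norm_nonneg c, norm_nonneg b]
  have h1 : Wop b c T k 0 id g =
      ∑ i ∈ (range (k + 1)).filter (fun i => i ≤ J), ((k.choose i : ℕ) : ℂ) •
        act ((-c) ^ (k - i) * b ^ i) (T i g) := by
    unfold Wop
    rw [Finset.sum_filter]
    refine Finset.sum_congr rfl (fun i _ => ?_)
    rw [zero_add]
    split_ifs with h
    · rfl
    · have : T i g = 0 := hTJ i (by omega) g
      rw [this, id, act_zero_right, err_smul_zero]
  have h2 : Wop b c T k 0 id g - (∑ i ∈ (range (k + 1)).filter (fun i => i ≤ J),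
        ((k.choose i : ℕ) : ℂ) * (-1) ^ (k - i)) • act (c ^ k) g =
      ∑ i ∈ (range (k + 1)).filter (fun i => i ≤ J), ((k.choose i : ℕ) : ℂ) •
        act ((-c) ^ (k - i)) (act (b ^ i) (T i g) - act (c ^ i) g) := by
    rw [h1, err_sum_smul, ← Finset.sum_sub_distrib]
    refine Finset.sum_congr rfl (fun i hi => ?_)
    have hik : i ≤ k := Nat.lt_succ_iff.1 (Finset.mem_range.1 (Finset.mem_filter.1 hi).1)
    rw [act_sub_right, err_neg_pow, act_mul, smul_sub, smul_smul, Nat.sub_add_cancel hik]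
  rw [h2, Finset.sum_mul]
  refine (norm_sum_le _ _).trans (Finset.sum_le_sum (fun i hi => ?_))
  have hiJ : i ≤ J := (Finset.mem_filter.1 hi).2
  rw [norm_smul, Complex.norm_natCast, one_pow, mul_one, mul_assoc]
  refine mul_le_mul_of_nonneg_left ?_ (Nat.cast_nonneg _)
  refine (norm_act_le _ _).trans (mul_le_mul_of_nonneg_left ?_ (norm_nonneg _))
  refine (err_Q b c J η hη T hT0 hR g i hiJ).trans ?_
  rw [← hL]
  gcongr

end

theorem tErr (hMZ : S_MZ.{u}) : S_Err.{u} := by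
  intro U _ _ _ b c hc ε hε J hJ
  obtain ⟨M₂, hM₂, hM₂'⟩ := hMZ U 1 c hc ε hε J
  set L := 1 + ‖b‖ + ‖c‖ with hL
  have hL1 : 1 ≤ L := by linarith [norm_nonneg c, norm_nonneg b]
  have hL0 : 0 < L := by linarith
  set e₀ := (min ε 1) ^ J with he₀
  have hm0 : 0 < min ε 1 := lt_min hε one_pos
  have he0 : 0 < e₀ := pow_pos hm0 J
  set M₁ := L ^ J / e₀ with hM₁
  have hM1 : 0 < M₁ := div_pos (pow_pos hL0 J) he0
  have hM2 : 0 ≤ M₂ * (J * L ^ J) := by positivity
  refine ⟨1 + M₁ + M₂ * (J * L ^ J), by linarith, ?_⟩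
  intro η T hη hT0 hTJ hR k hk
  have hεk : 0 < ε ^ k := pow_pos hε k
  rcases le_or_gt k J with hkJ | hkJ
  · refine ⟨0, by rw [norm_zero, zero_mul]; positivity, fun g => ?_⟩
    rw [err_zero_smul, sub_zero]
    obtain ⟨k', rfl⟩ : ∃ k', k = k' + 1 := ⟨k - 1, by omega⟩
    have h1 := err_small b c J η hη T hR g k' hkJ
    rw [← hL] at h1
    have h2 : e₀ ≤ ε ^ (k' + 1) := by
      calc e₀ ≤ (min ε 1) ^ (k' + 1) :=
            pow_le_pow_of_le_one hm0.le (min_le_right _ _) hkJ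
        _ ≤ ε ^ (k' + 1) := pow_le_pow_left₀ hm0.le (min_le_left _ _) _
    have h3 : L ^ J ≤ M₁ * ε ^ (k' + 1) := by
      calc L ^ J = M₁ * e₀ := by rw [hM₁, div_mul_cancel₀ _ he0.ne']
        _ ≤ M₁ * ε ^ (k' + 1) := mul_le_mul_of_nonneg_left h2 hM1.le
    have hg : 0 ≤ η * ‖g‖ := mul_nonneg hη.le (norm_nonneg _)
    calc ‖Wop b c T (k' + 1) 0 id g‖ ≤ L ^ J * (η * ‖g‖) := h1
      _ ≤ (M₁ * ε ^ (k' + 1)) * (η * ‖g‖) := mul_le_mul_of_nonneg_right h3 hg
      _ ≤ ((1 + M₁ + M₂ * (J * L ^ J)) * ε ^ (k' + 1)) * (η * ‖g‖) := by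
          apply mul_le_mul_of_nonneg_right _ hg
          apply mul_le_mul_of_nonneg_right _ hεk.le
          linarith
      _ = η * (1 + M₁ + M₂ * (J * L ^ J)) * ε ^ (k' + 1) * ‖g‖ := by ring
  · refine ⟨∑ i ∈ (range (k + 1)).filter (fun i => i ≤ J),
        ((k.choose i : ℕ) : ℂ) * (-1) ^ (k - i), ?_, fun g => ?_⟩
    · have h1 : ‖∑ i ∈ (range (k + 1)).filter (fun i => i ≤ J),
          ((k.choose i : ℕ) : ℂ) * (-1) ^ (k - i)‖ ≤ 2 ^ k := by
        calc ‖∑ i ∈ (range (k + 1)).filter (fun i => i ≤ J),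
              ((k.choose i : ℕ) : ℂ) * (-1) ^ (k - i)‖
            ≤ ∑ i ∈ (range (k + 1)).filter (fun i => i ≤ J), (k.choose i : ℝ) := by
              refine (norm_sum_le _ _).trans (Finset.sum_le_sum (fun i _ => ?_))
              rw [norm_mul, Complex.norm_natCast, norm_pow, norm_neg, norm_one, one_pow,
                mul_one]
          _ ≤ ∑ i ∈ range (k + 1), (k.choose i : ℝ) :=
              Finset.sum_le_sum_of_subset_of_nonneg (Finset.filter_subset _ _)
                (fun i _ _ => Nat.cast_nonneg _)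
          _ = 2 ^ k := by
              have := Nat.sum_range_choose k
              exact_mod_cast this
      exact (mul_le_mul_of_nonneg_right h1 (norm_nonneg _)).trans (hJ k hkJ)
    · have h1 := err_big b c J η hη T hT0 hTJ hR g k
      rw [← hL] at h1
      have h2 := hM₂' k
      have hg : 0 ≤ η * ‖g‖ := mul_nonneg hη.le (norm_nonneg _)
      refine h1.trans ?_
      have hJL : 0 ≤ (J : ℝ) * L ^ J * (η * ‖g‖) := by positivity
      calc _ ≤ (M₂ * ε ^ k) * (J * L ^ J * (η * ‖g‖)) := mul_le_mul_of_nonneg_right h2 hJL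
        _ = ((M₂ * (J * L ^ J)) * ε ^ k) * (η * ‖g‖) := by ring
        _ ≤ ((1 + M₁ + M₂ * (J * L ^ J)) * ε ^ k) * (η * ‖g‖) := by
            apply mul_le_mul_of_nonneg_right _ hg
            apply mul_le_mul_of_nonneg_right _ hεk.le
            linarith
        _ = η * (1 + M₁ + M₂ * (J * L ^ J)) * ε ^ k * ‖g‖ := by ring

end Pool.Agent.MPf50f2a
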