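import Pool.Agent.Lib.MP_f50f2a_an.Spec

/-!
# MP_f50f2a_an, module Ext: extension of functionals
-/

set_option autoImplicit false

namespace Pool.Agent.MPf50f2a

open Finset Filter Topology

universe u

/-- A product over the support of a finitely supported function, as a product over a range. -/
lemma ext_prod_range {R : Type*} [CommMonoid R] (k : ℕ →₀ ℕ) (N : ℕ) (h : ℕ → ℕ → R)
    (h0 : ∀ n, h n 0 = 1) (hN : ∀ n, N ≤ n → k n = 0) :
    k.prod h = ∏ n ∈ range N, h n (k n) := by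
  refine Finsupp.prod_of_support_subset k ?_ h fun n _ => h0 n
  intro n hn
  rw [Finsupp.mem_support_iff] at hn
  rw [mem_range]
  by_contra hcon
  exact hn (hN n (not_lt.mp hcon))

lemma ext_exists_bound (κ k : ℕ →₀ ℕ) :
    ∃ N : ℕ, (∀ n, N ≤ n → κ n = 0) ∧ ∀ n, N ≤ n → k n = 0 := by
  refine ⟨(κ.support ∪ k.support).sup id + 1, fun n hn => ?_, fun n hn => ?_⟩
  · by_contra hcon
    have h1 : n ∈ κ.support ∪ k.support :=
      mem_union_left _ (Finsupp.mem_support_iff.mpr hcon)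
    have h2 : n ≤ (κ.support ∪ k.support).sup id := Finset.le_sup (f := id) h1
    omega
  · by_contra hcon
    have h1 : n ∈ κ.support ∪ k.support :=
      mem_union_right _ (Finsupp.mem_support_iff.mpr hcon)
    have h2 : n ≤ (κ.support ∪ k.support).sup id := Finset.le_sup (f := id) h1
    omega

open MvPolynomial in
theorem tExt (hDMain : S_DMain.{u}) (hDZero : S_DZero.{u}) (hFDD : S_FDD.{u})
    (hFF : S_FF.{u}) : S_Ext.{u} := by
  intro U _ _ b c ε J T M hε hG f hf
  obtain ⟨F, hF⟩ := hFF U T f fun n g => (hG n).zero g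
  have hM : ∀ n, 1 ≤ M n := fun n => (hG n).one_le
  have hL : ∀ n, 1 ≤ ∏ m ∈ range n, M m := by
    intro n
    induction n with
    | zero => simp
    | succ n ih =>
      rw [prod_range_succ]
      exact one_le_mul_of_one_le_of_one_le ih (hM n)
  refine ⟨F, fun a => ?_, fun a κ k => ?_⟩
  · have h := hF 0 a 0 (fun n _ => rfl)
    simpa [GG] using h
  · obtain ⟨N, hκ, hk⟩ := ext_exists_bound κ k
    rw [ext_prod_range k N (fun n e => (C (b n) * X n - C (c n) : MvPolynomial ℕ U) ^ e)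
      (fun n => pow_zero _) hk]
    rw [ext_prod_range k N (fun n e => ε n ^ e) (fun n => pow_zero _) hk]
    rw [ext_prod_range κ N (fun n j => Wt M J n j) (fun n => by simp [Wt]) hκ]
    rw [hFDD U b c T f F hF κ k a N hκ]
    have hε0 : 0 ≤ ∏ n ∈ range N, ε n ^ k n := prod_nonneg fun n _ => (pow_pos (hε n) _).le
    have hW0 : ∀ n j, 0 ≤ Wt M J n j := fun n j =>
      div_nonneg (pow_nonneg (le_trans zero_le_one (hL (n + 1))) _) (Nat.cast_nonneg _)
    by_cases hcase : ∃ n, J n < κ n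
    · obtain ⟨n, hn⟩ := hcase
      have hnN : n < N := by
        by_contra hcon
        rw [hκ n (not_lt.mp hcon)] at hn
        exact Nat.not_lt_zero _ hn
      rw [hDZero U b c ε J T M hε hG f k κ N n id rfl hnN hn]
      rw [ContinuousLinearMap.zero_apply, norm_zero]
      have hW1 : 0 ≤ ∏ n ∈ range N, Wt M J n (κ n) := prod_nonneg fun n _ => hW0 n _
      positivity
    · have hcase2 : ∀ n, κ n ≤ J n := fun n => by
        by_contra hcon
        exact hcase ⟨n, not_le.mp hcon⟩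
      have hWt : ∀ n, Wt M J n (κ n) = (∏ m ∈ range (n + 1), M m) ^ κ n := by
        intro n
        have h1 : κ n / (J n + 1) = 0 := Nat.div_eq_of_lt (Nat.lt_succ_of_le (hcase2 n))
        rw [Wt, h1]
        simp
      have h1 := hDMain U b c ε J T M hε hG f k κ N
      have h2 : ‖DD b c T f (⇑k) (⇑κ) N id a‖ ≤ ‖DD b c T f (⇑k) (⇑κ) N id‖ * ‖a‖ :=
        ContinuousLinearMap.le_opNorm _ _
      have hprod : ∏ n ∈ range N, (∏ m ∈ range (n + 1), M m) ^ κ n * ε n ^ k n =
          (∏ n ∈ range N, Wt M J n (κ n)) * ∏ n ∈ range N, ε n ^ k n := by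
        rw [← prod_mul_distrib]
        exact prod_congr rfl fun n _ => by rw [hWt n]
      rw [hprod] at h1
      have hW1 : 0 ≤ ∏ n ∈ range N, Wt M J n (κ n) := prod_nonneg fun n _ => hW0 n _
      calc ‖DD b c T f (⇑k) (⇑κ) N id a‖ ≤ ‖DD b c T f (⇑k) (⇑κ) N id‖ * ‖a‖ := h2
        _ ≤ (((∏ n ∈ range N, Wt M J n (κ n)) * ∏ n ∈ range N, ε n ^ k n) * ‖f‖) * ‖a‖ := by
            gcongr
        _ ≤ (((∏ n ∈ range N, Wt M J n (κ n)) * ∏ n ∈ range N, ε n ^ k n) * 1) * ‖a‖ := by
            gcongr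
        _ = ‖a‖ * (∏ n ∈ range N, Wt M J n (κ n)) * ∏ n ∈ range N, ε n ^ k n := by ring

end Pool.Agent.MPf50f2a
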