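import Pool.Agent.Lib.MP_f50f2a_an.Spec2

/-!
# MP_f50f2a_an, FB: the basis elements
-/

set_option autoImplicit false

namespace Pool.Agent.MPf50f2a

open Finset Filter Topology

universe u

section

variable {w : ℕ → ℝ} {A : Type u} [NonUnitalNormedCommRing A] [NormedSpace ℂ A]
  {coef : A →ₗ[ℂ] (ℕ → ℂ)}

theorem fb_inj (hA : IsWL1 w A coef) : Function.Injective coef := by
  rw [← LinearMap.ker_eq_bot, LinearMap.ker_eq_bot']
  intro a ha
  have h1 := hA.norm a
  have h2 : (fun n => ‖coef a n‖ * w (n + 1)) = fun _ => 0 := by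
    funext n
    rw [ha]
    simp
  rw [h2] at h1
  exact norm_eq_zero.mp (h1.unique hasSum_zero)

theorem fb_shlo (hA : IsWL1 w A coef) {e : ℕ → A} (he : ∀ n, coef (e n) = Pi.single n 1)
    (n : ℕ) (a : A) (i : ℕ) (hi : i ≤ n) : coef (e n * a) i = 0 := by
  rcases i with _ | m
  · exact hA.mul_zero _ _
  · rw [hA.mul_succ]
    apply Finset.sum_eq_zero
    intro p hp
    rw [HasAntidiagonal.mem_antidiagonal] at hp
    have : p.1 ≠ n := by omega
    rw [he, Pi.single_apply, if_neg this, zero_mul]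

theorem fb_shhi (hA : IsWL1 w A coef) {e : ℕ → A} (he : ∀ n, coef (e n) = Pi.single n 1)
    (n : ℕ) (a : A) (i : ℕ) : coef (e n * a) (n + 1 + i) = coef a i := by
  have : n + 1 + i = (n + i) + 1 := by omega
  rw [this, hA.mul_succ, Finset.sum_eq_single (n, i)]
  · simp only
    rw [he, Pi.single_eq_same, one_mul]
  · intro p hp hne
    rw [HasAntidiagonal.mem_antidiagonal] at hp
    have : p.1 ≠ n := by
      intro h
      apply hne
      ext
      · exact h
      · simp only; omega
    rw [he, Pi.single_apply, if_neg this, zero_mul]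
  · intro h
    exfalso
    apply h
    rw [HasAntidiagonal.mem_antidiagonal]

theorem fb_norme (hA : IsWL1 w A coef) {e : ℕ → A} (he : ∀ n, coef (e n) = Pi.single n 1)
    (n : ℕ) : ‖e n‖ = w (n + 1) := by
  have h1 := hA.norm (e n)
  have h2 : HasSum (fun m => ‖coef (e n) m‖ * w (m + 1)) (‖coef (e n) n‖ * w (n + 1)) := by
    apply hasSum_single
    intro m hm
    rw [he, Pi.single_apply, if_neg hm, norm_zero, zero_mul]
  rw [h1.unique h2, he, Pi.single_eq_same, norm_one, one_mul]

theorem fb_sum_coef {e : ℕ → A} (he : ∀ n, coef (e n) = Pi.single n 1) (a : A) (s : Finset ℕ)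
    (m : ℕ) : coef (a - ∑ n ∈ s, coef a n • e n) m = if m ∈ s then 0 else coef a m := by
  rw [map_sub, map_sum]
  simp only [map_smul, Pi.sub_apply, Finset.sum_apply, Pi.smul_apply, smul_eq_mul]
  have : ∀ n ∈ s, coef a n * coef (e n) m = if m = n then coef a n else 0 := by
    intro n _
    rw [he, Pi.single_apply]
    split_ifs <;> simp
  rw [Finset.sum_congr rfl this, Finset.sum_ite_eq]
  split_ifs <;> simp

theorem fb_exp (hA : IsWL1 w A coef) {e : ℕ → A} (he : ∀ n, coef (e n) = Pi.single n 1) (a : A) :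
    HasSum (fun n => coef a n • e n) a := by
  have h1 := hA.norm a
  have hn : ∀ s : Finset ℕ, ‖a - ∑ n ∈ s, coef a n • e n‖ =
      ‖a‖ - ∑ n ∈ s, ‖coef a n‖ * w (n + 1) := by
    intro s
    have h2 := hA.norm (a - ∑ n ∈ s, coef a n • e n)
    have h3 : HasSum (fun n => if n ∈ s then ‖coef a n‖ * w (n + 1) else 0)
        (∑ n ∈ s, ‖coef a n‖ * w (n + 1)) := by
      have : HasSum (fun n => if n ∈ s then ‖coef a n‖ * w (n + 1) else 0)
          (∑ n ∈ s, if n ∈ s then ‖coef a n‖ * w (n + 1) else 0) :=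
        hasSum_sum_of_ne_finset_zero (fun b hb => by simp only [if_neg hb])
      have h4 : ∑ n ∈ s, (if n ∈ s then ‖coef a n‖ * w (n + 1) else 0) =
          ∑ n ∈ s, ‖coef a n‖ * w (n + 1) :=
        Finset.sum_congr rfl (fun n hn => by rw [if_pos hn])
      rwa [h4] at this
    have h5 := h1.sub h3
    have h6 : (fun n => ‖coef a n‖ * w (n + 1) - if n ∈ s then ‖coef a n‖ * w (n + 1) else 0) =
        fun n => ‖coef (a - ∑ n ∈ s, coef a n • e n) n‖ * w (n + 1) := by
      funext n
      rw [fb_sum_coef he]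
      split_ifs <;> simp
    rw [h6] at h5
    exact h2.unique h5
  have h7 : Tendsto (fun s : Finset ℕ => ‖a - ∑ n ∈ s, coef a n • e n‖) atTop (𝓝 0) := by
    simp_rw [hn]
    have h8 : Tendsto (fun s : Finset ℕ => ∑ n ∈ s, ‖coef a n‖ * w (n + 1)) atTop (𝓝 ‖a‖) := h1
    have h9 := (tendsto_const_nhds (x := ‖a‖)).sub h8
    rwa [sub_self] at h9
  have h10 : Tendsto (fun s : Finset ℕ => ∑ n ∈ s, coef a n • e n) atTop (𝓝 a) := by
    rw [tendsto_iff_norm_sub_tendsto_zero]
    simpa only [norm_sub_rev] using h7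
  exact h10

end

theorem tFB : S_FB.{u} := by
  intro w hw A _ _ coef hA
  refine ⟨fb_inj hA, ?_⟩
  have hex : ∀ n : ℕ, ∃ a : A, coef a = Pi.single n 1 := by
    intro n
    apply hA.surj
    apply summable_of_ne_finset_zero (s := {n})
    intro b hb
    rw [mem_singleton] at hb
    rw [Pi.single_apply, if_neg hb, norm_zero, zero_mul]
  choose e he using hex
  refine ⟨e, he, fb_norme hA he, ?_, fb_shlo hA he, fb_shhi hA he, fb_exp hA he⟩
  intro m n
  apply fb_inj hA
  funext i
  rcases Nat.lt_or_ge m i with h | h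
  · obtain ⟨j, rfl⟩ := Nat.exists_eq_add_of_le (show m + 1 ≤ i from h)
    rw [fb_shhi hA he, he, he, Pi.single_apply, Pi.single_apply]
    by_cases hj : j = n
    · rw [if_pos hj, if_pos (by omega)]
    · rw [if_neg hj, if_neg (by omega)]
  · rw [fb_shlo hA he m (e n) i h, he, Pi.single_apply, if_neg (by omega)]

end Pool.Agent.MPf50f2a
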