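import Pool.Agent.Lib.MP_f50f2a_an.Spec

/-!
# MP_f50f2a_an, FDD: the functional on the polynomial ring and the nested operators
-/

set_option autoImplicit false

namespace Pool.Agent.MPf50f2a

open Finset Filter Topology

universe u

section fdd

variable {U : Type u} [NormedCommRing U] [NormedAlgebra ℂ U]

/-- The composition of the maps `T n (κ n)` for `N ≤ n < N + m`. -/
private noncomputable def fdd_TT (T : ℕ → ℕ → Du U → Du U) (κ : ℕ → ℕ) (N : ℕ) :
    ℕ → Du U → Du U
  | 0, g => g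
  | m + 1, g => T (N + m) (κ (N + m)) (fdd_TT T κ N m g)

private lemma fdd_GG (T : ℕ → ℕ → Du U → Du U) (f : Du U) (κ : ℕ → ℕ) (N : ℕ) :
    GG T f κ N = fdd_TT T κ 0 N f := by
  induction N with
  | zero => rfl
  | succ N ih => simp only [GG, fdd_TT, ih, zero_add]

private lemma fdd_succ (T : ℕ → ℕ → Du U → Du U) (κ : ℕ → ℕ) (N m : ℕ) (g : Du U) :
    fdd_TT T κ N (m + 1) g = fdd_TT T κ (N + 1) m (T N (κ N) g) := by
  induction m with
  | zero => simp only [fdd_TT, add_zero]
  | succ m ih =>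
    rw [fdd_TT, ih]
    conv_rhs => rw [fdd_TT]
    have h : N + (m + 1) = N + 1 + m := by ring
    rw [h]

private lemma fdd_congr (T : ℕ → ℕ → Du U → Du U) {κ κ' : ℕ → ℕ} {N : ℕ}
    (h : ∀ n, N ≤ n → κ n = κ' n) (m : ℕ) (g : Du U) :
    fdd_TT T κ N m g = fdd_TT T κ' N m g := by
  induction m with
  | zero => rfl
  | succ m ih => simp only [fdd_TT, ih, h (N + m) (Nat.le_add_right _ _)]

private lemma fdd_DD_congr (b c : ℕ → U) (T : ℕ → ℕ → Du U → Du U) (f : Du U) (k : ℕ → ℕ)
    {κ κ' : ℕ → ℕ} : ∀ (N : ℕ) (Φ : Du U → Du U), (∀ n, n < N → κ n = κ' n) →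
    DD b c T f k κ N Φ = DD b c T f k κ' N Φ
  | 0, Φ, _ => rfl
  | N + 1, Φ, h => by
    simp only [DD]
    rw [h N (Nat.lt_succ_self N)]
    exact fdd_DD_congr b c T f k N _ fun n hn => h n (Nat.lt_succ_of_lt hn)

open MvPolynomial in
private lemma fdd_binom (b c a : U) (κ : ℕ →₀ ℕ) (N k : ℕ) :
    (monomial κ a * (C b * X N - C c) ^ k : MvPolynomial ℕ U) =
      ∑ i ∈ range (k + 1), ((k.choose i : ℕ) : ℂ) •
        monomial (κ + Finsupp.single N i) (((-c) ^ (k - i) * b ^ i) * a) := by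
  rw [sub_eq_add_neg, add_pow, Finset.mul_sum]
  refine Finset.sum_congr rfl fun i _ => ?_
  have h1 : (C b * X N : MvPolynomial ℕ U) ^ i = monomial (Finsupp.single N i) (b ^ i) := by
    rw [mul_pow, ← C_pow, X_pow_eq_monomial, C_mul_monomial, mul_one]
  have h2 : (-C c : MvPolynomial ℕ U) ^ (k - i) = C ((-c) ^ (k - i)) := by
    rw [← C_neg, ← C_pow]
  have h3 : ((k.choose i : ℕ) : MvPolynomial ℕ U) = C ((k.choose i : ℕ) : U) := by
    rw [map_natCast]
  rw [h1, h2, h3, smul_monomial]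
  have h4 : (((k.choose i : ℕ) : ℂ) • (((-c) ^ (k - i) * b ^ i) * a) : U) =
      a * ((b ^ i * (-c) ^ (k - i)) * ((k.choose i : ℕ) : U)) := by
    rw [Nat.cast_smul_eq_nsmul, nsmul_eq_mul]
    ring
  rw [h4, mul_comm (monomial (Finsupp.single N i) (b ^ i)) (C ((-c) ^ (k - i))),
    C_mul_monomial, mul_comm _ (C _), C_mul_monomial, monomial_mul]
  congr 1
  ring

open MvPolynomial in
private lemma fdd_main (hLin : S_Lin.{u}) (b c : ℕ → U)
    (T : ℕ → ℕ → Du U → Du U) (f : Du U) (F : MvPolynomial ℕ U →ₗ[ℂ] ℂ)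
    (hF : ∀ (κ : ℕ →₀ ℕ) (a : U) (N : ℕ), (∀ n, N ≤ n → κ n = 0) →
      F (monomial κ a) = GG T f κ N a) (k : ℕ → ℕ) :
    ∀ (N m : ℕ) (κ : ℕ →₀ ℕ) (a : U), (∀ n, N + m ≤ n → κ n = 0) →
      F (monomial κ a * ∏ n ∈ range N, (C (b n) * X n - C (c n)) ^ k n) =
        DD b c T f k κ N (fdd_TT T κ N m) a := by
  intro N
  induction N with
  | zero =>
    intro m κ a h
    rw [range_zero, prod_empty, mul_one, hF κ a m (by simpa using h), fdd_GG]
    rfl
  | succ N ih =>
    intro m κ a h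
    have e1 : (monomial κ a * ∏ n ∈ range (N + 1), (C (b n) * X n - C (c n)) ^ k n :
        MvPolynomial ℕ U) =
        ∑ i ∈ range (k N + 1), (((k N).choose i : ℕ) : ℂ) •
          (monomial (κ + Finsupp.single N i) (((-c N) ^ (k N - i) * (b N) ^ i) * a) *
            ∏ n ∈ range N, (C (b n) * X n - C (c n)) ^ k n) := by
      rw [prod_range_succ, mul_comm (∏ n ∈ range N, (C (b n) * X n - C (c n)) ^ k n),
        ← mul_assoc, fdd_binom, Finset.sum_mul]
      refine Finset.sum_congr rfl fun i _ => ?_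
      rw [smul_mul_assoc]
    rw [e1, map_sum]
    have e2 : ∀ i ∈ range (k N + 1),
        F ((((k N).choose i : ℕ) : ℂ) •
          (monomial (κ + Finsupp.single N i) (((-c N) ^ (k N - i) * (b N) ^ i) * a) *
            ∏ n ∈ range N, (C (b n) * X n - C (c n)) ^ k n)) =
        (((k N).choose i : ℕ) : ℂ) • act ((-c N) ^ (k N - i) * (b N) ^ i)
          (DD b c T f k κ N (fun g => fdd_TT T κ (N + 1) m (T N (κ N + i) g))) a := by
      intro i _
      rw [map_smul, ih (m + 1) (κ + Finsupp.single N i) _ (fun n hn => by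
        have h1 : N ≠ n := by omega
        rw [Finsupp.add_apply, Finsupp.single_eq_of_ne' h1, add_zero]
        exact h n (by omega)), act_apply]
      congr 2
      rw [fdd_DD_congr b c T f k (κ := ⇑(κ + Finsupp.single N i)) (κ' := ⇑κ) N _ (fun n hn => by
        have h1 : N ≠ n := by omega
        rw [Finsupp.add_apply, Finsupp.single_eq_of_ne' h1, add_zero])]
      congr 1
      funext g
      rw [fdd_succ, Finsupp.add_apply, Finsupp.single_eq_same]
      exact fdd_congr T (fun n hn => by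
        have h1 : N ≠ n := by omega
        rw [Finsupp.add_apply, Finsupp.single_eq_of_ne' h1, add_zero]) m _
    rw [Finset.sum_congr rfl e2]
    have e3 := hLin U b c T f k κ N (range (k N + 1)) (fun i => (((k N).choose i : ℕ) : ℂ))
      (fun i => (-c N) ^ (k N - i) * (b N) ^ i)
      (fun i g => fdd_TT T κ (N + 1) m (T N (κ N + i) g))
    have e4 : DD b c T f k κ (N + 1) (fdd_TT T κ (N + 1) m) =
        DD b c T f k κ N (fun g => ∑ i ∈ range (k N + 1), (((k N).choose i : ℕ) : ℂ) •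
          act ((-c N) ^ (k N - i) * (b N) ^ i) (fdd_TT T κ (N + 1) m (T N (κ N + i) g))) := rfl
    rw [e4, e3, _root_.sum_apply]
    refine Finset.sum_congr rfl fun i _ => ?_
    rw [smul_apply]

end fdd

theorem tFDD (hLin : S_Lin.{u}) : S_FDD.{u} := by
  intro U _ _ b c T f F hF κ k a N h
  have := fdd_main hLin b c T f F hF k N 0 κ a (by simpa using h)
  rw [this]
  rfl

end Pool.Agent.MPf50f2a
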