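import Pool.Agent.Lib.MP_f50f2a_an.Spec2

/-!
# MP_f50f2a_an: FDom, the domination condition for `(X ^ (m + 1), X)`
-/

set_option autoImplicit false

namespace Pool.Agent.MPf50f2a

open Finset Filter Topology

universe u

theorem fdom_sum {w : ℕ → ℝ} {A : Type u} [NonUnitalNormedCommRing A] [NormedSpace ℂ A]
    {coef : A →ₗ[ℂ] (ℕ → ℂ)} {e : ℕ → A} (hA : IsWL1 w A coef) (he : IsE w A coef e)
    (m : ℕ) (l : ℂ) (y : A) :
    HasSum (fun j => ‖(Nat.casesOn j l (fun i => coef y i) : ℂ)‖ * w (j + m + 1))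
      ‖l • e m + e m * y‖ := by
  have hc : ∀ i, coef (l • e m + e m * y) i = l * (Pi.single m (1 : ℂ) : ℕ → ℂ) i +
      coef (e m * y) i := by
    intro i
    rw [map_add, map_smul, he.coefe]
    rfl
  have h1 := hA.norm (l • e m + e m * y)
  have h2 : ∑ i ∈ range m, ‖coef (l • e m + e m * y) i‖ * w (i + 1) = 0 := by
    apply Finset.sum_eq_zero
    intro i hi
    have hi' : i < m := Finset.mem_range.mp hi
    rw [hc, Pi.single_eq_of_ne hi'.ne, he.shlo m y i hi'.le]
    simp
  have h3 := (hasSum_nat_add_iff (f := fun i => ‖coef (l • e m + e m * y) i‖ * w (i + 1)) m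
    (g := ‖l • e m + e m * y‖)).mpr (by rw [h2, add_zero]; exact h1)
  have h4 : (fun j => ‖(Nat.casesOn j l (fun i => coef y i) : ℂ)‖ * w (j + m + 1)) =
      fun n => ‖coef (l • e m + e m * y) (n + m)‖ * w (n + m + 1) := by
    funext j
    congr 2
    rw [hc]
    rcases j with _ | j
    · rw [Nat.zero_add, Pi.single_eq_same, he.shlo m y m le_rfl]
      simp
    · have h5 : j + 1 + m = m + 1 + j := by omega
      rw [h5, he.shhi m y j, Pi.single_eq_of_ne (by omega)]
      simp
  rw [h4]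
  exact h3

theorem tFDom : S_FDom.{u} := by
  intro w hw A _ _ coef e hA he m δ hδ
  -- the threshold
  have hev : ∀ᶠ n in atTop, w (n + 1) / w n < δ := hw.lim.eventually_lt_const hδ
  obtain ⟨j₀, hj₀⟩ := eventually_atTop.mp hev
  refine ⟨∑ j ∈ range j₀, w (j + 1) / w (j + m + 1), fun l y => ?_⟩
  set K : ℝ := ∑ j ∈ range j₀, w (j + 1) / w (j + m + 1) with hK
  have hK0 : 0 ≤ K := Finset.sum_nonneg fun j _ => (div_pos (hw.pos _) (hw.pos _)).le
  have hkey : ∀ j, w (j + 1) ≤ K * w (j + m + 1) + δ * w j := by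
    intro j
    by_cases hj : j < j₀
    · have h1 : w (j + 1) / w (j + m + 1) ≤ K :=
        Finset.single_le_sum (f := fun j => w (j + 1) / w (j + m + 1))
          (fun i _ => (div_pos (hw.pos _) (hw.pos _)).le) (Finset.mem_range.mpr hj)
      rw [div_le_iff₀ (hw.pos _)] at h1
      have h2 := mul_pos hδ (hw.pos j)
      linarith
    · have h1 := (hj₀ j (not_lt.mp hj)).le
      rw [div_le_iff₀ (hw.pos _)] at h1
      have h2 := mul_nonneg hK0 (hw.pos (j + m + 1)).le
      linarith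
  have s0 := fdom_sum hA he 0 l y
  have sm := fdom_sum hA he m l y
  have sy : HasSum (fun j => ‖(Nat.casesOn j l (fun i => coef y i) : ℂ)‖ * w j) (‖l‖ + ‖y‖) := by
    have h1 := (hasSum_nat_add_iff
      (f := fun j => ‖(Nat.casesOn j l (fun i => coef y i) : ℂ)‖ * w j) 1 (g := ‖y‖)).mp
      (hA.norm y)
    rw [Finset.sum_range_one] at h1
    have h2 : ‖(Nat.casesOn 0 l (fun i => coef y i) : ℂ)‖ * w 0 = ‖l‖ := by
      rw [hw.zero, mul_one]
      rfl
    rw [h2, add_comm] at h1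
    exact h1
  have s1 := (sm.mul_left K).add (sy.mul_left δ)
  refine hasSum_le (fun j => ?_) s0 s1
  have h1 := mul_le_mul_of_nonneg_left (hkey j)
    (norm_nonneg (Nat.casesOn j l (fun i => coef y i) : ℂ))
  rw [Nat.add_zero]
  calc _ ≤ _ := h1
    _ = _ := by ring

end Pool.Agent.MPf50f2a
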