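import Pool.Agent.Lib.MP_f50f2a_an.Spec2

/-!
# MP_f50f2a_an: existence of the weighted algebra of power series
-/

set_option autoImplicit false

namespace Pool.Agent.MPf50f2a

open Finset Filter Topology

universe u

/-- the underlying space -/
abbrev FexL : Type := lp (fun _ : ℕ => ℂ) 1

/-- the product of the series `∑ f n X ^ (n + 1)` and `∑ g n X ^ (n + 1)` -/
noncomputable def fex_star (f g : ℕ → ℂ) : ℕ → ℂ := fun n =>
  PowerSeries.coeff n (PowerSeries.X * (PowerSeries.mk f * PowerSeries.mk g))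

lemma fex_star_zero (f g : ℕ → ℂ) : fex_star f g 0 = 0 :=
  PowerSeries.coeff_zero_X_mul _

lemma fex_star_succ (f g : ℕ → ℂ) (m : ℕ) :
    fex_star f g (m + 1) = ∑ p ∈ antidiagonal m, f p.1 * g p.2 := by
  unfold fex_star
  rw [PowerSeries.coeff_succ_X_mul, PowerSeries.coeff_mul]
  simp only [PowerSeries.coeff_mk]

lemma fex_mk_star (f g : ℕ → ℂ) :
    PowerSeries.mk (fex_star f g) = PowerSeries.X * (PowerSeries.mk f * PowerSeries.mk g) := by
  ext n
  rw [PowerSeries.coeff_mk]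
  rfl

lemma fex_mk_inj {f g : ℕ → ℂ} (h : PowerSeries.mk f = PowerSeries.mk g) : f = g := by
  funext n
  have := congrArg (PowerSeries.coeff n) h
  rwa [PowerSeries.coeff_mk, PowerSeries.coeff_mk] at this

lemma fex_mk_add (f g : ℕ → ℂ) :
    PowerSeries.mk (f + g) = PowerSeries.mk f + PowerSeries.mk g := by
  ext n
  rw [map_add, PowerSeries.coeff_mk, PowerSeries.coeff_mk, PowerSeries.coeff_mk]
  rfl

lemma fex_mk_smul (c : ℂ) (f : ℕ → ℂ) :
    PowerSeries.mk (c • f) = c • PowerSeries.mk f := by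
  ext n
  rw [map_smul, PowerSeries.coeff_mk, PowerSeries.coeff_mk]
  rfl

lemma fex_star_assoc (f g h : ℕ → ℂ) :
    fex_star (fex_star f g) h = fex_star f (fex_star g h) := by
  apply fex_mk_inj
  rw [fex_mk_star, fex_mk_star, fex_mk_star, fex_mk_star]
  ring

lemma fex_star_comm (f g : ℕ → ℂ) : fex_star f g = fex_star g f := by
  apply fex_mk_inj
  rw [fex_mk_star, fex_mk_star]
  ring

lemma fex_star_add (f g h : ℕ → ℂ) : fex_star f (g + h) = fex_star f g + fex_star f h := by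
  apply fex_mk_inj
  rw [fex_mk_add, fex_mk_star, fex_mk_star, fex_mk_star, fex_mk_add]
  ring

lemma fex_star_smul (c : ℂ) (f g : ℕ → ℂ) : fex_star f (c • g) = c • fex_star f g := by
  apply fex_mk_inj
  rw [fex_mk_smul, fex_mk_star, fex_mk_star, fex_mk_smul, mul_smul_comm, mul_smul_comm]

/-- summability and the norm inequality -/
lemma fex_star_summable {w : ℕ → ℝ} (hpos : ∀ n, 0 < w n) (hw : ∀ i j, w (i + j) ≤ w i * w j)
    {f g : ℕ → ℂ} (hf : Summable fun n => ‖f n‖ * w (n + 1))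
    (hg : Summable fun n => ‖g n‖ * w (n + 1)) :
    (Summable fun n => ‖fex_star f g n‖ * w (n + 1)) ∧
      ∑' n, ‖fex_star f g n‖ * w (n + 1) ≤
        (∑' n, ‖f n‖ * w (n + 1)) * ∑' n, ‖g n‖ * w (n + 1) := by
  have hF0 : ∀ n, 0 ≤ ‖f n‖ * w (n + 1) := fun n => mul_nonneg (norm_nonneg _) (hpos _).le
  have hG0 : ∀ n, 0 ≤ ‖g n‖ * w (n + 1) := fun n => mul_nonneg (norm_nonneg _) (hpos _).le
  have hF : Summable fun n => ‖‖f n‖ * w (n + 1)‖ := by
    refine hf.congr fun n => ?_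
    rw [Real.norm_of_nonneg (hF0 n)]
  have hG : Summable fun n => ‖‖g n‖ * w (n + 1)‖ := by
    refine hg.congr fun n => ?_
    rw [Real.norm_of_nonneg (hG0 n)]
  have hle : ∀ m, ‖fex_star f g (m + 1)‖ * w (m + 1 + 1) ≤
      ∑ p ∈ antidiagonal m, ‖f p.1‖ * w (p.1 + 1) * (‖g p.2‖ * w (p.2 + 1)) := by
    intro m
    rw [fex_star_succ]
    calc ‖∑ p ∈ antidiagonal m, f p.1 * g p.2‖ * w (m + 1 + 1)
        ≤ (∑ p ∈ antidiagonal m, ‖f p.1‖ * ‖g p.2‖) * w (m + 1 + 1) := by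
          refine mul_le_mul_of_nonneg_right ?_ (hpos _).le
          refine (norm_sum_le _ _).trans (le_of_eq ?_)
          exact sum_congr rfl fun p _ => norm_mul _ _
      _ = ∑ p ∈ antidiagonal m, ‖f p.1‖ * ‖g p.2‖ * w (m + 1 + 1) := sum_mul _ _ _
      _ ≤ _ := by
          refine sum_le_sum fun p hp => ?_
          have h1 : m + 1 + 1 = (p.1 + 1) + (p.2 + 1) := by
            have := mem_antidiagonal.1 hp
            omega
          have h2 := hw (p.1 + 1) (p.2 + 1)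
          rw [← h1] at h2
          calc ‖f p.1‖ * ‖g p.2‖ * w (m + 1 + 1)
              ≤ ‖f p.1‖ * ‖g p.2‖ * (w (p.1 + 1) * w (p.2 + 1)) :=
                mul_le_mul_of_nonneg_left h2 (mul_nonneg (norm_nonneg _) (norm_nonneg _))
            _ = _ := by ring
  have hS : Summable fun m => ∑ p ∈ antidiagonal m,
      ‖f p.1‖ * w (p.1 + 1) * (‖g p.2‖ * w (p.2 + 1)) :=
    (summable_norm_sum_mul_antidiagonal_of_summable_norm hF hG).of_norm
  have hT : Summable fun m => ‖fex_star f g (m + 1)‖ * w (m + 1 + 1) :=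
    Summable.of_nonneg_of_le (fun m => mul_nonneg (norm_nonneg _) (hpos _).le) hle hS
  have hT' : Summable fun n => ‖fex_star f g n‖ * w (n + 1) :=
    (summable_nat_add_iff (f := fun n => ‖fex_star f g n‖ * w (n + 1)) 1).1 hT
  refine ⟨hT', ?_⟩
  rw [hT'.tsum_eq_zero_add, tsum_mul_tsum_eq_tsum_sum_antidiagonal_of_summable_norm hF hG,
    fex_star_zero, norm_zero, zero_mul, zero_add]
  exact hT.tsum_le_tsum hle hS

/-- the coefficients -/
noncomputable def fex_cf (w : ℕ → ℝ) : FexL →ₗ[ℂ] (ℕ → ℂ) where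
  toFun a := fun n => a n / (w (n + 1) : ℂ)
  map_add' a b := by
    funext n
    show (a + b : FexL) n / (w (n + 1) : ℂ) = a n / (w (n + 1) : ℂ) + b n / (w (n + 1) : ℂ)
    rw [lp.coeFn_add, Pi.add_apply, add_div]
  map_smul' c a := by
    funext n
    show (c • a : FexL) n / (w (n + 1) : ℂ) = c * (a n / (w (n + 1) : ℂ))
    rw [lp.coeFn_smul, Pi.smul_apply, smul_eq_mul, mul_div_assoc]

lemma fex_cf_inj {w : ℕ → ℝ} (hpos : ∀ n, 0 < w n) {a b : FexL} (h : fex_cf w a = fex_cf w b) :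
    a = b := by
  apply lp.ext
  funext n
  have h1 : a n / (w (n + 1) : ℂ) = b n / (w (n + 1) : ℂ) := congrFun h n
  have h2 : (w (n + 1) : ℂ) ≠ 0 := by
    exact_mod_cast (hpos (n + 1)).ne'
  rwa [div_left_inj' h2] at h1

lemma fex_hasSum (a : FexL) : HasSum (fun n => ‖a n‖) ‖a‖ := by
  have h := lp.hasSum_norm (p := 1) (by norm_num) a
  simpa using h

lemma fex_norm {w : ℕ → ℝ} (hpos : ∀ n, 0 < w n) (a : FexL) :
    HasSum (fun n => ‖fex_cf w a n‖ * w (n + 1)) ‖a‖ := by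
  refine (fex_hasSum a).congr_fun ?_ |> fun h => h
  intro n
  show ‖a n / (w (n + 1) : ℂ)‖ * w (n + 1) = ‖a n‖
  rw [norm_div, Complex.norm_real, Real.norm_of_nonneg (hpos _).le,
    div_mul_cancel₀ _ (hpos _).ne']

/-- the element with given coefficients -/
lemma fex_ex {w : ℕ → ℝ} (hpos : ∀ n, 0 < w n) (f : ℕ → ℂ)
    (hf : Summable fun n => ‖f n‖ * w (n + 1)) : ∃ a : FexL, fex_cf w a = f := by
  have h : Memℓp (fun n => f n * (w (n + 1) : ℂ)) 1 := by
    refine memℓp_gen ?_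
    refine hf.congr fun n => ?_
    rw [ENNReal.toReal_one, Real.rpow_one, norm_mul, Complex.norm_real,
      Real.norm_of_nonneg (hpos _).le]
  refine ⟨⟨fun n => f n * (w (n + 1) : ℂ), h⟩, ?_⟩
  funext n
  show f n * (w (n + 1) : ℂ) / (w (n + 1) : ℂ) = f n
  have h2 : (w (n + 1) : ℂ) ≠ 0 := by
    exact_mod_cast (hpos (n + 1)).ne'
  exact mul_div_cancel_right₀ _ h2

lemma fex_mul_ex {w : ℕ → ℝ} (hpos : ∀ n, 0 < w n) (hw : ∀ i j, w (i + j) ≤ w i * w j)
    (a b : FexL) : ∃ c : FexL, fex_cf w c = fex_star (fex_cf w a) (fex_cf w b) :=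
  fex_ex hpos _ (fex_star_summable hpos hw (fex_norm hpos a).summable
    (fex_norm hpos b).summable).1

/-- the product -/
noncomputable def fex_mul {w : ℕ → ℝ} (hpos : ∀ n, 0 < w n) (hw : ∀ i j, w (i + j) ≤ w i * w j)
    (a b : FexL) : FexL := (fex_mul_ex hpos hw a b).choose

lemma fex_mul_cf {w : ℕ → ℝ} (hpos : ∀ n, 0 < w n) (hw : ∀ i j, w (i + j) ≤ w i * w j)
    (a b : FexL) : fex_cf w (fex_mul hpos hw a b) = fex_star (fex_cf w a) (fex_cf w b) :=
  (fex_mul_ex hpos hw a b).choose_spec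

lemma fex_mul_comm {w : ℕ → ℝ} (hpos : ∀ n, 0 < w n) (hw : ∀ i j, w (i + j) ≤ w i * w j)
    (a b : FexL) : fex_mul hpos hw a b = fex_mul hpos hw b a := by
  apply fex_cf_inj hpos
  rw [fex_mul_cf, fex_mul_cf, fex_star_comm]

lemma fex_mul_add {w : ℕ → ℝ} (hpos : ∀ n, 0 < w n) (hw : ∀ i j, w (i + j) ≤ w i * w j)
    (a b c : FexL) : fex_mul hpos hw a (b + c) = fex_mul hpos hw a b + fex_mul hpos hw a c := by
  apply fex_cf_inj hpos
  rw [map_add, fex_mul_cf, fex_mul_cf, fex_mul_cf, map_add, fex_star_add]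

lemma fex_mul_smul {w : ℕ → ℝ} (hpos : ∀ n, 0 < w n) (hw : ∀ i j, w (i + j) ≤ w i * w j)
    (r : ℂ) (a b : FexL) : fex_mul hpos hw a (r • b) = r • fex_mul hpos hw a b := by
  apply fex_cf_inj hpos
  rw [map_smul, fex_mul_cf, fex_mul_cf, map_smul, fex_star_smul]

lemma fex_mul_assoc {w : ℕ → ℝ} (hpos : ∀ n, 0 < w n) (hw : ∀ i j, w (i + j) ≤ w i * w j)
    (a b c : FexL) :
    fex_mul hpos hw (fex_mul hpos hw a b) c = fex_mul hpos hw a (fex_mul hpos hw b c) := by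
  apply fex_cf_inj hpos
  rw [fex_mul_cf, fex_mul_cf, fex_mul_cf, fex_mul_cf, fex_star_assoc]

lemma fex_norm_mul {w : ℕ → ℝ} (hpos : ∀ n, 0 < w n) (hw : ∀ i j, w (i + j) ≤ w i * w j)
    (a b : FexL) : ‖fex_mul hpos hw a b‖ ≤ ‖a‖ * ‖b‖ := by
  have h1 := fex_norm hpos (fex_mul hpos hw a b)
  rw [fex_mul_cf] at h1
  rw [← h1.tsum_eq, ← (fex_norm hpos a).tsum_eq, ← (fex_norm hpos b).tsum_eq]
  exact (fex_star_summable hpos hw (fex_norm hpos a).summable (fex_norm hpos b).summable).2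

/-- the ring structure from a bilinear product -/
@[reducible] noncomputable def fex_ring {L : Type} [iL : NormedAddCommGroup L] [NormedSpace ℂ L]
    (mul : L → L → L) (hcomm : ∀ a b, mul a b = mul b a)
    (hadd : ∀ a b c, mul a (b + c) = mul a b + mul a c)
    (hsmul : ∀ (r : ℂ) a b, mul a (r • b) = r • mul a b)
    (hassoc : ∀ a b c, mul (mul a b) c = mul a (mul b c))
    (hnorm : ∀ a b, ‖mul a b‖ ≤ ‖a‖ * ‖b‖) : NonUnitalNormedCommRing L :=
  { iL with
    mul := mul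
    left_distrib := hadd
    right_distrib := fun a b c => by
      show mul (a + b) c = mul a c + mul b c
      rw [hcomm, hadd, hcomm c a, hcomm c b]
    zero_mul := fun a => by
      show mul 0 a = 0
      rw [hcomm, ← zero_smul ℂ (0 : L), hsmul, zero_smul, zero_smul]
    mul_zero := fun a => by
      show mul a 0 = 0
      rw [← zero_smul ℂ (0 : L), hsmul, zero_smul, zero_smul]
    mul_assoc := hassoc
    mul_comm := hcomm
    norm_mul_le := hnorm }

theorem fex_pack (w : ℕ → ℝ) {L : Type} [NormedAddCommGroup L] [sL : NormedSpace ℂ L]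
    [cL : CompleteSpace L]
    (mul : L → L → L) (hcomm : ∀ a b, mul a b = mul b a)
    (hadd : ∀ a b c, mul a (b + c) = mul a b + mul a c)
    (hsmul : ∀ (r : ℂ) a b, mul a (r • b) = r • mul a b)
    (hassoc : ∀ a b c, mul (mul a b) c = mul a (mul b c))
    (hnorm : ∀ a b, ‖mul a b‖ ≤ ‖a‖ * ‖b‖) (cf : L →ₗ[ℂ] (ℕ → ℂ))
    (h1 : ∀ a, HasSum (fun n => ‖cf a n‖ * w (n + 1)) ‖a‖)
    (h2 : ∀ f : ℕ → ℂ, Summable (fun n => ‖f n‖ * w (n + 1)) → ∃ a, cf a = f)
    (h3 : ∀ a b, cf (mul a b) 0 = 0)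
    (h4 : ∀ a b m, cf (mul a b) (m + 1) = ∑ p ∈ antidiagonal m, cf a p.1 * cf b p.2) :
    ∃ (A : Type) (_ : NonUnitalNormedCommRing A) (_ : NormedSpace ℂ A) (_ : IsScalarTower ℂ A A)
      (_ : SMulCommClass ℂ A A) (_ : CompleteSpace A) (coef : A →ₗ[ℂ] (ℕ → ℂ)), IsWL1 w A coef := by
  let R : NonUnitalNormedCommRing L := fex_ring mul hcomm hadd hsmul hassoc hnorm
  have i1 : IsScalarTower ℂ L L := by
    refine ⟨fun c a b => ?_⟩
    show mul (c • a) b = c • mul a b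
    rw [hcomm, hsmul, hcomm]
  have i2 : SMulCommClass ℂ L L := by
    refine ⟨fun c a b => ?_⟩
    show c • mul a b = mul a (c • b)
    rw [hsmul]
  exact ⟨L, R, sL, i1, i2, cL, cf, @IsWL1.mk w L R sL cf h1 h2 h3 h4⟩

theorem tFEx (hFW : S_FW) : S_FEx := by
  intro w hwt
  obtain ⟨hw, -, -⟩ := hFW w hwt
  have hpos := hwt.pos
  refine fex_pack w (fex_mul hpos hw) (fex_mul_comm hpos hw) (fex_mul_add hpos hw)
    (fex_mul_smul hpos hw) (fex_mul_assoc hpos hw) (fex_norm_mul hpos hw) (fex_cf w)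
    (fex_norm hpos) (fex_ex hpos) ?_ ?_
  · intro a b
    rw [fex_mul_cf, fex_star_zero]
  · intro a b m
    rw [fex_mul_cf, fex_star_succ]

end Pool.Agent.MPf50f2a
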