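import Pool.Agent.Lib.MP_f50f2a_an.Spec

set_option autoImplicit false

namespace Pool.Agent.MPf50f2a

open Finset Filter Topology

universe u

theorem ff_GG_add {U : Type u} [NormedCommRing U] [NormedAlgebra ℂ U] (T : ℕ → ℕ → Du U → Du U)
    (f : Du U) (hT : ∀ n g, T n 0 g = g) (κ : ℕ → ℕ) (N : ℕ) (h : ∀ n, N ≤ n → κ n = 0) (m : ℕ) :
    GG T f κ (N + m) = GG T f κ N := by
  induction m with
  | zero => rfl
  | succ m ih =>
    change T (N + m) (κ (N + m)) (GG T f κ (N + m)) = _
    rw [h _ (Nat.le_add_right N m), hT, ih]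

theorem ff_GG_eq {U : Type u} [NormedCommRing U] [NormedAlgebra ℂ U] (T : ℕ → ℕ → Du U → Du U)
    (f : Du U) (hT : ∀ n g, T n 0 g = g) (κ : ℕ → ℕ) (N N' : ℕ) (h : ∀ n, N ≤ n → κ n = 0)
    (h' : ∀ n, N' ≤ n → κ n = 0) : GG T f κ N = GG T f κ N' := by
  rcases le_total N N' with hle | hle
  · obtain ⟨m, rfl⟩ := Nat.exists_eq_add_of_le hle
    exact (ff_GG_add T f hT κ N h m).symm
  · obtain ⟨m, rfl⟩ := Nat.exists_eq_add_of_le hle
    exact ff_GG_add T f hT κ N' h' m

open MvPolynomial in
theorem ff_sum {U : Type u} [NormedCommRing U] [NormedAlgebra ℂ U] (G : (ℕ →₀ ℕ) → Du U)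
    (s : Finset (ℕ →₀ ℕ)) (q : MvPolynomial ℕ U) (h : q.support ⊆ s) :
    ∑ κ ∈ q.support, G κ (coeff κ q) = ∑ κ ∈ s, G κ (coeff κ q) := by
  refine Finset.sum_subset h fun κ _ hκ => ?_
  rw [MvPolynomial.notMem_support_iff.1 hκ, map_zero]

open MvPolynomial in
theorem tFF : S_FF.{u} := by
  classical
  intro U _ _ T f hT
  let G : (ℕ →₀ ℕ) → Du U := fun κ => GG T f κ (κ.support.sup id + 1)
  have hG : ∀ (κ : ℕ →₀ ℕ) (N : ℕ), (∀ n, N ≤ n → κ n = 0) → G κ = GG T f κ N := by
    intro κ N hN
    refine ff_GG_eq T f hT κ _ N ?_ hN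
    intro n hn
    by_contra hne
    have h1 : n ∈ κ.support := Finsupp.mem_support_iff.2 hne
    have h2 : id n ≤ κ.support.sup id := Finset.le_sup (f := id) h1
    simp only [id] at h2
    omega
  let F : MvPolynomial ℕ U →ₗ[ℂ] ℂ :=
    { toFun := fun q => ∑ κ ∈ q.support, G κ (coeff κ q)
      map_add' := by
        intro a b
        rw [ff_sum G (a.support ∪ b.support ∪ (a + b).support) (a + b) Finset.subset_union_right,
          ff_sum G (a.support ∪ b.support ∪ (a + b).support) a
            (Finset.subset_union_left.trans Finset.subset_union_left),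
          ff_sum G (a.support ∪ b.support ∪ (a + b).support) b
            (Finset.subset_union_right.trans Finset.subset_union_left), ← Finset.sum_add_distrib]
        refine Finset.sum_congr rfl fun κ _ => ?_
        rw [coeff_add, map_add]
      map_smul' := by
        intro r a
        rw [ff_sum G (a.support ∪ (r • a).support) (r • a) Finset.subset_union_right,
          ff_sum G (a.support ∪ (r • a).support) a Finset.subset_union_left, Finset.smul_sum]
        refine Finset.sum_congr rfl fun κ _ => ?_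
        rw [coeff_smul, map_smul, RingHom.id_apply] }
  refine ⟨F, fun κ a N hN => ?_⟩
  rw [← hG κ N hN]
  change ∑ κ' ∈ (monomial κ a).support, G κ' (coeff κ' (monomial κ a)) = G κ a
  rw [ff_sum G {κ} (monomial κ a) (support_monomial_subset), Finset.sum_singleton,
    coeff_monomial, if_pos rfl]

end Pool.Agent.MPf50f2a
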