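import Pool.Agent.Lib.MP_f50f2a_an.Spec2

/-!
# MP_f50f2a_an, FIdeal: closed ideals contain powers of X
-/

set_option autoImplicit false

namespace Pool.Agent.MPf50f2a

open Finset Filter Topology

universe u

theorem fideal_hb {A : Type u} [NormedAddCommGroup A] [NormedSpace ℂ A] (I : Submodule ℂ A)
    (hI : IsClosed (I : Set A)) (x : A) (hx : x ∉ I) :
    ∃ f : A →L[ℂ] ℂ, (∀ y ∈ I, f y = 0) ∧ f x ≠ 0 := by
  have : IsClosed (I : Set A) := hI
  have h1 : ‖I.mkQ x‖ ≠ 0 := by
    rw [norm_ne_zero_iff]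
    intro h
    apply hx
    rwa [Submodule.mkQ_apply, Submodule.Quotient.mk_eq_zero] at h
  obtain ⟨g, -, hg⟩ := exists_dual_vector ℂ (I.mkQ x) h1
  refine ⟨g.comp I.mkQL, ?_, ?_⟩
  · intro y hy
    rw [ContinuousLinearMap.comp_apply, Submodule.mkQL_apply]
    have : I.mkQ y = 0 := by
      rw [Submodule.mkQ_apply, Submodule.Quotient.mk_eq_zero]
      exact hy
    rw [this, map_zero]
  · rw [ContinuousLinearMap.comp_apply, Submodule.mkQL_apply, hg]
    intro h
    apply h1
    exact Complex.ofReal_eq_zero.mp h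

section

variable {w : ℕ → ℝ} {A : Type u} [NonUnitalNormedCommRing A] [NormedSpace ℂ A]
  [IsScalarTower ℂ A A] [SMulCommClass ℂ A A]
  {coef : A →ₗ[ℂ] (ℕ → ℂ)} {e : ℕ → A}

theorem fideal_mul (he : IsE w A coef e) (n : ℕ) (a : A) :
    HasSum (fun i => coef a i • e (n + 1 + i)) (e n * a) := by
  have hc : Continuous fun z : A => e n * z := continuous_const.mul continuous_id
  have h1 := he.exp a
  have h2 : HasSum (fun i => e n * (coef a i • e i)) (e n * a) := by
    have := h1.map (AddMonoidHom.mulLeft (e n)) hc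
    exact this
  have h3 : (fun i => e n * (coef a i • e i)) = fun i => coef a i • e (n + 1 + i) := by
    funext i
    rw [mul_smul_comm, he.mule]
    congr 2
    omega
  rwa [h3] at h2

/-- the ratio -/
noncomputable def fideal_r (w : ℕ → ℝ) (k n : ℕ) : ℝ := w (n + k + 3) / (w (n + k + 2) * w (k + 2))

theorem fideal_r_lim (hw : IsWt w) (k : ℕ) : Tendsto (fideal_r w k) atTop (𝓝 0) := by
  have h1 : Tendsto (fun n => w ((n + (k + 2)) + 1) / w (n + (k + 2))) atTop (𝓝 0) :=
    hw.lim.comp (tendsto_add_atTop_nat (k + 2))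
  have h2 := h1.div_const (w (k + 2))
  rw [zero_div] at h2
  refine h2.congr fun n => ?_
  unfold fideal_r
  have e1 : n + (k + 2) + 1 = n + k + 3 := by omega
  have e2 : n + (k + 2) = n + k + 2 := by omega
  rw [e1, e2, div_div]

theorem fideal_w (hFW : S_FW) (hw : IsWt w) (k n i : ℕ) (hi : k < i) :
    w (n + 2 + i) ≤ w (n + k + 2) * fideal_r w k n * w (i + 1) := by
  obtain ⟨-, h, -⟩ := hFW w hw
  have h1 := h (n + 1) (k + 2) (i + 1) (by omega)
  have e1 : n + 1 + (i + 1) = n + 2 + i := by omega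
  have e2 : n + 1 + (k + 2) = n + k + 3 := by omega
  rw [e1, e2] at h1
  unfold fideal_r
  have p1 := hw.pos (n + k + 2)
  have p2 := hw.pos (k + 2)
  have e3 : w (n + k + 2) * (w (n + k + 3) / (w (n + k + 2) * w (k + 2))) * w (i + 1) =
      w (n + k + 3) * w (i + 1) / w (k + 2) := by
    field_simp
  rw [e3, le_div_iff₀ p2]
  exact h1

/-- main estimate -/
theorem fideal_main (hFW : S_FW) (hw : IsWt w) (hA : IsWL1 w A coef) (he : IsE w A coef e)
    (f : A →L[ℂ] ℂ) (a : A) (k : ℕ) (hk : coef a k = 1) (hlow : ∀ i < k, coef a i = 0) (n : ℕ)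
    (hf : f (e n * a) = 0) (s : ℝ) (hs0 : 0 ≤ s)
    (hs : ∀ i, k < i → ‖f (e (n + 1 + i))‖ ≤ s * w (n + 2 + i)) :
    ‖f (e (n + k + 1))‖ ≤ s * (w (n + k + 2) * (fideal_r w k n * ‖a‖)) := by
  have h1 : HasSum (fun i => coef a i * f (e (n + 1 + i))) 0 := by
    have h2 := (fideal_mul he n a).mapL f
    rw [hf] at h2
    simpa only [map_smul, smul_eq_mul] using h2
  -- split off the term k
  have h3 : HasSum (fun i => if i = k then 0 else coef a i * f (e (n + 1 + i)))
      (0 - coef a k * f (e (n + 1 + k))) := by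
    have h4 : HasSum (fun i => if i = k then coef a k * f (e (n + 1 + k)) else 0)
        (coef a k * f (e (n + 1 + k))) := hasSum_ite_eq k _
    have h5 := h1.sub h4
    have h6 : (fun i => coef a i * f (e (n + 1 + i)) -
        if i = k then coef a k * f (e (n + 1 + k)) else 0) =
        fun i => if i = k then 0 else coef a i * f (e (n + 1 + i)) := by
      funext i
      by_cases hi : i = k
      · subst hi; simp
      · simp [hi]
    rwa [h6] at h5
  have hb : ∀ i, ‖(if i = k then 0 else coef a i * f (e (n + 1 + i)))‖ ≤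
      s * (w (n + k + 2) * fideal_r w k n) * (‖coef a i‖ * w (i + 1)) := by
    intro i
    have p1 := hw.pos (n + k + 2)
    have p2 := hw.pos (i + 1)
    have p3 : 0 ≤ fideal_r w k n := by
      unfold fideal_r
      have q1 := hw.pos (n + k + 3)
      have q2 := hw.pos (k + 2)
      positivity
    rcases lt_trichotomy i k with h | h | h
    · rw [if_neg h.ne, hlow i h]
      simp
    · rw [if_pos h, norm_zero]
      positivity
    · rw [if_neg h.ne', norm_mul]
      calc ‖coef a i‖ * ‖f (e (n + 1 + i))‖ ≤ ‖coef a i‖ * (s * w (n + 2 + i)) := by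
            gcongr; exact hs i h
        _ ≤ ‖coef a i‖ * (s * (w (n + k + 2) * fideal_r w k n * w (i + 1))) := by
            gcongr; exact fideal_w hFW hw k n i h
        _ = _ := by ring
  have h6 : HasSum (fun i => s * (w (n + k + 2) * fideal_r w k n) * (‖coef a i‖ * w (i + 1)))
      (s * (w (n + k + 2) * fideal_r w k n) * ‖a‖) := (hA.norm a).mul_left _
  have h7 := h3.norm_le_of_bounded h6 hb
  rw [hk, one_mul, zero_sub, norm_neg] at h7
  have e1 : n + 1 + k = n + k + 1 := by omega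
  rw [e1] at h7
  calc ‖f (e (n + k + 1))‖ ≤ _ := h7
    _ = _ := by ring

end

theorem tFIdeal (hFW : S_FW) : S_FIdeal.{u} := by
  intro w hw A _ _ _ _ coef e hA he I hI hid a haI ha
  -- the least coefficient
  have hex : ∃ k, coef a k ≠ 0 := by
    by_contra h
    push Not at h
    have h1 := hA.norm a
    have h2 : (fun n => ‖coef a n‖ * w (n + 1)) = fun _ => 0 := by
      funext n
      rw [h n]
      simp
    rw [h2] at h1
    exact ha (norm_eq_zero.mp (h1.unique hasSum_zero))
  classical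
  obtain ⟨k, hk, hmin⟩ : ∃ k, coef a k ≠ 0 ∧ ∀ i < k, coef a i = 0 := by
    refine ⟨Nat.find hex, Nat.find_spec hex, fun i hi => ?_⟩
    have := Nat.find_min hex hi
    push Not at this
    exact this
  set b : A := (coef a k)⁻¹ • a with hb
  have hbI : b ∈ I := I.smul_mem _ haI
  have hbk : coef b k = 1 := by
    rw [hb, map_smul, Pi.smul_apply, smul_eq_mul, inv_mul_cancel₀ hk]
  have hblow : ∀ i < k, coef b i = 0 := by
    intro i hi
    rw [hb, map_smul, Pi.smul_apply, hmin i hi, smul_zero]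
  -- choice of n₀
  have hlim : Tendsto (fun n => fideal_r w k n * ‖b‖) atTop (𝓝 0) := by
    have := (fideal_r_lim hw k).mul_const ‖b‖
    rwa [zero_mul] at this
  obtain ⟨n₀, hn₀⟩ := eventually_atTop.mp (hlim.eventually (ge_mem_nhds (show (0 : ℝ) < 1 / 2 by norm_num)))
  refine ⟨n₀ + k + 1, ?_⟩
  by_contra hnot
  obtain ⟨f, hf0, hf1⟩ := fideal_hb I hI _ hnot
  have hfn : ∀ n, f (e n * b) = 0 := fun n => hf0 _ (hid _ _ hbI)
  -- the set of admissible constants
  have hstep : ∀ s : ℝ, 0 ≤ s → (∀ n, n₀ ≤ n → ‖f (e (n + k + 1))‖ ≤ s * w (n + k + 2)) →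
      ∀ n, n₀ ≤ n → ‖f (e (n + k + 1))‖ ≤ (s / 2) * w (n + k + 2) := by
    intro s hs h n hn
    have h1 := fideal_main hFW hw hA he f b k hbk hblow n (hfn n) s hs (fun i hi => by
      obtain ⟨j, rfl⟩ := Nat.exists_eq_add_of_lt hi
      have h2 := h (n + j + 1) (by omega)
      have e1 : n + j + 1 + k + 1 = n + 1 + (k + j + 1) := by omega
      have e2 : n + j + 1 + k + 2 = n + 2 + (k + j + 1) := by omega
      rwa [e1, e2] at h2)
    have h3 := hn₀ n hn
    have p := hw.pos (n + k + 2)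
    calc ‖f (e (n + k + 1))‖ ≤ s * (w (n + k + 2) * (fideal_r w k n * ‖b‖)) := h1
      _ ≤ s * (w (n + k + 2) * (1 / 2)) := by gcongr
      _ = _ := by ring
  have hbase : ∀ n, n₀ ≤ n → ‖f (e (n + k + 1))‖ ≤ ‖f‖ * w (n + k + 2) := by
    intro n _
    have := f.le_opNorm (e (n + k + 1))
    rwa [he.norme] at this
  have hall : ∀ m : ℕ, ∀ n, n₀ ≤ n → ‖f (e (n + k + 1))‖ ≤ (‖f‖ / 2 ^ m) * w (n + k + 2) := by
    intro m
    induction m with
    | zero => simpa using hbase
    | succ m ih =>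
      have h1 := hstep (‖f‖ / 2 ^ m) (by positivity) ih
      intro n hn
      have h2 := h1 n hn
      rwa [div_div, ← pow_succ] at h2
  apply hf1
  rw [← norm_eq_zero]
  apply le_antisymm _ (norm_nonneg _)
  have hl : Tendsto (fun m : ℕ => (‖f‖ / 2 ^ m) * w (n₀ + k + 2)) atTop (𝓝 0) := by
    have h1 : Tendsto (fun m : ℕ => (1 / 2 : ℝ) ^ m) atTop (𝓝 0) :=
      tendsto_pow_atTop_nhds_zero_of_lt_one (by norm_num) (by norm_num)
    have h2 := (h1.const_mul ‖f‖).mul_const (w (n₀ + k + 2))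
    rw [mul_zero, zero_mul] at h2
    refine h2.congr fun m => ?_
    rw [one_div, inv_pow, div_eq_mul_inv]
  exact ge_of_tendsto' hl fun m => hall m n₀ le_rfl

end Pool.Agent.MPf50f2a
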