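import Pool.Agent.Lib.MP_f50f2a_an.Spec2

/-!
# MP_f50f2a_an, FRad
-/

set_option autoImplicit false

namespace Pool.Agent.MPf50f2a

open Finset Filter Topology

universe u

theorem tFRad (hFW : S_FW) (hFB : S_FB.{u}) (hChNorm : S_ChNorm.{u}) (hChRad : S_ChRad.{u}) :
    S_FRad.{u} := by
  intro w hw A _ _ _ _ _ coef hA
  obtain ⟨-, e, he⟩ := hFB w hw A coef hA
  obtain ⟨-, -, hW⟩ := hFW w hw
  apply hChRad A
  intro χ a
  have hcont : Continuous χ := by
    have : Continuous (χ : A →ₗ[ℂ] ℂ) :=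
      AddMonoidHomClass.continuous_of_bound (χ : A →ₗ[ℂ] ℂ) 1 (fun x => by
        rw [one_mul]
        exact hChNorm A χ x)
    exact this
  have hpow : ∀ n, χ (e n) = χ (e 0) ^ (n + 1) := by
    intro n
    induction n with
    | zero => simp
    | succ n ih =>
      have h1 := he.mule 0 n
      rw [zero_add] at h1
      rw [← h1, map_mul, ih, pow_succ' _ (n + 1)]
  have h0 : χ (e 0) = 0 := by
    by_contra hne
    have hpos : 0 < ‖χ (e 0)‖ := norm_pos_iff.mpr hne
    obtain ⟨C, hC⟩ := hW (‖χ (e 0)‖ / 2) (by positivity)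
    have hb : ∀ n : ℕ, (2 : ℝ) ^ (n + 1) ≤ C := by
      intro n
      have h1 := hChNorm A χ (e n)
      rw [hpow, norm_pow, he.norme] at h1
      have h2 := hC (n + 1)
      rw [div_pow, mul_div_assoc'] at h2
      have h3 : ‖χ (e 0)‖ ^ (n + 1) ≤ C * ‖χ (e 0)‖ ^ (n + 1) / 2 ^ (n + 1) := h1.trans h2
      rw [le_div_iff₀ (by positivity)] at h3
      have h4 : 0 < ‖χ (e 0)‖ ^ (n + 1) := by positivity
      have h5 : ‖χ (e 0)‖ ^ (n + 1) * 2 ^ (n + 1) ≤ ‖χ (e 0)‖ ^ (n + 1) * C := by linarith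
      exact le_of_mul_le_mul_left h5 h4
    obtain ⟨n, hn⟩ := pow_unbounded_of_one_lt C (by norm_num : (1 : ℝ) < 2)
    have h6 := hb n
    have h7 : (2 : ℝ) ^ n ≤ 2 ^ (n + 1) := pow_le_pow_right₀ (by norm_num) (Nat.le_succ n)
    linarith
  have h1 : HasSum (fun n => χ (coef a n • e n)) (χ a) := (he.exp a).map χ hcont
  have h2 : (fun n => χ (coef a n • e n)) = fun _ => 0 := by
    funext n
    rw [map_smul, hpow, h0, zero_pow (Nat.succ_ne_zero n), smul_zero]
  rw [h2] at h1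
  exact h1.unique hasSum_zero

end Pool.Agent.MPf50f2a
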