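import Pool.Agent.Lib.MP_f50f2a_an.Spec2

/-!
# MP_f50f2a_an: weight inequalities for log-concave weights
-/

set_option autoImplicit false

namespace Pool.Agent.MPf50f2a

open Finset Filter Topology

universe u

theorem fw_anti {w : ℕ → ℝ} (hw : IsWt w) : Antitone fun n => w (n + 1) / w n := by
  refine antitone_nat_of_succ_le fun n => ?_
  rw [div_le_div_iff₀ (hw.pos _) (hw.pos _)]
  have h := hw.lc n
  have h2 : w (n + 1 + 1) = w (n + 2) := rfl
  rw [h2]
  linarith [mul_comm (w n) (w (n + 2)), sq (w (n + 1))]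

theorem fw_succ {w : ℕ → ℝ} (hw : IsWt w) (n : ℕ) : w (n + 1) = w (n + 1) / w n * w n := by
  rw [div_mul_cancel₀ _ (hw.pos n).ne']

theorem fw_two {w : ℕ → ℝ} (hw : IsWt w) (n i i' : ℕ) (h : i ≤ i') :
    w (n + i') * w i ≤ w (n + i) * w i' := by
  induction n with
  | zero => rw [Nat.zero_add, Nat.zero_add, mul_comm]
  | succ n ih =>
    have h1 : w (n + i' + 1) / w (n + i') ≤ w (n + i + 1) / w (n + i) :=
      fw_anti hw (Nat.add_le_add_left h n)
    have e1 : n + 1 + i' = n + i' + 1 := by omega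
    have e2 : n + 1 + i = n + i + 1 := by omega
    rw [e1, e2, fw_succ hw (n + i'), fw_succ hw (n + i), mul_assoc, mul_assoc]
    exact mul_le_mul h1 ih (mul_pos (hw.pos _) (hw.pos _)).le
      (div_pos (hw.pos _) (hw.pos _)).le

theorem tFW : S_FW := by
  intro w hw
  refine ⟨fun i j => ?_, fw_two hw, fun r hr => ?_⟩
  · have h := fw_two hw i 0 j (Nat.zero_le j)
    rwa [hw.zero, mul_one, Nat.add_zero] at h
  · have h1 : ∀ᶠ n in atTop, w (n + 1) / w n < r := hw.lim.eventually_lt_const hr
    obtain ⟨n₀, h2⟩ := eventually_atTop.1 h1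
    refine ⟨∑ n ∈ range (n₀ + 1), w n / r ^ n, fun n => ?_⟩
    have h3 : ∀ n, n ≤ n₀ → w n ≤ (∑ n ∈ range (n₀ + 1), w n / r ^ n) * r ^ n := by
      intro n hn
      rw [← div_le_iff₀ (pow_pos hr n)]
      exact single_le_sum (f := fun n => w n / r ^ n)
        (fun i _ => (div_pos (hw.pos i) (pow_pos hr i)).le) (mem_range.2 (by omega))
    rcases le_total n n₀ with h | h
    · exact h3 n h
    · induction n, h using Nat.le_induction with
      | base => exact h3 n₀ le_rfl
      | succ n hn ih =>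
        rw [fw_succ hw n, pow_succ, ← mul_assoc, mul_comm]
        exact mul_le_mul ih (h2 n hn).le (div_pos (hw.pos _) (hw.pos _)).le
          ((hw.pos n).le.trans ih)

end Pool.Agent.MPf50f2a
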