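import Pool.Agent.Lib.MP_f50f2a_an.Spec

/-!
# MP_f50f2a_an, JJ: choice of `J`
-/

set_option autoImplicit false

namespace Pool.Agent.MPf50f2a

universe u

/-- choice of `J` -/
theorem t_JJ : S_JJ.{u} := by
  intro U _ _ c hc ε hε
  obtain ⟨C, hC⟩ := hc (ε / 4) (by positivity)
  obtain ⟨n, hn⟩ := exists_pow_lt_of_lt_one (show (0 : ℝ) < 1 / (2 * (|C| + 1)) by positivity)
    (show (1 / 2 : ℝ) < 1 by norm_num)
  refine ⟨n, fun k hk => ?_⟩
  have h1 : (2 : ℝ) ^ k * ‖c ^ k‖ ≤ |C| * (1 / 2) ^ k * ε ^ k := by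
    calc (2 : ℝ) ^ k * ‖c ^ k‖ ≤ 2 ^ k * (|C| * (ε / 4) ^ k) := by
          gcongr
          exact (hC k).trans (by gcongr; exact le_abs_self C)
      _ = |C| * (1 / 2) ^ k * ε ^ k := by
          have : (2 : ℝ) ^ k * (ε / 4) ^ k = (1 / 2) ^ k * ε ^ k := by
            rw [← mul_pow, ← mul_pow]
            congr 1
            ring
          calc (2 : ℝ) ^ k * (|C| * (ε / 4) ^ k) = |C| * ((2 : ℝ) ^ k * (ε / 4) ^ k) := by ring
            _ = _ := by rw [this]; ring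
  have h2 : (1 / 2 : ℝ) ^ k ≤ 1 / (2 * (|C| + 1)) :=
    (pow_le_pow_of_le_one (by norm_num) (by norm_num) hk.le).trans hn.le
  have h3 : |C| * (1 / 2 : ℝ) ^ k ≤ 1 / 2 := by
    calc |C| * (1 / 2 : ℝ) ^ k ≤ (|C| + 1) * (1 / (2 * (|C| + 1))) := by
          gcongr
          linarith
      _ = 1 / 2 := by
          field_simp
  calc (2 : ℝ) ^ k * ‖c ^ k‖ ≤ |C| * (1 / 2) ^ k * ε ^ k := h1
    _ ≤ 1 / 2 * ε ^ k := by gcongr
    _ = ε ^ k / 2 := by ring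

end Pool.Agent.MPf50f2a
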