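import Pool.Agent.Lib.MP_f50f2a_an.Spec

/-!
# MP_f50f2a_an, Lin: linearity of `DD` in the last argument
-/

set_option autoImplicit false

namespace Pool.Agent.MPf50f2a

open Finset

universe u

/-- linearity of `DD` -/
theorem t_Lin : S_Lin.{u} := by
  intro U _ _ b c T f k κ N s r a
  induction N with
  | zero => intro Φ; rfl
  | succ N ih =>
    intro Φ
    have h : Wop (b N) (c N) (T N) (k N) (κ N) (fun g => ∑ i ∈ s, r i • act (a i) (Φ i g)) =
        fun g => ∑ i ∈ s, r i • act (a i) (Wop (b N) (c N) (T N) (k N) (κ N) (Φ i) g) := by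
      funext g
      simp only [Wop]
      simp only [act_sum_right, act_smul_right, Finset.smul_sum]
      rw [Finset.sum_comm]
      refine Finset.sum_congr rfl fun i _ => Finset.sum_congr rfl fun m _ => ?_
      rw [act_comm, smul_comm]
    change DD b c T f k κ N _ = ∑ i ∈ s, r i • act (a i) (DD b c T f k κ N _)
    rw [h]
    exact ih _

end Pool.Agent.MPf50f2a
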