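import Pool.Agent.Lib.MP_f50f2a_an.Spec

/-!
# MP_f50f2a_an, MZ: a bound for a truncated binomial sum
-/

set_option autoImplicit false

namespace Pool.Agent.MPf50f2a

open Finset

universe u

/-- a bound for a truncated binomial sum -/
theorem t_MZ : S_MZ.{u} := by
  intro U _ _ b c hc ε hε J
  obtain ⟨C, hC⟩ := hc (ε / 4) (by positivity)
  set B : ℝ := ∑ i ∈ range (J + 1), ‖b ^ i‖ with hB
  have hB0 : 0 ≤ B := Finset.sum_nonneg fun i _ => norm_nonneg _
  set D : ℝ := |C| * (1 + 4 / ε) ^ J * B with hD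
  have hD0 : 0 ≤ D := by positivity
  have hterm : ∀ k i : ℕ, i ≤ k → i ≤ J →
      (k.choose i : ℝ) * ‖(-c) ^ (k - i) * b ^ i‖ ≤ D * ε ^ k := by
    intro k i hik hiJ
    have h1 : (k.choose i : ℝ) ≤ 2 ^ k := by
      have : k.choose i ≤ 2 ^ k := by
        rw [← Nat.sum_range_choose]
        exact Finset.single_le_sum (f := fun m => k.choose m) (fun m _ => Nat.zero_le _)
          (Finset.mem_range.2 (by omega))
      exact_mod_cast this
    have h2 : ‖b ^ i‖ ≤ B :=
      Finset.single_le_sum (f := fun i => ‖b ^ i‖) (fun m _ => norm_nonneg _)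
        (Finset.mem_range.2 (by omega))
    have h3 : ‖(-c) ^ (k - i)‖ ≤ |C| * ((ε / 4) ^ k * (1 + 4 / ε) ^ J) := by
      have h4 : ‖(-c) ^ (k - i)‖ = ‖c ^ (k - i)‖ := by
        rcases Nat.even_or_odd (k - i) with h | h
        · rw [h.neg_pow]
        · rw [h.neg_pow, norm_neg]
      rw [h4]
      refine (hC (k - i)).trans ?_
      have h5 : (ε / 4) ^ (k - i) = (ε / 4) ^ k * (4 / ε) ^ i := by
        have h6 : (ε / 4) ^ k = (ε / 4) ^ (k - i) * (ε / 4) ^ i := by
          rw [← pow_add, Nat.sub_add_cancel hik]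
        rw [h6, mul_assoc, ← mul_pow]
        have h7 : ε / 4 * (4 / ε) = 1 := by field_simp
        rw [h7, one_pow, mul_one]
      rw [h5]
      have h8 : (4 / ε) ^ i ≤ (1 + 4 / ε) ^ J := by
        have h9 : 0 < 4 / ε := by positivity
        calc (4 / ε) ^ i ≤ (1 + 4 / ε) ^ i := by gcongr; linarith
          _ ≤ (1 + 4 / ε) ^ J := pow_le_pow_right₀ (by linarith) hiJ
      have h10 : 0 ≤ (ε / 4) ^ k * (4 / ε) ^ i := by positivity
      calc C * ((ε / 4) ^ k * (4 / ε) ^ i) ≤ |C| * ((ε / 4) ^ k * (4 / ε) ^ i) := by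
            gcongr
            exact le_abs_self C
        _ ≤ _ := by gcongr
    have h11 : (2 : ℝ) ^ k * (ε / 4) ^ k ≤ ε ^ k := by
      rw [← mul_pow]
      gcongr
      linarith
    calc (k.choose i : ℝ) * ‖(-c) ^ (k - i) * b ^ i‖
        ≤ 2 ^ k * (‖(-c) ^ (k - i)‖ * ‖b ^ i‖) := by
          gcongr
          exact norm_mul_le _ _
      _ ≤ 2 ^ k * (|C| * ((ε / 4) ^ k * (1 + 4 / ε) ^ J) * B) := by gcongr
      _ = (2 ^ k * (ε / 4) ^ k) * D := by rw [hD]; ring
      _ ≤ ε ^ k * D := by gcongr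
      _ = D * ε ^ k := mul_comm _ _
  refine ⟨max 1 ((J + 1) * D), le_max_left _ _, fun k => ?_⟩
  calc ∑ i ∈ (range (k + 1)).filter (fun i => i ≤ J),
        (k.choose i : ℝ) * ‖(-c) ^ (k - i) * b ^ i‖
      ≤ ∑ i ∈ (range (k + 1)).filter (fun i => i ≤ J), D * ε ^ k := by
        refine Finset.sum_le_sum fun i hi => ?_
        rw [Finset.mem_filter, Finset.mem_range] at hi
        exact hterm k i (by omega) hi.2
    _ = (((range (k + 1)).filter (fun i => i ≤ J)).card : ℝ) * (D * ε ^ k) := by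
        rw [Finset.sum_const, nsmul_eq_mul]
    _ ≤ ((J + 1 : ℕ) : ℝ) * (D * ε ^ k) := by
        have h12 : ((range (k + 1)).filter (fun i => i ≤ J)).card ≤ J + 1 := by
          calc _ ≤ (range (J + 1)).card := by
                apply Finset.card_le_card
                intro i hi
                rw [Finset.mem_filter] at hi
                exact Finset.mem_range.2 (by omega)
            _ = J + 1 := Finset.card_range _
        gcongr
    _ = ((J + 1) * D) * ε ^ k := by push_cast; ring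
    _ ≤ max 1 ((J + 1) * D) * ε ^ k := by
        gcongr
        exact le_max_right _ _

end Pool.Agent.MPf50f2a
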