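import Pool.Agent.Lib.MP_f50f2a_an.Spec

/-!
# MP_f50f2a_an, QNA: elements of radical algebras are quasi-nilpotent
-/

set_option autoImplicit false

namespace Pool.Agent.MPf50f2a

open Filter Topology

universe u

/-- elements of radical algebras are quasi-nilpotent -/
theorem t_QNA : S_QNA.{u} := by
  intro A _ _ _ _ U _ _ _ _ j hA a
  -- the spectrum
  have hsp : ∀ l ∈ spectrum ℂ (j a), l = 0 := by
    intro l hl
    by_contra hl0
    obtain ⟨b, hb⟩ := hA (-(l⁻¹) • a)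
    have h1 := congrArg j hb
    rw [map_add, map_add, map_mul, map_smul, map_zero] at h1
    have h2 : (algebraMap ℂ U l - j a) * (algebraMap ℂ U l⁻¹ * (1 + j b)) = 1 := by
      have h3 : (algebraMap ℂ U l - j a) * algebraMap ℂ U l⁻¹ = 1 + -(l⁻¹) • j a := by
        rw [sub_mul, ← map_mul, mul_inv_cancel₀ hl0, map_one, neg_smul, Algebra.smul_def,
          mul_comm (algebraMap ℂ U l⁻¹)]
        ring
      rw [← mul_assoc, h3]
      linear_combination h1
    exact hl (IsUnit.of_mul_eq_one _ h2)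
  have hrad : spectralRadius ℂ (j a) = 0 := by
    unfold spectralRadius
    refine le_antisymm (iSup₂_le fun l hl => ?_) zero_le
    rw [hsp l hl]
    simp
  intro r hr
  have ht := spectrum.pow_norm_pow_one_div_tendsto_nhds_spectralRadius (j a)
  rw [hrad] at ht
  have hev : ∀ᶠ n : ℕ in atTop, ENNReal.ofReal (‖j a ^ n‖ ^ (1 / n : ℝ)) < ENNReal.ofReal r :=
    ht.eventually (gt_mem_nhds (ENNReal.ofReal_pos.2 hr))
  obtain ⟨k₀, hk₀⟩ := (hev.and (eventually_ge_atTop 1)).exists_forall_of_atTop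
  have hbig : ∀ k, k₀ ≤ k → ‖j a ^ k‖ ≤ r ^ k := by
    intro k hk
    obtain ⟨h1, h2⟩ := hk₀ k hk
    have h3 : ‖j a ^ k‖ ^ (1 / k : ℝ) < r := (ENNReal.ofReal_lt_ofReal_iff hr).1 h1
    have h4 : (‖j a ^ k‖ ^ (1 / k : ℝ)) ^ k = ‖j a ^ k‖ := by
      rw [one_div]
      exact Real.rpow_inv_natCast_pow (norm_nonneg _) (by omega)
    rw [← h4]
    gcongr
  refine ⟨1 + ∑ k ∈ Finset.range k₀, ‖j a ^ k‖ / r ^ k, fun k => ?_⟩
  have hsum : 0 ≤ ∑ k ∈ Finset.range k₀, ‖j a ^ k‖ / r ^ k :=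
    Finset.sum_nonneg fun i _ => by positivity
  have hrk : 0 < r ^ k := pow_pos hr k
  rcases Nat.lt_or_ge k k₀ with hk | hk
  · have h1 : ‖j a ^ k‖ / r ^ k ≤ ∑ k ∈ Finset.range k₀, ‖j a ^ k‖ / r ^ k :=
      Finset.single_le_sum (f := fun k => ‖j a ^ k‖ / r ^ k) (fun i _ => by positivity)
        (Finset.mem_range.2 hk)
    calc ‖j a ^ k‖ = ‖j a ^ k‖ / r ^ k * r ^ k := (div_mul_cancel₀ _ hrk.ne').symm
      _ ≤ (1 + ∑ k ∈ Finset.range k₀, ‖j a ^ k‖ / r ^ k) * r ^ k := by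
        gcongr
        linarith
  · calc ‖j a ^ k‖ ≤ 1 * r ^ k := by rw [one_mul]; exact hbig k hk
      _ ≤ (1 + ∑ k ∈ Finset.range k₀, ‖j a ^ k‖ / r ^ k) * r ^ k := by
        gcongr
        linarith

end Pool.Agent.MPf50f2a
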