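import Pool.Agent.Lib.MP_f50f2a_an.Spec

/-!
# MP_f50f2a_an, RadCh: radical algebras have no characters
-/

set_option autoImplicit false

namespace Pool.Agent.MPf50f2a

universe u

/-- radical algebras have no characters -/
theorem t_RadCh : S_RadCh.{u} := by
  intro A _ _ _ _ hA χ a
  by_contra h
  obtain ⟨b, hb⟩ := hA (-(χ a)⁻¹ • a)
  have h1 := congrArg χ hb
  rw [map_add, map_add, map_mul, map_smul, map_zero, smul_eq_mul, neg_mul,
    inv_mul_cancel₀ h] at h1
  have h2 : (-1 : ℂ) = 0 := by linear_combination h1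
  norm_num at h2

end Pool.Agent.MPf50f2a
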