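import Pool.Agent.Lib.MP_f50f2a_an.Spec

/-!
# MP_f50f2a_an, Semi: the algebra seminorm on the polynomial ring
-/

set_option autoImplicit false

namespace Pool.Agent.MPf50f2a

open Finset Filter Topology

universe u

theorem semi_lim (x t y : ℝ) (h : ∀ s, t < s → x ≤ s * y) : x ≤ t * y := by
  refine le_of_forall_pos_le_add (fun e he => ?_)
  have h1 : 0 < |y| + 1 := by positivity
  have h2 := h (t + e / (|y| + 1)) (by linarith [div_pos he h1])
  have h3 : e / (|y| + 1) * y ≤ e := by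
    have h4 : y ≤ |y| + 1 := by linarith [le_abs_self y]
    calc e / (|y| + 1) * y ≤ e / (|y| + 1) * (|y| + 1) := by gcongr
      _ = e := div_mul_cancel₀ e h1.ne'
  calc x ≤ (t + e / (|y| + 1)) * y := h2
    _ = t * y + e / (|y| + 1) * y := by ring
    _ ≤ t * y + e := by linarith

theorem semi_prodW (W : ℕ → ℕ → ℝ) (hW0 : ∀ n, W n 0 = 1) (hW : ∀ n j, 0 < W n j)
    (hWm : ∀ n i j, W n (i + j) ≤ W n i * W n j) (κ κ' : ℕ →₀ ℕ) :
    (κ + κ').prod W ≤ κ.prod W * κ'.prod W := by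
  classical
  have h1 : (κ + κ').prod W = ∏ n ∈ κ.support ∪ κ'.support, W n (κ n + κ' n) := by
    rw [Finsupp.prod_of_support_subset (κ + κ') Finsupp.support_add W (fun n _ => hW0 n)]
    rfl
  have h2 : κ.prod W = ∏ n ∈ κ.support ∪ κ'.support, W n (κ n) :=
    Finsupp.prod_of_support_subset κ Finset.subset_union_left W (fun n _ => hW0 n)
  have h3 : κ'.prod W = ∏ n ∈ κ.support ∪ κ'.support, W n (κ' n) :=
    Finsupp.prod_of_support_subset κ' Finset.subset_union_right W (fun n _ => hW0 n)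
  rw [h1, h2, h3, ← Finset.prod_mul_distrib]
  exact Finset.prod_le_prod (fun n _ => (hW n _).le) (fun n _ => hWm n _ _)

section

open MvPolynomial

variable {U : Type u} [NormedCommRing U] [NormedAlgebra ℂ U]

/-- The atoms. -/
noncomputable def semiAt (b c : ℕ → U) (κ k : ℕ →₀ ℕ) (a : U) : MvPolynomial ℕ U :=
  monomial κ a * k.prod (fun n e => (C (b n) * X n - C (c n)) ^ e)

/-- The weights of the atoms. -/
noncomputable def semiWt (ε : ℕ → ℝ) (W : ℕ → ℕ → ℝ) (κ k : ℕ →₀ ℕ) (a : U) : ℝ :=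
  ‖a‖ * κ.prod W * k.prod (fun n e => ε n ^ e)

omit [NormedAlgebra ℂ U] in
theorem semiAt_mul (b c : ℕ → U) (κ k κ' k' : ℕ →₀ ℕ) (a a' : U) :
    semiAt b c κ k a * semiAt b c κ' k' a' = semiAt b c (κ + κ') (k + k') (a * a') := by
  unfold semiAt
  have h1 : (k + k').prod (fun n e => (C (b n) * X n - C (c n) : MvPolynomial ℕ U) ^ e) =
      k.prod (fun n e => (C (b n) * X n - C (c n) : MvPolynomial ℕ U) ^ e) *
        k'.prod (fun n e => (C (b n) * X n - C (c n) : MvPolynomial ℕ U) ^ e) :=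
    Finsupp.prod_add_index' (fun n => pow_zero _) (fun n i j => pow_add _ _ _)
  rw [h1, ← monomial_mul]
  ring

omit [NormedAlgebra ℂ U] in
theorem semiWt_nonneg (ε : ℕ → ℝ) (W : ℕ → ℕ → ℝ) (hε : ∀ n, 0 < ε n)
    (hW : ∀ n j, 0 < W n j) (κ k : ℕ →₀ ℕ) (a : U) : 0 ≤ semiWt ε W κ k a := by
  unfold semiWt
  have h1 : 0 ≤ κ.prod W := Finset.prod_nonneg (fun n _ => (hW n _).le)
  have h2 : 0 ≤ k.prod (fun n e => ε n ^ e) :=
    Finset.prod_nonneg (fun n _ => (pow_pos (hε n) _).le)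
  exact mul_nonneg (mul_nonneg (norm_nonneg _) h1) h2

omit [NormedAlgebra ℂ U] in
theorem semiWt_mul (ε : ℕ → ℝ) (W : ℕ → ℕ → ℝ) (hε : ∀ n, 0 < ε n) (hW0 : ∀ n, W n 0 = 1)
    (hW : ∀ n j, 0 < W n j) (hWm : ∀ n i j, W n (i + j) ≤ W n i * W n j)
    (κ k κ' k' : ℕ →₀ ℕ) (a a' : U) :
    semiWt ε W (κ + κ') (k + k') (a * a') ≤ semiWt ε W κ k a * semiWt ε W κ' k' a' := by
  unfold semiWt
  have h0 : (k + k').prod (fun n e => ε n ^ e) =
      k.prod (fun n e => ε n ^ e) * k'.prod (fun n e => ε n ^ e) :=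
    Finsupp.prod_add_index' (fun n => pow_zero _) (fun n i j => pow_add _ _ _)
  have h1 : 0 ≤ (κ + κ').prod W := Finset.prod_nonneg (fun n _ => (hW n _).le)
  have h2 : 0 ≤ k.prod (fun n e => ε n ^ e) :=
    Finset.prod_nonneg (fun n _ => (pow_pos (hε n) _).le)
  have h3 : 0 ≤ k'.prod (fun n e => ε n ^ e) :=
    Finset.prod_nonneg (fun n _ => (pow_pos (hε n) _).le)
  have h4 := semi_prodW W hW0 hW hWm κ κ'
  have h5 := norm_mul_le a a'
  rw [h0]
  calc ‖a * a'‖ * (κ + κ').prod W * (k.prod (fun n e => ε n ^ e) * k'.prod (fun n e => ε n ^ e))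
      ≤ (‖a‖ * ‖a'‖) * (κ.prod W * κ'.prod W) *
        (k.prod (fun n e => ε n ^ e) * k'.prod (fun n e => ε n ^ e)) := by
        apply mul_le_mul_of_nonneg_right _ (mul_nonneg h2 h3)
        exact mul_le_mul h5 h4 h1 (mul_nonneg (norm_nonneg _) (norm_nonneg _))
    _ = _ := by ring

/-- The set of the admissible functionals. -/
def semiF (b c : ℕ → U) (ε : ℕ → ℝ) (W : ℕ → ℕ → ℝ) : Set (MvPolynomial ℕ U →ₗ[ℂ] ℂ) :=
  {F | ∀ (a : U) (κ k : ℕ →₀ ℕ), ‖F (semiAt b c κ k a)‖ ≤ semiWt ε W κ k a}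

/-- The seminorm. -/
noncomputable def semiP (b c : ℕ → U) (ε : ℕ → ℝ) (W : ℕ → ℕ → ℝ) (x : MvPolynomial ℕ U) : ℝ :=
  ⨆ F : semiF b c ε W, ‖F.1 x‖

theorem semi_zero_mem (b c : ℕ → U) (ε : ℕ → ℝ) (W : ℕ → ℕ → ℝ) (hε : ∀ n, 0 < ε n)
    (hW : ∀ n j, 0 < W n j) : (0 : MvPolynomial ℕ U →ₗ[ℂ] ℂ) ∈ semiF b c ε W := by
  intro a κ k
  rw [LinearMap.zero_apply, norm_zero]
  exact semiWt_nonneg ε W hε hW κ k a

theorem semi_bdd (b c : ℕ → U) (ε : ℕ → ℝ) (W : ℕ → ℕ → ℝ) (x : MvPolynomial ℕ U) :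
    BddAbove (Set.range fun F : semiF b c ε W => ‖F.1 x‖) := by
  refine ⟨∑ κ ∈ x.support, semiWt ε W κ 0 (coeff κ x), ?_⟩
  rintro _ ⟨F, rfl⟩
  have h1 : F.1 x = ∑ κ ∈ x.support, F.1 (semiAt b c κ 0 (coeff κ x)) := by
    conv_lhs => rw [x.as_sum]
    rw [map_sum]
    refine Finset.sum_congr rfl (fun κ _ => ?_)
    unfold semiAt
    rw [Finsupp.prod_zero_index, mul_one]
  change ‖F.1 x‖ ≤ _
  rw [h1]
  exact (norm_sum_le _ _).trans (Finset.sum_le_sum (fun κ _ => F.2 _ _ _))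

theorem semi_le (b c : ℕ → U) (ε : ℕ → ℝ) (W : ℕ → ℕ → ℝ) {F : MvPolynomial ℕ U →ₗ[ℂ] ℂ}
    (hF : F ∈ semiF b c ε W) (x : MvPolynomial ℕ U) : ‖F x‖ ≤ semiP b c ε W x :=
  le_ciSup (semi_bdd b c ε W x) (⟨F, hF⟩ : semiF b c ε W)

theorem semi_ge (b c : ℕ → U) (ε : ℕ → ℝ) (W : ℕ → ℕ → ℝ) (hε : ∀ n, 0 < ε n)
    (hW : ∀ n j, 0 < W n j) (x : MvPolynomial ℕ U) (t : ℝ)
    (h : ∀ F ∈ semiF b c ε W, ‖F x‖ ≤ t) : semiP b c ε W x ≤ t := by
  have : Nonempty (semiF b c ε W) := ⟨⟨0, semi_zero_mem b c ε W hε hW⟩⟩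
  exact ciSup_le (fun F => h F.1 F.2)

theorem semi_nonneg (b c : ℕ → U) (ε : ℕ → ℝ) (W : ℕ → ℕ → ℝ) (hε : ∀ n, 0 < ε n)
    (hW : ∀ n j, 0 < W n j) (x : MvPolynomial ℕ U) : 0 ≤ semiP b c ε W x :=
  (norm_nonneg _).trans (semi_le b c ε W (semi_zero_mem b c ε W hε hW) x)

theorem semi_mul1 (b c : ℕ → U) (ε : ℕ → ℝ) (W : ℕ → ℕ → ℝ) (hε : ∀ n, 0 < ε n)
    (hW0 : ∀ n, W n 0 = 1) (hW : ∀ n j, 0 < W n j)
    (hWm : ∀ n i j, W n (i + j) ≤ W n i * W n j) {F : MvPolynomial ℕ U →ₗ[ℂ] ℂ}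
    (hF : F ∈ semiF b c ε W) (x : MvPolynomial ℕ U) (κ k : ℕ →₀ ℕ) (a : U) :
    ‖F (x * semiAt b c κ k a)‖ ≤ semiWt ε W κ k a * semiP b c ε W x := by
  refine semi_lim _ _ _ (fun s hs => ?_)
  have hs0 : 0 < s := (semiWt_nonneg ε W hε hW κ k a).trans_lt hs
  let G : MvPolynomial ℕ U →ₗ[ℂ] ℂ :=
    ((s⁻¹ : ℝ) : ℂ) • (F ∘ₗ LinearMap.mulRight ℂ (semiAt b c κ k a))
  have hGa : ∀ y, G y = ((s⁻¹ : ℝ) : ℂ) * F (y * semiAt b c κ k a) := fun y => rfl
  have hGn : ∀ y, ‖G y‖ = s⁻¹ * ‖F (y * semiAt b c κ k a)‖ := by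
    intro y
    rw [hGa, norm_mul, Complex.norm_real, Real.norm_of_nonneg (inv_nonneg.2 hs0.le)]
  have hG : G ∈ semiF b c ε W := by
    intro a' κ' k'
    rw [hGn, semiAt_mul]
    have h1 := hF (a' * a) (κ' + κ) (k' + k)
    have h2 := semiWt_mul ε W hε hW0 hW hWm κ' k' κ k a' a
    have h3 := semiWt_nonneg ε W hε hW κ' k' a'
    calc s⁻¹ * ‖F (semiAt b c (κ' + κ) (k' + k) (a' * a))‖
        ≤ s⁻¹ * (semiWt ε W κ' k' a' * s) := by
          apply mul_le_mul_of_nonneg_left _ (inv_nonneg.2 hs0.le)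
          exact (h1.trans h2).trans (mul_le_mul_of_nonneg_left hs.le h3)
      _ = semiWt ε W κ' k' a' := by
          rw [mul_comm (semiWt ε W κ' k' a') s, ← mul_assoc, inv_mul_cancel₀ hs0.ne', one_mul]
  have h4 := semi_le b c ε W hG x
  rw [hGn] at h4
  calc ‖F (x * semiAt b c κ k a)‖ = s * (s⁻¹ * ‖F (x * semiAt b c κ k a)‖) := by
        rw [← mul_assoc, mul_inv_cancel₀ hs0.ne', one_mul]
    _ ≤ s * semiP b c ε W x := mul_le_mul_of_nonneg_left h4 hs0.le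

theorem semi_mul2 (b c : ℕ → U) (ε : ℕ → ℝ) (W : ℕ → ℕ → ℝ) (hε : ∀ n, 0 < ε n)
    (hW0 : ∀ n, W n 0 = 1) (hW : ∀ n j, 0 < W n j)
    (hWm : ∀ n i j, W n (i + j) ≤ W n i * W n j) {F : MvPolynomial ℕ U →ₗ[ℂ] ℂ}
    (hF : F ∈ semiF b c ε W) (x y : MvPolynomial ℕ U) :
    ‖F (x * y)‖ ≤ semiP b c ε W x * semiP b c ε W y := by
  refine semi_lim _ _ _ (fun s hs => ?_)
  have hs0 : 0 < s := (semi_nonneg b c ε W hε hW x).trans_lt hs
  let G : MvPolynomial ℕ U →ₗ[ℂ] ℂ := ((s⁻¹ : ℝ) : ℂ) • (F ∘ₗ LinearMap.mulLeft ℂ x)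
  have hGa : ∀ y, G y = ((s⁻¹ : ℝ) : ℂ) * F (x * y) := fun y => rfl
  have hGn : ∀ y, ‖G y‖ = s⁻¹ * ‖F (x * y)‖ := by
    intro y
    rw [hGa, norm_mul, Complex.norm_real, Real.norm_of_nonneg (inv_nonneg.2 hs0.le)]
  have hG : G ∈ semiF b c ε W := by
    intro a' κ' k'
    rw [hGn]
    have h1 := semi_mul1 b c ε W hε hW0 hW hWm hF x κ' k' a'
    have h3 := semiWt_nonneg ε W hε hW κ' k' a'
    calc s⁻¹ * ‖F (x * semiAt b c κ' k' a')‖
        ≤ s⁻¹ * (semiWt ε W κ' k' a' * s) := by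
          apply mul_le_mul_of_nonneg_left _ (inv_nonneg.2 hs0.le)
          exact h1.trans (mul_le_mul_of_nonneg_left hs.le h3)
      _ = semiWt ε W κ' k' a' := by
          rw [mul_comm (semiWt ε W κ' k' a') s, ← mul_assoc, inv_mul_cancel₀ hs0.ne', one_mul]
  have h4 := semi_le b c ε W hG y
  rw [hGn] at h4
  calc ‖F (x * y)‖ = s * (s⁻¹ * ‖F (x * y)‖) := by
        rw [← mul_assoc, mul_inv_cancel₀ hs0.ne', one_mul]
    _ ≤ s * semiP b c ε W y := mul_le_mul_of_nonneg_left h4 hs0.le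

theorem semi_isAlgSem (b c : ℕ → U) (ε : ℕ → ℝ) (W : ℕ → ℕ → ℝ) (hε : ∀ n, 0 < ε n)
    (hW0 : ∀ n, W n 0 = 1) (hW : ∀ n j, 0 < W n j)
    (hWm : ∀ n i j, W n (i + j) ≤ W n i * W n j) :
    IsAlgSem (MvPolynomial ℕ U) (semiP b c ε W) := by
  have hz : semiP b c ε W 0 = 0 := by
    refine le_antisymm ?_ (semi_nonneg b c ε W hε hW 0)
    refine semi_ge b c ε W hε hW 0 0 (fun F _ => ?_)
    rw [map_zero, norm_zero]
  have hs : ∀ (r : ℂ) (x : MvPolynomial ℕ U),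
      semiP b c ε W (r • x) ≤ ‖r‖ * semiP b c ε W x := by
    intro r x
    refine semi_ge b c ε W hε hW _ _ (fun F hF => ?_)
    rw [map_smul, smul_eq_mul, norm_mul]
    exact mul_le_mul_of_nonneg_left (semi_le b c ε W hF x) (norm_nonneg r)
  have hn : ∀ x : MvPolynomial ℕ U, semiP b c ε W (-x) ≤ semiP b c ε W x := by
    intro x
    refine semi_ge b c ε W hε hW _ _ (fun F hF => ?_)
    rw [map_neg, norm_neg]
    exact semi_le b c ε W hF x
  refine ⟨semi_nonneg b c ε W hε hW, hz, ?_, ?_, ?_, ?_⟩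
  · intro x y
    refine semi_ge b c ε W hε hW _ _ (fun F hF => ?_)
    rw [map_add]
    exact (norm_add_le _ _).trans
      (add_le_add (semi_le b c ε W hF x) (semi_le b c ε W hF y))
  · intro x
    refine le_antisymm (hn x) ?_
    have := hn (-x)
    rwa [neg_neg] at this
  · intro r x
    refine le_antisymm (hs r x) ?_
    by_cases hr : r = 0
    · rw [hr, zero_smul, hz, norm_zero, zero_mul]
    · have h1 := hs r⁻¹ (r • x)
      rw [smul_smul, inv_mul_cancel₀ hr, one_smul, norm_inv] at h1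
      have hr' : 0 < ‖r‖ := norm_pos_iff.2 hr
      calc ‖r‖ * semiP b c ε W x ≤ ‖r‖ * (‖r‖⁻¹ * semiP b c ε W (r • x)) :=
            mul_le_mul_of_nonneg_left h1 hr'.le
        _ = semiP b c ε W (r • x) := by
            rw [← mul_assoc, mul_inv_cancel₀ hr'.ne', one_mul]
  · intro x y
    refine semi_ge b c ε W hε hW _ _ (fun F hF => ?_)
    exact semi_mul2 b c ε W hε hW0 hW hWm hF x y

end

open MvPolynomial in
theorem tSemi : S_Semi.{u} := by
  intro U _ _ _ b c ε W hε hW0 hW hWm hF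
  have hat : ∀ (κ k : ℕ →₀ ℕ) (a : U),
      semiP b c ε W (semiAt b c κ k a) ≤ semiWt ε W κ k a := by
    intro κ k a
    exact semi_ge b c ε W hε hW _ _ (fun F hF => hF a κ k)
  refine ⟨semiP b c ε W, semi_isAlgSem b c ε W hε hW0 hW hWm, ?_, ?_, ?_⟩
  · intro a
    refine le_antisymm ?_ ?_
    · have h1 := hat 0 0 a
      have h2 : semiAt b c 0 0 a = C a := by
        unfold semiAt
        rw [Finsupp.prod_zero_index, mul_one]
        rfl
      have h3 : semiWt ε W 0 0 a = ‖a‖ := by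
        unfold semiWt
        rw [Finsupp.prod_zero_index, Finsupp.prod_zero_index, mul_one, mul_one]
      rwa [h2, h3] at h1
    · obtain ⟨f, hf1, hf2⟩ := exists_dual_vector'' ℂ a
      obtain ⟨F, hFC, hFa⟩ := hF f hf1
      have h1 : F ∈ semiF b c ε W := fun a κ k => hFa a κ k
      have h2 := semi_le b c ε W h1 (C a)
      rw [hFC, hf2] at h2
      simpa using h2
  · intro n
    have h1 := hat 0 (Finsupp.single n 1) 1
    have h2 : semiAt b c 0 (Finsupp.single n 1) 1 = C (b n) * X n - C (c n) := by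
      unfold semiAt
      have h4 : (Finsupp.single n 1).prod
          (fun n e => (C (b n) * X n - C (c n) : MvPolynomial ℕ U) ^ e) =
          (C (b n) * X n - C (c n)) ^ 1 :=
        Finsupp.prod_single_index (h := fun n e => (C (b n) * X n - C (c n) : MvPolynomial ℕ U) ^ e)
          (pow_zero _)
      rw [h4, pow_one]
      exact one_mul _
    have h3 : semiWt ε W 0 (Finsupp.single n 1) (1 : U) = ε n := by
      unfold semiWt
      have h4 : (Finsupp.single n 1).prod (fun n e => ε n ^ e) = ε n ^ 1 :=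
        Finsupp.prod_single_index (h := fun n e => ε n ^ e) (pow_zero _)
      rw [h4, Finsupp.prod_zero_index, pow_one, norm_one, mul_one, one_mul]
    rwa [h2, h3] at h1
  · intro n j
    have h1 := hat (Finsupp.single n j) 0 1
    have h2 : semiAt b c (Finsupp.single n j) 0 1 = X n ^ j := by
      unfold semiAt
      rw [Finsupp.prod_zero_index, mul_one, X_pow_eq_monomial]
    have h3 : semiWt ε W (Finsupp.single n j) 0 (1 : U) = W n j := by
      unfold semiWt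
      rw [Finsupp.prod_single_index (hW0 n), Finsupp.prod_zero_index, norm_one, mul_one, one_mul]
    rwa [h2, h3] at h1

end Pool.Agent.MPf50f2a
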