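import Pool.Agent.Lib.MP_f50f2a_an.Spec

/-!
# MP_f50f2a_an, Seq: recursion over the pairs
-/

set_option autoImplicit false

namespace Pool.Agent.MPf50f2a

open Finset

universe u

/-- recursion over the pairs -/
theorem t_Seq (hSt : S_Step.{u}) : S_Seq.{u} := by
  classical
  intro U _ _ _ b c hQ hD ε hε
  have h : ∀ (n : ℕ) (P : ℝ), ∃ (J : ℕ) (T : ℕ → Du U → Du U) (M : ℝ),
      1 ≤ P → StepOK (b n) (c n) (ε n) J T M P := by
    intro n P
    by_cases hP : 1 ≤ P
    · obtain ⟨J, T, M, h⟩ := hSt U (b n) (c n) (hQ n) (hD n) (ε n) (hε n) P hP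
      exact ⟨J, T, M, fun _ => h⟩
    · exact ⟨0, fun _ g => g, 0, fun h => absurd h hP⟩
  choose J₀ T₀ M₀ h₀ using h
  let P : ℕ → ℝ := fun n => Nat.rec 1 (fun n P => P * M₀ n P) n
  have hP0 : P 0 = 1 := rfl
  have hPs : ∀ n, P (n + 1) = P n * M₀ n (P n) := fun n => rfl
  have hP1 : ∀ n, 1 ≤ P n := by
    intro n
    induction n with
    | zero => exact le_rfl
    | succ n ih =>
      rw [hPs]
      exact one_le_mul_of_one_le_of_one_le ih (h₀ n (P n) ih).one_le
  have hprod : ∀ n, P n = ∏ m ∈ range n, M₀ m (P m) := by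
    intro n
    induction n with
    | zero => rfl
    | succ n ih => rw [hPs, Finset.prod_range_succ, ← ih]
  refine ⟨fun n => J₀ n (P n), fun n => T₀ n (P n), fun n => M₀ n (P n), fun n => ?_⟩
  have := h₀ n (P n) (hP1 n)
  rw [hprod n] at this
  convert this using 2
  all_goals rw [← hprod n]

end Pool.Agent.MPf50f2a
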