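import Pool.Agent.Lib.MP_f50f2a_an.Spec

set_option autoImplicit false

namespace Pool.Agent.MPf50f2a

open Finset Filter Topology

universe u

theorem tStep (hChain : S_Chain.{u}) (hMZ : S_MZ.{u}) (hJJ : S_JJ.{u}) (hErr : S_Err.{u}) :
    S_Step.{u} := by
  intro U _ _ _ b c hQ hD ε hε P hP
  obtain ⟨J, hJ⟩ := hJJ U c hQ ε hε
  obtain ⟨M', hM', hE⟩ := hErr U b c hQ ε hε J hJ
  have hM'0 : 0 < M' := by linarith
  have hP0 : 0 < P := by linarith
  obtain ⟨η, hηd⟩ : ∃ η : ℝ, η = 1 / (2 * M' * P) := ⟨_, rfl⟩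
  have hη : 0 < η := by
    rw [hηd]
    positivity
  obtain ⟨K, T, hK, hT0, hTbig, hTn, hTs⟩ := hChain U b c hD J η hη
  obtain ⟨M₀, hM₀, hMZ'⟩ := hMZ U b c hQ ε hε J
  refine ⟨J, T, K * M₀, one_le_mul_of_one_le_of_one_le hK hM₀, hT0, hTbig, ?_, ?_⟩
  · intro k j C Φ hC hΦ g
    have hΦ0 : Φ 0 = 0 := by
      have := hΦ 0
      rw [norm_zero, mul_zero] at this
      exact norm_le_zero_iff.1 this
    have hterm : ∀ i ∈ range (k + 1),
        ((k.choose i : ℕ) : ℂ) • act ((-c) ^ (k - i) * b ^ i) (Φ (T (j + i) g)) ≠ 0 → i ≤ J := by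
      intro i _ hne
      by_contra hcon
      apply hne
      rw [hTbig (j + i) (by omega) g, hΦ0, act_zero_right]
      exact smul_zero (A := Du U) ((k.choose i : ℕ) : ℂ)
    unfold Wop
    rw [← Finset.sum_filter_of_ne hterm]
    calc ‖∑ i ∈ (range (k + 1)).filter (fun i => i ≤ J),
          ((k.choose i : ℕ) : ℂ) • act ((-c) ^ (k - i) * b ^ i) (Φ (T (j + i) g))‖
        ≤ ∑ i ∈ (range (k + 1)).filter (fun i => i ≤ J),
            (k.choose i : ℝ) * ‖(-c) ^ (k - i) * b ^ i‖ * (C * (K * ‖g‖)) := by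
          refine norm_sum_le_of_le _ fun i _ => ?_
          rw [norm_smul, Complex.norm_natCast, mul_assoc]
          refine mul_le_mul_of_nonneg_left ?_ (Nat.cast_nonneg _)
          refine (norm_act_le _ _).trans (mul_le_mul_of_nonneg_left ?_ (norm_nonneg _))
          exact (hΦ _).trans (mul_le_mul_of_nonneg_left (hTn _ _) hC)
      _ = (∑ i ∈ (range (k + 1)).filter (fun i => i ≤ J),
            (k.choose i : ℝ) * ‖(-c) ^ (k - i) * b ^ i‖) * (C * (K * ‖g‖)) := by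
          rw [Finset.sum_mul]
      _ ≤ (M₀ * ε ^ k) * (C * (K * ‖g‖)) := by
          refine mul_le_mul_of_nonneg_right (hMZ' k) ?_
          have : 0 ≤ K := by linarith
          positivity
      _ = C * (K * M₀) * ε ^ k * ‖g‖ := by ring
  · intro k hk
    obtain ⟨μ, h1, h2⟩ := hE η T hη hT0 hTbig hTs k hk
    refine ⟨μ, h1, fun g => (h2 g).trans (le_of_eq ?_)⟩
    rw [hηd]
    field_simp

end Pool.Agent.MPf50f2a
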