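import Pool.Agent.Lib.MP_f50f2a_an.Spec

/-!
# MP_f50f2a_an, module ThmE1: Theorem E, sufficiency
-/

set_option autoImplicit false

namespace Pool.Agent.MPf50f2a

open Finset Filter Topology

universe u

theorem tThmE1 (hCore : S_Core.{u}) (hUn : S_Un.{u}) (hQNA : S_QNA.{u}) (hSub : S_Sub.{u}) :
    S_ThmE1.{u} := by
  intro A _ _ _ _ _ hrad b c hcond
  obtain ⟨U, _, _, _, _, j, hnorm, hdec⟩ := hUn A
  have hj : ∀ a, ‖j a‖ = ‖a‖ := fun a => by simpa using hnorm 0 a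
  have hmul : ∀ (d : A) (l : ℂ) (y : A),
      j d * (algebraMap ℂ U l + j y) = j (l • d + d * y) := by
    intro d l y
    rw [map_add, map_smul, map_mul, Algebra.smul_def]
    ring
  have hDom : ∀ n, Dom (j (b n)) (j (c n)) := by
    intro n δ hδ
    obtain ⟨K, hK⟩ := hcond n δ hδ
    refine ⟨K, fun y => ?_⟩
    obtain ⟨l, y, rfl⟩ := hdec y
    rw [hmul, hmul, hj, hj, hnorm]
    exact hK l y
  have hQ : ∀ n, QN (j (c n)) := fun n => hQNA A U j hrad (c n)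
  obtain ⟨V, _, _, _, ι, x, hι, hιx, hx⟩ := hCore U (fun i => j (b (Nat.unpair i).1))
    (fun i => j (c (Nat.unpair i).1)) (fun i => 1 / (((Nat.unpair i).2 : ℝ) + 1))
    (fun i => by positivity) (fun i => hQ _) (fun i => hDom _)
  obtain ⟨B, _, _, _, _, _, φ, ψ, hψφ, hψ, hψx, hB⟩ := hSub A V
    ((ι : U →ₙₐ[ℂ] V).comp j) x hrad (fun a => by
      change ‖ι (j a)‖ = ‖a‖
      rw [hι, hj]) hx
  have hψφ2 : ∀ a, ψ (φ a) = ι (j a) := fun a => hψφ a
  refine ⟨B, inferInstance, inferInstance, inferInstance, inferInstance, inferInstance, φ,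
    fun a => ?_, hB, fun n => ?_⟩
  · rw [← hψ, hψφ2, hι, hj]
  · rw [Metric.mem_closure_iff]
    intro e he
    obtain ⟨m, hm⟩ := exists_nat_one_div_lt he
    obtain ⟨y, hy⟩ := hψx (Nat.pair n m)
    refine ⟨φ (b n) * y, ⟨y, rfl⟩, ?_⟩
    rw [dist_comm, dist_eq_norm, ← hψ, map_sub, map_mul, hψφ2, hψφ2, hy]
    have h1 := hιx (Nat.pair n m)
    simp only [Nat.unpair_pair] at h1
    exact lt_of_le_of_lt h1 hm

end Pool.Agent.MPf50f2a
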