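import Pool.Agent.Lib.MP_f50f2a_an.Spec

/-!
# MP_f50f2a_an, ThmE2: Theorem E, necessity
-/

set_option autoImplicit false

namespace Pool.Agent.MPf50f2a

universe u

/-- Theorem E, necessity -/
theorem t_ThmE2 : S_ThmE2.{u} := by
  intro A _ _ _ _ B _ _ _ _ φ b c hφ hc δ hδ
  obtain ⟨_, ⟨x, rfl⟩, hx⟩ := Metric.mem_closure_iff.1 hc δ hδ
  refine ⟨‖x‖, fun l y => ?_⟩
  set d : B := φ c - φ b * x with hd
  have hdn : ‖d‖ ≤ δ := by
    rw [dist_eq_norm] at hx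
    exact hx.le
  have h1 : φ (l • c + c * y) = x * φ (l • b + b * y) + (l • d + d * φ y) := by
    have hφc : φ c = φ b * x + d := by rw [hd]; abel
    rw [map_add, map_smul, map_mul, map_add, map_smul, map_mul, hφc, mul_add, mul_smul_comm,
      smul_add, add_mul]
    have e1 : x * φ b = φ b * x := mul_comm _ _
    have e2 : x * (φ b * φ y) = φ b * x * φ y := by rw [← mul_assoc, e1]
    rw [e1, e2]
    abel
  have h2 : ‖l • c + c * y‖ = ‖φ (l • c + c * y)‖ := (hφ _).symm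
  have h3 : ‖φ (l • b + b * y)‖ = ‖l • b + b * y‖ := hφ _
  rw [h2, h1]
  calc ‖x * φ (l • b + b * y) + (l • d + d * φ y)‖
      ≤ ‖x * φ (l • b + b * y)‖ + (‖l • d‖ + ‖d * φ y‖) :=
        (norm_add_le _ _).trans (by gcongr; exact norm_add_le _ _)
    _ ≤ ‖x‖ * ‖l • b + b * y‖ + (‖l‖ * ‖d‖ + ‖d‖ * ‖y‖) := by
        gcongr
        · rw [← h3]
          exact norm_mul_le _ _
        · exact (norm_smul l d).le
        · rw [← hφ y]
          exact norm_mul_le _ _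
    _ = ‖x‖ * ‖l • b + b * y‖ + ‖d‖ * (‖l‖ + ‖y‖) := by ring
    _ ≤ ‖x‖ * ‖l • b + b * y‖ + δ * (‖l‖ + ‖y‖) := by gcongr

end Pool.Agent.MPf50f2a
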