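import Pool.Agent.Lib.MP_f50f2a_an.Spec

/-!
# MP_f50f2a_an, Un: the unitization with the l1 norm
-/

set_option autoImplicit false

namespace Pool.Agent.MPf50f2a

open Finset Filter Topology

universe u

namespace UnAux

variable (A : Type u) [NonUnitalNormedCommRing A] [NormedSpace ℂ A] [IsScalarTower ℂ A A]
  [SMulCommClass ℂ A A]

/-- the unitization with the l1 norm -/
abbrev UU : Type u := WithLp 1 (Unitization ℂ A)

/-- the ring structure -/
@[instance_reducible]
noncomputable def ring : NormedCommRing (UU A) :=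
  { (WithLp.instUnitizationNormedRing : NormedRing (UU A)) with
    mul_comm := fun x y => by
      apply (WithLp.equiv 1 (Unitization ℂ A)).injective
      change WithLp.ofLp x * WithLp.ofLp y = WithLp.ofLp y * WithLp.ofLp x
      exact mul_comm _ _ }

/-- the inclusion -/
noncomputable def jj : letI := ring A; A →ₙₐ[ℂ] UU A :=
  letI := ring A
  { toFun := fun a => WithLp.toLp 1 (a : Unitization ℂ A)
    map_smul' := fun r a => by
      apply (WithLp.equiv 1 (Unitization ℂ A)).injective
      exact Unitization.inr_smul ℂ r a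
    map_zero' := by
      apply (WithLp.equiv 1 (Unitization ℂ A)).injective
      exact Unitization.inr_zero ℂ
    map_add' := fun a b => by
      apply (WithLp.equiv 1 (Unitization ℂ A)).injective
      exact Unitization.inr_add ℂ a b
    map_mul' := fun a b => by
      apply (WithLp.equiv 1 (Unitization ℂ A)).injective
      exact Unitization.inr_mul ℂ a b }

end UnAux

/-- **Un.** -/
theorem tUn : S_Un.{u} := by
  intro A _ _ _ _ _
  refine ⟨UnAux.UU A, UnAux.ring A, (WithLp.instUnitizationNormedAlgebra : NormedAlgebra ℂ (UnAux.UU A)),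
    ?_, ?_, UnAux.jj A, ?_, ?_⟩
  · refine ⟨?_⟩
    change ‖(1 : UnAux.UU A)‖ = 1
    rw [WithLp.unitization_norm_def]
    change ‖(1 : Unitization ℂ A).fst‖ + ‖(1 : Unitization ℂ A).snd‖ = 1
    simp
  · exact (WithLp.instCompleteSpace ℂ A : CompleteSpace (UnAux.UU A))
  · intro l a
    have h1 := WithLp.unitization_norm_def (𝕜 := ℂ) (A := A)
      (algebraMap ℂ (UnAux.UU A) l + WithLp.toLp 1 (a : Unitization ℂ A))
    refine h1.trans ?_
    change ‖(algebraMap ℂ (Unitization ℂ A) l + (a : Unitization ℂ A)).fst‖ +
      ‖(algebraMap ℂ (Unitization ℂ A) l + (a : Unitization ℂ A)).snd‖ = _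
    rw [Unitization.algebraMap_eq_inl, Unitization.fst_add, Unitization.snd_add,
      Unitization.fst_inl, Unitization.fst_inr, Unitization.snd_inl, Unitization.snd_inr,
      add_zero, zero_add]
  · intro y
    refine ⟨(WithLp.ofLp y).fst, (WithLp.ofLp y).snd, ?_⟩
    apply (WithLp.equiv 1 (Unitization ℂ A)).injective
    change WithLp.ofLp y = algebraMap ℂ (Unitization ℂ A) (WithLp.ofLp y).fst +
      ((WithLp.ofLp y).snd : Unitization ℂ A)
    rw [Unitization.algebraMap_eq_inl]
    exact (Unitization.inl_fst_add_inr_snd_eq (WithLp.ofLp y)).symm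

end Pool.Agent.MPf50f2a
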