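import Pool.Agent.Lib.MP_f50f2a_an.Spec

/-!
# MP_f50f2a_an, Wt: the weights
-/

set_option autoImplicit false

namespace Pool.Agent.MPf50f2a

open Finset

universe u

/-- the weights -/
theorem t_Wt : S_Wt := by
  intro M J hM n
  set L : ℝ := ∏ m ∈ range (n + 1), M m with hL
  have hL1 : 1 ≤ L := by
    have h : ∀ m, 1 ≤ ∏ i ∈ range m, M i := by
      intro m
      induction m with
      | zero => rw [Finset.prod_range_zero]
      | succ m ih =>
        rw [Finset.prod_range_succ]
        exact one_le_mul_of_one_le_of_one_le ih (hM m)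
    exact h (n + 1)
  have hL0 : 0 < L := lt_of_lt_of_le zero_lt_one hL1
  refine ⟨?_, ?_, ?_, ?_⟩
  · simp [Wt]
  · intro j
    unfold Wt
    rw [← hL]
    positivity
  · intro i j
    unfold Wt
    rw [← hL, pow_add, div_mul_div_comm]
    have h1 : i / (J n + 1) + j / (J n + 1) ≤ (i + j) / (J n + 1) := Nat.div_add_div_le_add_div
    have h2 : (i / (J n + 1)).factorial * (j / (J n + 1)).factorial ≤
        ((i + j) / (J n + 1)).factorial :=
      (Nat.le_of_dvd (Nat.factorial_pos _) (Nat.factorial_mul_factorial_dvd_factorial_add _ _)).trans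
        (Nat.factorial_le h1)
    have h3 : (((i / (J n + 1)).factorial : ℝ) * ((j / (J n + 1)).factorial : ℝ)) ≤
        (((i + j) / (J n + 1)).factorial : ℝ) := by exact_mod_cast h2
    exact div_le_div_of_nonneg_left (by positivity) (by positivity) h3
  · intro r hr
    set x : ℝ := L / r with hx
    have hx0 : 0 < x := div_pos hL0 hr
    refine ⟨(max 1 x) ^ (J n) * Real.exp (x ^ (J n + 1)), fun j => ?_⟩
    unfold Wt
    rw [← hL]
    have hLx : L = x * r := by rw [hx]; field_simp
    rw [hLx, mul_pow, mul_div_right_comm]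
    gcongr
    set q := j / (J n + 1) with hq
    have hj : j = j % (J n + 1) + (J n + 1) * q := by
      rw [hq]; exact (Nat.mod_add_div j (J n + 1)).symm
    have hs : j % (J n + 1) ≤ J n := Nat.lt_succ_iff.1 (Nat.mod_lt j (Nat.succ_pos _))
    have h4 : x ^ j = x ^ (j % (J n + 1)) * (x ^ (J n + 1)) ^ q := by
      conv_lhs => rw [hj]
      rw [pow_add, pow_mul]
    rw [h4, mul_div_assoc]
    have h5 : (x ^ (J n + 1)) ^ q / (q.factorial : ℝ) ≤ Real.exp (x ^ (J n + 1)) :=
      Real.pow_div_factorial_le_exp _ (by positivity) q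
    have h6 : x ^ (j % (J n + 1)) ≤ (max 1 x) ^ (J n) := by
      calc x ^ (j % (J n + 1)) ≤ (max 1 x) ^ (j % (J n + 1)) := by
            gcongr
            exact le_max_right _ _
        _ ≤ (max 1 x) ^ (J n) := pow_le_pow_right₀ (le_max_left _ _) hs
    gcongr

end Pool.Agent.MPf50f2a
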