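import Pool.Agent.Lib.MP_f50f2a_an.HB
import Pool.Agent.Lib.MP_f50f2a_an.Chain
import Pool.Agent.Lib.MP_f50f2a_an.MZ
import Pool.Agent.Lib.MP_f50f2a_an.JJ
import Pool.Agent.Lib.MP_f50f2a_an.Err
import Pool.Agent.Lib.MP_f50f2a_an.Step
import Pool.Agent.Lib.MP_f50f2a_an.Seq
import Pool.Agent.Lib.MP_f50f2a_an.Lin
import Pool.Agent.Lib.MP_f50f2a_an.Crude
import Pool.Agent.Lib.MP_f50f2a_an.DMain
import Pool.Agent.Lib.MP_f50f2a_an.DZero
import Pool.Agent.Lib.MP_f50f2a_an.FDD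
import Pool.Agent.Lib.MP_f50f2a_an.FF
import Pool.Agent.Lib.MP_f50f2a_an.Ext
import Pool.Agent.Lib.MP_f50f2a_an.Wt
import Pool.Agent.Lib.MP_f50f2a_an.Semi
import Pool.Agent.Lib.MP_f50f2a_an.Compl
import Pool.Agent.Lib.MP_f50f2a_an.Core
import Pool.Agent.Lib.MP_f50f2a_an.Un
import Pool.Agent.Lib.MP_f50f2a_an.QNA
import Pool.Agent.Lib.MP_f50f2a_an.RadCh
import Pool.Agent.Lib.MP_f50f2a_an.ChNorm
import Pool.Agent.Lib.MP_f50f2a_an.ChRad
import Pool.Agent.Lib.MP_f50f2a_an.Sub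
import Pool.Agent.Lib.MP_f50f2a_an.ThmE1
import Pool.Agent.Lib.MP_f50f2a_an.ThmE2

/-!
# MP_f50f2a_an, assembly of Theorem E
-/

set_option autoImplicit false

namespace Pool.Agent.MPf50f2a

universe u

theorem f_Chain : S_Chain.{u} := t_Chain tHB

theorem f_Err : S_Err.{u} := tErr t_MZ

theorem f_Step : S_Step.{u} := tStep f_Chain t_MZ t_JJ f_Err

theorem f_Seq : S_Seq.{u} := t_Seq f_Step

theorem f_DMain : S_DMain.{u} := tDMain t_Lin t_Crude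

theorem f_DZero : S_DZero.{u} := t_DZero t_Crude

theorem f_FDD : S_FDD.{u} := tFDD t_Lin

theorem f_Ext : S_Ext.{u} := tExt f_DMain f_DZero f_FDD tFF

theorem f_Core : S_Core.{u} := tCore f_Seq f_Ext t_Wt tSemi tCompl

theorem f_ChNorm : S_ChNorm.{u} := tChNorm tUn

theorem f_ChRad : S_ChRad.{u} := tChRad tUn

theorem f_Sub : S_Sub.{u} := tSub t_RadCh f_ChNorm f_ChRad

theorem f_ThmE1 : S_ThmE1.{u} := tThmE1 f_Core tUn t_QNA f_Sub

theorem f_ThmE2 : S_ThmE2.{u} := t_ThmE2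

end Pool.Agent.MPf50f2a
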