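import Pool.Agent.Lib.MP_f50f2a_an.Spec2

/-!
# MP_f50f2a_an: ThmF, Theorem F
-/

set_option autoImplicit false

namespace Pool.Agent.MPf50f2a

open Finset Filter Topology

universe u

theorem tThmF (hFB : S_FB.{u}) (hFRad : S_FRad.{u}) (hFDom : S_FDom.{u})
    (hFIdeal : S_FIdeal.{u}) (hThmE1 : S_ThmE1.{u}) : S_ThmF.{u} := by
  intro w hw A _ _ _ _ _ coef hA
  obtain ⟨hinj, e, he⟩ := hFB w hw A coef hA
  have hrad := hFRad w hw A coef hA
  refine ⟨hrad, ?_⟩
  obtain ⟨B, i1, i2, i3, i4, i5, φ, hφ, hB, hcl⟩ := hThmE1 A hrad (fun n => e n) (fun _ => e 0)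
    (fun n δ hδ => hFDom w hw A coef e hA he n δ hδ)
  refine ⟨B, i1, i2, i3, i4, i5, φ, hφ, hB, ?_⟩
  intro I hI hmul
  by_cases h : ∀ a, φ a ∈ I → a = 0
  · exact Or.inl h
  right
  push Not at h
  obtain ⟨a, haI, ha0⟩ := h
  have hcont : Continuous φ := by
    have h1 : Isometry φ := AddMonoidHomClass.isometry_of_norm φ hφ
    exact h1.continuous
  let J : Submodule ℂ A :=
    { carrier := {x | φ x ∈ I}
      add_mem' := fun {x y} hx hy => by
        change φ (x + y) ∈ I
        rw [map_add]
        exact I.add_mem hx hy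
      zero_mem' := by
        change φ 0 ∈ I
        rw [map_zero]
        exact I.zero_mem
      smul_mem' := fun c x hx => by
        change φ (c • x) ∈ I
        rw [map_smul]
        exact I.smul_mem c hx }
  have hJc : IsClosed (J : Set A) := hI.preimage hcont
  have hJm : ∀ a y : A, y ∈ J → a * y ∈ J := by
    intro a y hy
    change φ (a * y) ∈ I
    rw [map_mul]
    exact hmul _ _ hy
  obtain ⟨m, hm⟩ := hFIdeal w hw A coef e hA he J hJc hJm a haI ha0
  have hm' : φ (e m) ∈ I := hm
  have h0 : φ (e 0) ∈ I := by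
    have h1 : closure (Set.range fun x : B => φ (e m) * x) ⊆ (I : Set B) := by
      apply closure_minimal _ hI
      rintro _ ⟨x, rfl⟩
      change φ (e m) * x ∈ I
      rw [mul_comm]
      exact hmul _ _ hm'
    exact h1 (hcl m)
  have hn : ∀ n, φ (e n) ∈ I := by
    intro n
    induction n with
    | zero => exact h0
    | succ n ih =>
      have h1 := he.mule 0 n
      rw [Nat.zero_add] at h1
      rw [← h1, map_mul]
      exact hmul _ _ ih
  intro a'
  have h1 : HasSum (fun n => φ (coef a' n • e n)) (φ a') := (he.exp a').map φ hcont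
  refine hI.mem_of_tendsto h1 (Filter.Eventually.of_forall fun s => ?_)
  change ∑ n ∈ s, φ (coef a' n • e n) ∈ I
  refine I.sum_mem fun n _ => ?_
  rw [map_smul]
  exact I.smul_mem _ (hn n)

end Pool.Agent.MPf50f2a
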