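import Pool.Agent.Lib.MP_f50f2a_an.FinalE
import Pool.Agent.Lib.MP_f50f2a_an.FW
import Pool.Agent.Lib.MP_f50f2a_an.FEx
import Pool.Agent.Lib.MP_f50f2a_an.FB
import Pool.Agent.Lib.MP_f50f2a_an.FRad
import Pool.Agent.Lib.MP_f50f2a_an.FDom
import Pool.Agent.Lib.MP_f50f2a_an.FIdeal
import Pool.Agent.Lib.MP_f50f2a_an.ThmF

/-!
# MP_f50f2a_an, assembly of Theorem F
-/

set_option autoImplicit false

namespace Pool.Agent.MPf50f2a

universe u

theorem f_FEx : S_FEx := tFEx tFW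

theorem f_FRad : S_FRad.{u} := tFRad tFW tFB f_ChNorm f_ChRad

theorem f_FIdeal : S_FIdeal.{u} := tFIdeal tFW

theorem f_ThmF : S_ThmF.{u} := tThmF tFB f_FRad tFDom f_FIdeal f_ThmE1

end Pool.Agent.MPf50f2a
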