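import Pool.Agent.Lib.MP_f50f2a_an.Spec2

/-!
# MP_f50f2a_an, T1: the minimal closed ideal is topologically simple
-/

set_option autoImplicit false

namespace Pool.Agent.MPf50f2a

open Finset Filter Topology

universe u

section t1

variable {Q : Type u} [NormedCommRing Q] [NormedAlgebra ℂ Q]

/-- A (closed) ideal as a subalgebra. -/
def t1_sub (I : Ideal Q) : NonUnitalSubalgebra ℂ Q where
  carrier := I
  add_mem' := I.add_mem
  zero_mem' := I.zero_mem
  mul_mem' := fun _ hb => I.mul_mem_left _ hb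
  smul_mem' := fun c x hx => by
    rw [Algebra.smul_def]
    exact I.mul_mem_left _ hx

theorem t1_mem (I : Ideal Q) (x : Q) : x ∈ t1_sub I ↔ x ∈ I := Iff.rfl

omit [NormedAlgebra ℂ Q] in
/-- The ideal generated by `X` and its closure. -/
theorem t1_span (X : Q) : ((Ideal.span {X} : Ideal Q).closure : Set Q) =
    closure (Set.range fun y : Q => X * y) := by
  rw [Ideal.coe_closure]
  congr 1
  ext x
  rw [SetLike.mem_coe, Ideal.mem_span_singleton']
  constructor
  · rintro ⟨a, rfl⟩
    exact ⟨a, mul_comm _ _⟩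
  · rintro ⟨a, rfl⟩
    exact ⟨a, mul_comm _ _⟩

omit [NormedAlgebra ℂ Q] in
theorem t1_self (X : Q) : X ∈ (Ideal.span {X} : Ideal Q).closure := by
  rw [← SetLike.mem_coe, t1_span]
  exact subset_closure ⟨1, mul_one X⟩

omit [NormedAlgebra ℂ Q] in
theorem t1_sq {X : Q} (hX : X ≠ 0) (h : X ∈ closure (Set.range fun y : Q => X * X * y)) :
    X * X ≠ 0 := by
  intro h0
  rw [h0] at h
  have h1 : (Set.range fun y : Q => (0 : Q) * y) ⊆ {0} := by
    rintro _ ⟨y, rfl⟩
    exact zero_mul y
  have h2 := closure_mono h1 h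
  rw [closure_singleton] at h2
  exact hX h2

omit [NormedAlgebra ℂ Q] in
/-- `X` is annihilated by no nonzero element. -/
theorem t1_ann {X : Q} (hX : X ≠ 0) (h : X ∈ closure (Set.range fun y : Q => X * X * y))
    (hI : ∀ I : Ideal Q, IsClosed (I : Set Q) → I ≠ ⊥ → X ∈ I) {y : Q} (hy : y ≠ 0) :
    X * y ≠ 0 := by
  intro h0
  let I : Ideal Q :=
    { carrier := {q | X * q = 0}
      add_mem' := fun {a b} (ha : X * a = 0) (hb : X * b = 0) => by
        change X * (a + b) = 0
        rw [mul_add, ha, hb, add_zero]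
      zero_mem' := mul_zero X
      smul_mem' := fun c x (hx : X * x = 0) => by
        change X * (c * x) = 0
        rw [mul_left_comm, hx, mul_zero] }
  have hc : IsClosed (I : Set Q) := by
    change IsClosed {q : Q | X * q = 0}
    exact isClosed_eq (by fun_prop) continuous_const
  have hb : I ≠ ⊥ := by
    intro hb
    have h1 : y ∈ I := h0
    rw [hb] at h1
    exact hy h1
  exact t1_sq hX h (hI I hc hb)

end t1

/-- **T1.** -/
theorem tT1 : S_T1.{u} := by
  intro Q _ _ _ X hX hXX hI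
  set J : Ideal Q := (Ideal.span {X} : Ideal Q).closure with hJ
  have hJc : IsClosed (J : Set Q) := by
    rw [hJ, Ideal.coe_closure]
    exact isClosed_closure
  have hXJ : X ∈ J := t1_self X
  let ψ : t1_sub J →ₙₐ[ℂ] Q := NonUnitalSubalgebraClass.subtype (t1_sub J)
  have hψ : ∀ a : t1_sub J, ψ a = (a : Q) := fun a => rfl
  have hcomp : CompleteSpace (t1_sub J) := hJc.completeSpace_coe
  refine ⟨t1_sub J, inferInstance,
    { norm_smul_le := fun c x => norm_smul_le c (x : Q) }, ?_, ?_, hcomp, ψ, fun a => rfl, ?_, ?_, ?_⟩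
  · exact ⟨fun c x y => Subtype.ext (smul_mul_assoc c (x : Q) (y : Q))⟩
  · exact ⟨fun c x y => Subtype.ext (mul_smul_comm c (x : Q) (y : Q)).symm⟩
  · rw [← t1_span]
    ext x
    constructor
    · rintro ⟨a, rfl⟩
      exact a.2
    · intro hx
      exact ⟨⟨x, hx⟩, rfl⟩
  · refine ⟨⟨X, hXJ⟩, ⟨X, hXJ⟩, fun h => t1_sq hX hXX ?_⟩
    exact congrArg Subtype.val h
  · intro L hL hLI
    by_cases hb : L = ⊥
    · exact Or.inl hb
    right
    obtain ⟨y, hy, hy0⟩ := Submodule.exists_mem_ne_zero_of_ne_bot hb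
    have hy1 : (y : Q) ≠ 0 := fun h => hy0 (Subtype.ext h)
    -- the image of `L`
    have hLc : IsClosed (((↑) : t1_sub J → Q) '' (L : Set (t1_sub J))) :=
      hJc.isClosedEmbedding_subtypeVal.isClosedMap _ hL
    set I₂ : Ideal Q := (Ideal.span {X * (y : Q)} : Ideal Q).closure with hI₂
    have hI₂c : IsClosed (I₂ : Set Q) := by
      rw [hI₂, Ideal.coe_closure]
      exact isClosed_closure
    have hI₂b : I₂ ≠ ⊥ := by
      intro h
      have h1 : X * (y : Q) ∈ I₂ := t1_self _
      rw [h] at h1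
      exact t1_ann hX hXX hI hy1 h1
    have hXI : X ∈ I₂ := hI I₂ hI₂c hI₂b
    have hsub : (I₂ : Set Q) ⊆ ((↑) : t1_sub J → Q) '' (L : Set (t1_sub J)) := by
      rw [hI₂, t1_span]
      refine closure_minimal ?_ hLc
      rintro _ ⟨q, rfl⟩
      refine ⟨⟨X * q, J.mul_mem_right q hXJ⟩ * y, hLI _ _ hy, ?_⟩
      change X * q * (y : Q) = X * (y : Q) * q
      ring
    have hJI : (J : Set Q) ⊆ I₂ := by
      rw [hJ, t1_span]
      refine closure_minimal ?_ hI₂c
      rintro _ ⟨q, rfl⟩
      exact I₂.mul_mem_right q hXI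
    rw [eq_top_iff]
    intro a _
    obtain ⟨a', ha', h⟩ := hsub (hJI a.2)
    have : a' = a := Subtype.ext h
    rw [← this]
    exact ha'

end Pool.Agent.MPf50f2a
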