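import Pool.Agent.Lib.MP_f50f2a_an.Spec2

/-!
# MP_f50f2a_an: T2, the criterion is sufficient
-/

set_option autoImplicit false

namespace Pool.Agent.MPf50f2a

open Finset Filter Topology

universe u

theorem t2_dist {B : Type u} [NonUnitalNormedCommRing B] [NormedSpace ℂ B] {X : B} {δ θ : ℝ}
    (hθ : θ < 1) (h : ∀ u : B, ‖u‖ < δ →
      ∃ (l : ℂ) (v : B), ‖X - (l • (X - u) + (X - u) * v)‖ ≤ θ * ‖u‖)
    (J : Submodule ℂ B) (hJ : IsClosed (J : Set B)) (hJm : ∀ b y : B, y ∈ J → b * y ∈ J)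
    (hX : X ∉ J) : ∀ y ∈ J, δ ≤ ‖X - y‖ := by
  by_contra hcon
  push Not at hcon
  obtain ⟨y₀, hy₀, hlt⟩ := hcon
  have hne : (J : Set B).Nonempty := ⟨0, J.zero_mem⟩
  set d := Metric.infDist X (J : Set B) with hd
  have hd0 : 0 < d := (hJ.notMem_iff_infDist_pos hne).mp hX
  have hdδ : d < δ := by
    have h1 : d ≤ dist X y₀ := Metric.infDist_le_dist_of_mem hy₀
    rw [dist_eq_norm] at h1
    exact h1.trans_lt hlt
  have hm0 : 0 < max θ (1 / 2) := lt_max_of_lt_right (by norm_num)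
  have hm1 : max θ (1 / 2) < 1 := max_lt hθ (by norm_num)
  have hr : d < min δ (d / max θ (1 / 2)) := by
    refine lt_min hdδ ?_
    rw [lt_div_iff₀ hm0]
    nlinarith
  obtain ⟨y, hy, hyd⟩ := (Metric.infDist_lt_iff hne).mp hr
  rw [dist_eq_norm] at hyd
  obtain ⟨l, v, hlv⟩ := h (X - y) (hyd.trans_le (min_le_left _ _))
  rw [sub_sub_cancel] at hlv
  have h2 : max θ (1 / 2) * ‖X - y‖ < d := by
    have h3 := hyd.trans_le (min_le_right _ _)
    rw [lt_div_iff₀ hm0] at h3
    linarith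
  have h3 : θ * ‖X - y‖ ≤ max θ (1 / 2) * ‖X - y‖ :=
    mul_le_mul_of_nonneg_right (le_max_left _ _) (norm_nonneg _)
  have hmem : l • y + y * v ∈ (J : Set B) := by
    refine J.add_mem (J.smul_mem _ hy) ?_
    rw [mul_comm]
    exact hJm _ _ hy
  have h4 : d ≤ dist X (l • y + y * v) := Metric.infDist_le_dist_of_mem hmem
  rw [dist_eq_norm] at h4
  linarith

theorem t2_zorn {B : Type u} [NonUnitalNormedCommRing B] [NormedSpace ℂ B]
    {X : B} {δ θ : ℝ} (hδ : 0 < δ) (hX0 : X ≠ 0)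
    (hθ : θ < 1) (h : ∀ u : B, ‖u‖ < δ →
      ∃ (l : ℂ) (v : B), ‖X - (l • (X - u) + (X - u) * v)‖ ≤ θ * ‖u‖) :
    ∃ J : Submodule ℂ B, IsClosed (J : Set B) ∧ (∀ b y : B, y ∈ J → b * y ∈ J) ∧ X ∉ J ∧
      ∀ K : Submodule ℂ B, IsClosed (K : Set B) → (∀ b y : B, y ∈ K → b * y ∈ K) → J ≤ K →
        X ∉ K → K ≤ J := by
  have hz := zorn_le_nonempty₀ {J : Submodule ℂ B | IsClosed (J : Set B) ∧
    (∀ b y : B, y ∈ J → b * y ∈ J) ∧ X ∉ J} ?_ ⊥ ?_
  · obtain ⟨J, _, hJ⟩ := hz
    refine ⟨J, hJ.prop.1, hJ.prop.2.1, hJ.prop.2.2, fun K h1 h2 h3 h4 => ?_⟩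
    exact hJ.le_of_ge (show K ∈ {J : Submodule ℂ B | IsClosed (J : Set B) ∧
      (∀ b y : B, y ∈ J → b * y ∈ J) ∧ X ∉ J} from ⟨h1, h2, h4⟩) h3
  · intro c hc hchain J₀ hJ₀
    have hdir : DirectedOn (· ≤ ·) c := hchain.directedOn
    have hmem : ∀ x, x ∈ sSup c ↔ ∃ J ∈ c, x ∈ J := fun x =>
      Submodule.mem_sSup_of_directed ⟨J₀, hJ₀⟩ hdir
    refine ⟨(sSup c).topologicalClosure, ⟨(sSup c).isClosed_topologicalClosure, ?_, ?_⟩, ?_⟩
    · intro b y hy
      have hcont : Continuous fun y : B => b * y := continuous_const.mul continuous_id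
      refine map_mem_closure hcont hy ?_
      intro y hy
      obtain ⟨J, hJ, hyJ⟩ := (hmem y).mp hy
      exact (hmem _).mpr ⟨J, hJ, (hc hJ).2.1 b y hyJ⟩
    · intro hX
      obtain ⟨y, hy, hyd⟩ := Metric.mem_closure_iff.mp hX δ hδ
      obtain ⟨J, hJ, hyJ⟩ := (hmem y).mp hy
      have h1 := t2_dist hθ h J (hc hJ).1 (hc hJ).2.1 (hc hJ).2.2 y hyJ
      rw [dist_eq_norm] at hyd
      exact absurd hyd (not_lt.mpr h1)
    · intro J hJ
      exact (le_sSup hJ).trans (sSup c).le_topologicalClosure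
  · refine ⟨isClosed_singleton, fun b y hy => ?_, fun hX => hX0 ((Submodule.mem_bot ℂ).mp hX)⟩
    rw [Submodule.mem_bot] at hy ⊢
    rw [hy, mul_zero]

theorem tT2 (hUn : S_Un.{u}) (hT1 : S_T1.{u}) : S_T2.{u} := by
  intro B _ _ _ _ _ X hrad hX0 hXX hImp
  obtain ⟨δ, θ, hδ, hθ, himp⟩ := hImp
  obtain ⟨J, hJc, hJm, hXJ, hJmax⟩ := t2_zorn hδ hX0 hθ himp
  obtain ⟨U, _, _, _, _, j, hnorm, hrep⟩ := hUn B
  have hjn : ∀ a, ‖j a‖ = ‖a‖ := by
    intro a
    have h1 := hnorm 0 a
    rw [map_zero, zero_add, norm_zero, zero_add] at h1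
    exact h1
  have hjiso : Isometry j := AddMonoidHomClass.isometry_of_norm j hjn
  have hjinj : Function.Injective j := hjiso.injective
  have halg : ∀ (l : ℂ) (a : B), algebraMap ℂ U l * j a = j (l • a) := by
    intro l a
    rw [map_smul, Algebra.smul_def]
  let J' : Ideal U :=
    { carrier := j '' (J : Set B)
      add_mem' := by
        rintro _ _ ⟨a, ha, rfl⟩ ⟨b, hb, rfl⟩
        exact ⟨a + b, J.add_mem ha hb, map_add _ _ _⟩
      zero_mem' := ⟨0, J.zero_mem, map_zero _⟩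
      smul_mem' := by
        rintro c _ ⟨a, ha, rfl⟩
        obtain ⟨l, b, rfl⟩ := hrep c
        refine ⟨l • a + b * a, J.add_mem (J.smul_mem _ ha) (hJm _ _ ha), ?_⟩
        rw [map_add, map_mul, smul_eq_mul, add_mul, halg] }
  have hJ'c : IsClosed (J' : Set U) := hjiso.isClosedEmbedding.isClosedMap _ hJc
  have hJ'mem : ∀ a, j a ∈ J' → a ∈ J := by
    rintro a ⟨b, hb, hab⟩
    rw [← hjinj hab]
    exact hb
  let π : U →+* U ⧸ J' := Ideal.Quotient.mk J'
  have hπle : ∀ u, ‖π u‖ ≤ ‖u‖ := fun u => Ideal.Quotient.norm_mk_le J' u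
  have hπc : Continuous π := by
    have h1 : LipschitzWith 1 π := by
      refine LipschitzWith.of_dist_le_mul fun x y => ?_
      rw [dist_eq_norm, dist_eq_norm, ← map_sub, NNReal.coe_one, one_mul]
      exact hπle _
    exact h1.continuous
  have hπjc : Continuous (fun b : B => π (j b)) := hπc.comp hjiso.continuous
  have hπ0 : ∀ u, π u = 0 ↔ u ∈ J' := fun u => Ideal.Quotient.eq_zero_iff_mem
  have hlow : ∀ (l : ℂ) (a : B), ‖l‖ ≤ ‖π (algebraMap ℂ U l + j a)‖ := by
    intro l a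
    refine le_of_forall_pos_lt_add fun ε hε => ?_
    obtain ⟨r, hr, hrn⟩ := Ideal.Quotient.norm_mk_lt (π (algebraMap ℂ U l + j a)) hε
    have h1 : r - (algebraMap ℂ U l + j a) ∈ J' := by
      rw [← hπ0, map_sub, sub_eq_zero]
      exact hr
    obtain ⟨b, hb, hbr⟩ := h1
    have h2 : r = algebraMap ℂ U l + j (a + b) := by
      rw [map_add, hbr]
      ring
    rw [h2, hnorm] at hrn
    have h3 := norm_nonneg (a + b)
    linarith
  have hcl' : ∀ q : U ⧸ J', q ∈ closure (Set.range fun y : U ⧸ J' => π (j X) * y) →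
      ∃ b, q = π (j b) := by
    intro q hq
    obtain ⟨u, rfl⟩ := Ideal.Quotient.mk_surjective q
    obtain ⟨l, a, rfl⟩ := hrep u
    by_cases hl : l = 0
    · refine ⟨a, ?_⟩
      rw [hl, map_zero, zero_add]
    · exfalso
      obtain ⟨_, ⟨y, rfl⟩, hyd⟩ := Metric.mem_closure_iff.mp hq ‖l‖ (norm_pos_iff.mpr hl)
      obtain ⟨u, rfl⟩ := Ideal.Quotient.mk_surjective y
      obtain ⟨l', b, rfl⟩ := hrep u
      rw [dist_eq_norm] at hyd
      have h1 : (Ideal.Quotient.mk J') (algebraMap ℂ U l + j a) -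
          π (j X) * (Ideal.Quotient.mk J') (algebraMap ℂ U l' + j b) =
          π (algebraMap ℂ U l + j (a - (l' • X + X * b))) := by
        change π (algebraMap ℂ U l + j a) - π (j X) * π (algebraMap ℂ U l' + j b) = _
        rw [← map_mul, ← map_sub]
        congr 1
        rw [map_sub, map_add, map_mul, ← halg]
        ring
      have h2 : ‖π (algebraMap ℂ U l + j (a - (l' • X + X * b)))‖ < ‖l‖ := by
        rw [← h1]
        exact hyd
      exact absurd h2 (not_lt.mpr (hlow _ _))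
  have hX'0 : π (j X) ≠ 0 := fun h => hXJ (hJ'mem _ ((hπ0 _).mp h))
  have hXX' : π (j X) ∈ closure (Set.range fun y : U ⧸ J' => π (j X) * π (j X) * y) := by
    refine map_mem_closure (f := fun b : B => π (j b)) hπjc hXX ?_
    rintro _ ⟨y, rfl⟩
    refine ⟨π (j y), ?_⟩
    change π (j X) * π (j X) * π (j y) = π (j (X * X * y))
    rw [map_mul, map_mul, map_mul, map_mul]
  have hmin : ∀ I : Ideal (U ⧸ J'), IsClosed (I : Set (U ⧸ J')) → I ≠ ⊥ → π (j X) ∈ I := by
    intro I hI hne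
    by_cases hcase : ∃ (l : ℂ) (a : B), l ≠ 0 ∧ π (algebraMap ℂ U l + j a) ∈ I
    · obtain ⟨l, a, hl, hmem⟩ := hcase
      obtain ⟨b, hb⟩ := hrad (l⁻¹ • a)
      have h1 : (algebraMap ℂ U l + j a) * (algebraMap ℂ U l⁻¹ + j (l⁻¹ • b)) = 1 := by
        have h2 : algebraMap ℂ U l * algebraMap ℂ U l⁻¹ = 1 := by
          rw [← map_mul, mul_inv_cancel₀ hl, map_one]
        have h3 : algebraMap ℂ U l * j (l⁻¹ • b) = j b := by
          rw [halg, smul_smul, mul_inv_cancel₀ hl, one_smul]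
        have h4 : j a * algebraMap ℂ U l⁻¹ = j (l⁻¹ • a) := by
          rw [mul_comm, halg]
        have h5 : j a * j (l⁻¹ • b) = j (l⁻¹ • a * b) := by
          rw [← map_mul, mul_smul_comm, smul_mul_assoc]
        calc (algebraMap ℂ U l + j a) * (algebraMap ℂ U l⁻¹ + j (l⁻¹ • b))
            = algebraMap ℂ U l * algebraMap ℂ U l⁻¹ + (j a * algebraMap ℂ U l⁻¹ +
              algebraMap ℂ U l * j (l⁻¹ • b) + j a * j (l⁻¹ • b)) := by ring
          _ = 1 + j (l⁻¹ • a + b + l⁻¹ • a * b) := by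
            rw [h2, h3, h4, h5, map_add, map_add]
          _ = 1 := by rw [hb, map_zero, add_zero]
      have h2 : π (j X) = π (algebraMap ℂ U l⁻¹ + j (l⁻¹ • b)) * π (j X) *
          π (algebraMap ℂ U l + j a) := by
        rw [← map_mul, ← map_mul]
        congr 1
        calc j X = ((algebraMap ℂ U l + j a) * (algebraMap ℂ U l⁻¹ + j (l⁻¹ • b))) * j X := by
              rw [h1, one_mul]
          _ = _ := by ring
      rw [h2]
      exact I.mul_mem_left _ hmem
    · push Not at hcase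
      let K : Submodule ℂ B :=
        { carrier := {a | π (j a) ∈ I}
          add_mem' := fun {x y} hx hy => by
            change π (j (x + y)) ∈ I
            rw [map_add, map_add]
            exact I.add_mem hx hy
          zero_mem' := by
            change π (j 0) ∈ I
            rw [map_zero, map_zero]
            exact I.zero_mem
          smul_mem' := fun c x hx => by
            change π (j (c • x)) ∈ I
            rw [← halg, map_mul]
            exact I.mul_mem_left _ hx }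
      have hKc : IsClosed (K : Set B) := hI.preimage (hπc.comp hjiso.continuous)
      have hKm : ∀ b y : B, y ∈ K → b * y ∈ K := by
        intro b y hy
        change π (j (b * y)) ∈ I
        rw [map_mul, map_mul]
        exact I.mul_mem_left _ hy
      have hJK : J ≤ K := by
        intro a ha
        change π (j a) ∈ I
        rw [(hπ0 _).mpr ⟨a, ha, rfl⟩]
        exact I.zero_mem
      by_contra hXI
      have hKJ := hJmax K hKc hKm hJK hXI
      apply hne
      rw [eq_bot_iff]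
      intro q hq
      obtain ⟨u, rfl⟩ := Ideal.Quotient.mk_surjective q
      obtain ⟨l, a, rfl⟩ := hrep u
      by_cases hl : l = 0
      · rw [hl, map_zero, zero_add] at hq ⊢
        have h1 : a ∈ J := hKJ hq
        rw [Submodule.mem_bot]
        exact (hπ0 _).mpr ⟨a, h1, rfl⟩
      · exact absurd hq (hcase l a hl)
  obtain ⟨A, i1, i2, i3, i4, i5, ψ, hψ, hψr, hTS⟩ := hT1 (U ⧸ J') (π (j X)) hX'0 hXX' hmin
  have hψinj : Function.Injective ψ := (AddMonoidHomClass.isometry_of_norm ψ hψ).injective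
  have hψB : ∀ a, ∃ b, ψ a = π (j b) := by
    intro a
    apply hcl'
    rw [← hψr]
    exact ⟨a, rfl⟩
  refine ⟨A, i1, i2, i3, i4, i5, hTS, ?_, ?_⟩
  · rintro ⟨χ, hχi, hχs⟩
    obtain ⟨p, hp⟩ := hχs 1
    have hpp : p * p = p := by
      apply hχi
      rw [map_mul, hp, mul_one]
    have hp0 : p ≠ 0 := by
      rintro rfl
      rw [map_zero] at hp
      exact zero_ne_one hp
    obtain ⟨b, hb⟩ := hψB p
    obtain ⟨b', hb'⟩ := hrad (-b)
    have h1 : (1 - ψ p) * (1 + π (j b')) = 1 := by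
      rw [hb]
      have h2 : π (j (-b + b' + -b * b')) = 0 := by rw [hb', map_zero, map_zero]
      rw [map_add, map_add, map_add, map_add, map_mul, map_mul, map_neg, map_neg] at h2
      calc (1 - π (j b)) * (1 + π (j b')) = 1 + (-π (j b) + π (j b') + -π (j b) * π (j b')) := by
            ring
        _ = 1 := by rw [h2, add_zero]
    have h2 : ψ p = 0 := by
      have h3 : ψ p * ψ p = ψ p := by rw [← map_mul, hpp]
      calc ψ p = ψ p * ((1 - ψ p) * (1 + π (j b'))) := by rw [h1, mul_one]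
        _ = (ψ p - ψ p * ψ p) * (1 + π (j b')) := by ring
        _ = 0 := by rw [h3, sub_self, zero_mul]
    apply hp0
    apply hψinj
    rw [h2, map_zero]
  · rintro ⟨C, hC⟩ hdense
    have hBψ : ∀ b, ∃ a, ψ a = π (j b) := by
      intro b
      have h1 : b ∈ closure (Set.range fun y : B => X * y) := by
        rw [hdense]
        trivial
      have h2 : π (j b) ∈ closure (Set.range fun y : U ⧸ J' => π (j X) * y) := by
        refine map_mem_closure (f := fun b : B => π (j b)) hπjc h1 ?_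
        rintro _ ⟨y, rfl⟩
        refine ⟨π (j y), ?_⟩
        change π (j X) * π (j y) = π (j (X * y))
        rw [map_mul, map_mul]
      rw [← hψr] at h2
      exact h2
    choose g hg using hψB
    classical
    refine ⟨C, fun F ε hε => ?_⟩
    obtain ⟨e, heC, heF⟩ := hC (F.image g) ε hε
    obtain ⟨e', he'⟩ := hBψ e
    refine ⟨e', ?_, ?_⟩
    · rw [← hψ, he']
      exact (hπle _).trans ((hjn e).trans_le heC)
    · intro a ha
      rw [← hψ, map_sub, map_mul, he', hg a, ← map_mul, ← map_mul, ← map_sub, ← map_sub]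
      refine (hπle _).trans_lt ?_
      rw [hjn]
      exact heF (g a) (Finset.mem_image_of_mem g ha)

end Pool.Agent.MPf50f2a
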