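import Pool.Agent.Lib.MP_f50f2a_an.Spec2

/-!
# MP_f50f2a_an, T3: the criterion is necessary
-/

set_option autoImplicit false

namespace Pool.Agent.MPf50f2a

open Finset Filter Topology

universe u

section

variable {A : Type u} [NonUnitalNormedCommRing A] [NormedSpace ℂ A] [IsScalarTower ℂ A A]
  [SMulCommClass ℂ A A]

/-- The closure of `{X * y}`. -/
noncomputable def t3_cl (X : A) : Submodule ℂ A :=
  (LinearMap.range (LinearMap.mulLeft ℂ X)).topologicalClosure

theorem t3_cl_coe (X : A) : (t3_cl X : Set A) = closure (Set.range fun y : A => X * y) := by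
  unfold t3_cl
  rw [Submodule.topologicalClosure_coe]
  congr 1

theorem t3_cl_ideal (X : A) (a y : A) (hy : y ∈ t3_cl X) : a * y ∈ t3_cl X := by
  have h1 : y ∈ (t3_cl X : Set A) := hy
  rw [t3_cl_coe] at h1
  have h2 : a * y ∈ (t3_cl X : Set A) := by
    rw [t3_cl_coe]
    have hc : Continuous fun z : A => a * z := continuous_const.mul continuous_id
    refine map_mem_closure hc h1 ?_
    rintro _ ⟨z, rfl⟩
    exact ⟨a * z, by simp only [mul_left_comm]⟩
  exact h2

theorem t3_cl_closed (X : A) : IsClosed (t3_cl X : Set A) :=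
  Submodule.isClosed_topologicalClosure _

/-- The annihilator of the algebra. -/
def t3_ann : Submodule ℂ A where
  carrier := {a | ∀ b : A, b * a = 0}
  add_mem' := by
    intro a a' h h' b
    rw [mul_add, h b, h' b, add_zero]
  zero_mem' := by intro b; rw [mul_zero]
  smul_mem' := by
    intro c a h b
    rw [mul_smul_comm, h b, smul_zero]

theorem t3_ann_bot (h : IsTS A) : (t3_ann : Submodule ℂ A) = ⊥ := by
  obtain ⟨⟨a, b, hab⟩, hI⟩ := h
  have hcl : IsClosed ((t3_ann : Submodule ℂ A) : Set A) := by
    have : ((t3_ann : Submodule ℂ A) : Set A) = ⋂ b : A, (fun a : A => b * a) ⁻¹' {0} := by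
      ext a
      simp only [Set.mem_iInter, Set.mem_preimage, Set.mem_singleton_iff]
      rfl
    rw [this]
    refine isClosed_iInter fun b => ?_
    exact isClosed_singleton.preimage (continuous_const.mul continuous_id)
  rcases hI t3_ann hcl (fun a y hy => by
    intro b
    rw [← mul_assoc]
    exact hy (b * a)) with h | h
  · exact h
  · exfalso
    have : b ∈ (t3_ann : Submodule ℂ A) := by rw [h]; trivial
    exact hab (this a)

theorem t3_dense (h : IsTS A) {X : A} (hX : X ≠ 0) :
    closure (Set.range fun y : A => X * y) = Set.univ := by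
  rcases h.2 (t3_cl X) (t3_cl_closed X) (t3_cl_ideal X) with h1 | h1
  · exfalso
    apply hX
    have : X ∈ (t3_ann : Submodule ℂ A) := by
      intro b
      have h2 : X * b ∈ (t3_cl X : Set A) := by
        rw [t3_cl_coe]
        exact subset_closure ⟨b, rfl⟩
      have h3 : X * b ∈ t3_cl X := h2
      rw [h1, Submodule.mem_bot] at h3
      rw [mul_comm, h3]
    rw [t3_ann_bot h, Submodule.mem_bot] at this
    exact this
  · rw [← t3_cl_coe, h1]
    rfl

theorem t3_sq (h : IsTS A) {X : A} (hX : X ≠ 0) : X * X ≠ 0 := by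
  intro h0
  apply hX
  have : X ∈ (t3_ann : Submodule ℂ A) := by
    intro b
    have hb : b ∈ closure (Set.range fun y : A => X * y) := by rw [t3_dense h hX]; trivial
    have hc : IsClosed {z : A | X * z = 0} :=
      isClosed_eq (continuous_const.mul continuous_id) continuous_const
    have h2 : (Set.range fun y : A => X * y) ⊆ {z : A | X * z = 0} := by
      rintro _ ⟨y, rfl⟩
      change X * (X * y) = 0
      rw [← mul_assoc, h0, zero_mul]
    have h3 := closure_minimal h2 hc hb
    rw [mul_comm]
    exact h3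
  rw [t3_ann_bot h, Submodule.mem_bot] at this
  exact this

theorem t3_imp (h : IsTS A) {X : A} (hX : X ≠ 0) : Imp A X := by
  refine ⟨‖X‖, 1 / 2, norm_pos_iff.mpr hX, by norm_num, fun u hu => ?_⟩
  by_cases hu0 : u = 0
  · subst hu0
    exact ⟨1, 0, by simp⟩
  · have hne : X - u ≠ 0 := by
      intro h0
      have : X = u := sub_eq_zero.mp h0
      rw [this] at hu
      exact lt_irrefl _ hu
    have h1 : X ∈ closure (Set.range fun y : A => (X - u) * y) := by
      rw [t3_dense h hne]; trivial
    rw [Metric.mem_closure_iff] at h1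
    obtain ⟨_, ⟨v, rfl⟩, hv⟩ := h1 (1 / 2 * ‖u‖) (by
      have := norm_pos_iff.mpr hu0
      positivity)
    refine ⟨0, v, ?_⟩
    rw [zero_smul, zero_add]
    rw [dist_eq_norm] at hv
    exact hv.le

end

theorem tT3 (hChNorm : S_ChNorm.{u}) (hChRad : S_ChRad.{u}) : S_T3.{u} := by
  intro A _ _ _ _ _ hTS hC
  refine ⟨?_, fun X hX => ⟨t3_dense hTS hX, ?_, t3_imp hTS hX⟩⟩
  · apply hChRad A
    intro χ
    by_contra hne
    push Not at hne
    obtain ⟨a, ha⟩ := hne
    have hcont : Continuous χ := by
      let L : A →ₗ[ℂ] ℂ := (χ : A →ₗ[ℂ] ℂ)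
      have : Continuous L := AddMonoidHomClass.continuous_of_bound L 1 (fun x => by
        rw [one_mul]
        exact hChNorm A χ x)
      exact this
    have hcl : IsClosed ((LinearMap.ker (χ : A →ₗ[ℂ] ℂ)) : Set A) := by
      have : ((LinearMap.ker (χ : A →ₗ[ℂ] ℂ)) : Set A) = χ ⁻¹' {0} := by
        ext x
        simp
      rw [this]
      exact isClosed_singleton.preimage hcont
    rcases hTS.2 (LinearMap.ker (χ : A →ₗ[ℂ] ℂ)) hcl (fun a y hy => by
      rw [LinearMap.mem_ker] at hy ⊢
      change χ (a * y) = 0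
      have hy' : χ y = 0 := hy
      rw [map_mul, hy', mul_zero]) with h | h
    · apply hC
      refine ⟨χ, ?_, ?_⟩
      · have := LinearMap.ker_eq_bot.mp h
        exact this
      · intro z
        refine ⟨(z / χ a) • a, ?_⟩
        rw [map_smul, smul_eq_mul, div_mul_cancel₀ _ ha]
    · have : a ∈ LinearMap.ker (χ : A →ₗ[ℂ] ℂ) := by rw [h]; trivial
      rw [LinearMap.mem_ker] at this
      exact ha this
  · have h1 := t3_dense hTS (t3_sq hTS hX)
    rw [h1]
    trivial

end Pool.Agent.MPf50f2a
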