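import Pool.Agent.Lib.MP_f50f2a_an.Spec2

/-!
# MP_f50f2a_an, Theorem T
-/

set_option autoImplicit false

namespace Pool.Agent.MPf50f2a

open Finset Filter Topology

universe u

theorem thmt_dense {B : Type u} [NonUnitalNormedCommRing B] (X : B)
    (h : closure (Set.range fun y : B => X * y) = Set.univ) :
    X ∈ closure (Set.range fun y : B => X * X * y) := by
  rw [Metric.mem_closure_iff]
  intro ε hε
  have h1 : X ∈ closure (Set.range fun y : B => X * y) := by rw [h]; trivial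
  rw [Metric.mem_closure_iff] at h1
  obtain ⟨_, ⟨b, rfl⟩, hb⟩ := h1 (ε / 2) (by positivity)
  have h2 : b ∈ closure (Set.range fun y : B => X * y) := by rw [h]; trivial
  rw [Metric.mem_closure_iff] at h2
  have hX : 0 ≤ ‖X‖ := norm_nonneg X
  obtain ⟨_, ⟨b', rfl⟩, hb'⟩ := h2 (ε / (2 * (‖X‖ + 1))) (by positivity)
  refine ⟨X * X * b', ⟨b', rfl⟩, ?_⟩
  rw [dist_eq_norm] at *
  simp only at hb hb' ⊢
  have e : X - X * X * b' = (X - X * b) + X * (b - X * b') := by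
    rw [mul_sub, mul_assoc]; abel
  rw [e]
  calc ‖(X - X * b) + X * (b - X * b')‖ ≤ ‖X - X * b‖ + ‖X * (b - X * b')‖ := norm_add_le _ _
    _ ≤ ‖X - X * b‖ + ‖X‖ * ‖b - X * b'‖ := by gcongr; exact norm_mul_le _ _
    _ ≤ ‖X - X * b‖ + (‖X‖ + 1) * (ε / (2 * (‖X‖ + 1))) := by
        gcongr
        · linarith
    _ = ‖X - X * b‖ + ε / 2 := by
        congr 1
        field_simp
    _ < ε := by linarith

theorem tThmT (hT2 : S_T2.{u}) (hT3 : S_T3.{u}) : S_ThmT.{u} := by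
  refine ⟨⟨?_, ?_⟩, ⟨?_, ?_⟩⟩
  · rintro ⟨A, i1, i2, i3, i4, i5, hTS, hC⟩
    obtain ⟨hR, h⟩ := hT3 A hTS hC
    obtain ⟨a, b, hab⟩ := hTS.1
    have ha : a ≠ 0 := by
      rintro rfl
      exact hab (zero_mul b)
    obtain ⟨h1, h2, h3⟩ := h a ha
    exact ⟨A, i1, i2, i3, i4, i5, a, hR, ha, h2, h3⟩
  · rintro ⟨B, i1, i2, i3, i4, i5, X, hR, hX, h2, h3⟩
    obtain ⟨A, j1, j2, j3, j4, j5, hTS, hC, -⟩ := hT2 B X hR hX h2 h3
    exact ⟨A, j1, j2, j3, j4, j5, hTS, hC⟩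
  · rintro ⟨A, i1, i2, i3, i4, i5, hTS, hC, hB⟩
    obtain ⟨hR, h⟩ := hT3 A hTS hC
    obtain ⟨a, b, hab⟩ := hTS.1
    have ha : a ≠ 0 := by
      rintro rfl
      exact hab (zero_mul b)
    obtain ⟨h1, h2, h3⟩ := h a ha
    exact ⟨A, i1, i2, i3, i4, i5, a, hR, hB, ha, h1, h3⟩
  · rintro ⟨B, i1, i2, i3, i4, i5, X, hR, hB, hX, h1, h3⟩
    obtain ⟨A, j1, j2, j3, j4, j5, hTS, hC, hBA⟩ := hT2 B X hR hX (thmt_dense X h1) h3
    exact ⟨A, j1, j2, j3, j4, j5, hTS, hC, hBA hB h1⟩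

end Pool.Agent.MPf50f2a
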