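import Pool.Agent.Lib.MP_f50f2a_an.FinalE
import Pool.Agent.Lib.MP_f50f2a_an.T1
import Pool.Agent.Lib.MP_f50f2a_an.T2
import Pool.Agent.Lib.MP_f50f2a_an.T3
import Pool.Agent.Lib.MP_f50f2a_an.ThmT

/-!
# MP_f50f2a_an, assembly of Theorem T
-/

set_option autoImplicit false

namespace Pool.Agent.MPf50f2a

universe u

theorem f_T2 : S_T2.{u} := tT2 tUn tT1

theorem f_T3 : S_T3.{u} := tT3 f_ChNorm f_ChRad

theorem f_ThmT : S_ThmT.{u} := tThmT f_T2 f_T3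

end Pool.Agent.MPf50f2a
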