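import Pool.Agent.Lib.MP_f50f2a_an.Spec

/-!
# MP_f50f2a_an: the Hahn-Banach step
-/

set_option autoImplicit false

namespace Pool.Agent.MPf50f2a

open Finset Filter Topology

universe u

/-- The seminorm `(u, y) ↦ A ‖u‖ + B ‖y‖`. -/
noncomputable def hb_q (U : Type u) [NormedCommRing U] [NormedAlgebra ℂ U] (A B : ℝ) (hA : 0 ≤ A)
    (hB : 0 ≤ B) : Seminorm ℂ (U × U) where
  toFun z := A * ‖z.1‖ + B * ‖z.2‖
  map_zero' := by simp
  add_le' x y := by
    have h1 : ‖x.1 + y.1‖ ≤ ‖x.1‖ + ‖y.1‖ := norm_add_le _ _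
    have h2 : ‖x.2 + y.2‖ ≤ ‖x.2‖ + ‖y.2‖ := norm_add_le _ _
    have h3 := mul_le_mul_of_nonneg_left h1 hA
    have h4 := mul_le_mul_of_nonneg_left h2 hB
    simp only [Prod.fst_add, Prod.snd_add]
    linarith
  neg' x := by simp
  smul' r x := by
    simp only [Prod.smul_fst, Prod.smul_snd, norm_smul]
    ring

theorem tHB : S_HB.{u} := by
  intro U _ _ b c hD δ hδ
  obtain ⟨K₀, hK₀⟩ := hD δ hδ
  refine ⟨max K₀ 1, le_max_right _ _, fun g => ?_⟩
  set K := max K₀ 1 with hK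
  have hK1 : 1 ≤ K := le_max_right _ _
  have hK2 : ∀ y : U, ‖c * y‖ ≤ K * ‖b * y‖ + δ * ‖y‖ := by
    intro y
    have h1 : K₀ * ‖b * y‖ ≤ K * ‖b * y‖ :=
      mul_le_mul_of_nonneg_right (le_max_left _ _) (norm_nonneg _)
    linarith [hK₀ y]
  have hA : 0 ≤ K * ‖g‖ := by positivity
  have hB : 0 ≤ δ * ‖g‖ := by positivity
  -- the subspace
  let L : U →ₗ[ℂ] U × U := (LinearMap.mul ℂ U b).prod LinearMap.id
  have hL : ∀ y, L y = (b * y, y) := fun y => rfl
  have hLinj : Function.Injective L := by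
    intro y y' h
    rw [hL, hL] at h
    exact (Prod.ext_iff.1 h).2
  let e := LinearEquiv.ofInjective L hLinj
  let f : Module.Dual ℂ (LinearMap.range L) :=
    ((act c g : Du U) : U →ₗ[ℂ] ℂ).comp e.symm.toLinearMap
  have hf : ∀ x, ‖f x‖ ≤ hb_q U (K * ‖g‖) (δ * ‖g‖) hA hB x := by
    intro x
    obtain ⟨y, rfl⟩ := e.surjective x
    have h1 : f (e y) = g (c * y) := by
      change act c g (e.symm (e y)) = _
      rw [LinearEquiv.symm_apply_apply, act_apply]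
    have h2 : ((e y : LinearMap.range L) : U × U) = (b * y, y) := rfl
    rw [h1, h2]
    change ‖g (c * y)‖ ≤ K * ‖g‖ * ‖b * y‖ + δ * ‖g‖ * ‖y‖
    calc ‖g (c * y)‖ ≤ ‖g‖ * ‖c * y‖ := g.le_opNorm _
      _ ≤ ‖g‖ * (K * ‖b * y‖ + δ * ‖y‖) := mul_le_mul_of_nonneg_left (hK2 y) (norm_nonneg _)
      _ = K * ‖g‖ * ‖b * y‖ + δ * ‖g‖ * ‖y‖ := by ring
  obtain ⟨G, hG1, hG2⟩ := Module.Dual.exists_extension_of_le_seminorm (LinearMap.range L) f hf
  let g' : Du U := (G.comp (LinearMap.inl ℂ U U)).mkContinuous (K * ‖g‖) (by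
    intro u
    have := hG2 (u, 0)
    change ‖G (u, 0)‖ ≤ K * ‖g‖ * ‖u‖ + δ * ‖g‖ * ‖(0 : U)‖ at this
    rw [norm_zero, mul_zero, add_zero] at this
    exact this)
  refine ⟨g', LinearMap.mkContinuous_norm_le _ hA _, ?_⟩
  refine ContinuousLinearMap.opNorm_le_bound _ hB fun y => ?_
  have h1 : G (b * y, y) = g (c * y) := by
    have h2 := hG1 (e y)
    have h3 : f (e y) = g (c * y) := by
      change act c g (e.symm (e y)) = _
      rw [LinearEquiv.symm_apply_apply, act_apply]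
    rw [← h3, ← h2]
    rfl
  have h4 : G (b * y, y) = G (b * y, 0) + G (0, y) := by
    rw [← map_add]
    simp
  have h5 : (act b g' - act c g) y = - G (0, y) := by
    have h6 : (act b g' - act c g) y = G (b * y, 0) - g (c * y) := rfl
    rw [h6, ← h1, h4]
    ring
  rw [h5, norm_neg]
  have := hG2 (0, y)
  change ‖G (0, y)‖ ≤ K * ‖g‖ * ‖(0 : U)‖ + δ * ‖g‖ * ‖y‖ at this
  rw [norm_zero, mul_zero, zero_add] at this
  exact this

end Pool.Agent.MPf50f2a
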