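import Pool.Agent.Lib.MP_f50f2a_an.Defs

/-!
# MP_f50f2a_an, Spec: adjoining countably many approximate quotients to a radical Banach algebra

Theorem E: for a commutative radical Banach algebra `A` and a sequence of pairs `(b n, c n)` there is
a commutative RADICAL Banach algebra `B` containing `A` isometrically with `c n ∈ closure (b n B)`
for all `n`, if and only if for all `n`, `δ > 0` there is `K` with
`‖c y‖ ≤ K ‖b y‖ + δ ‖y‖` on `A + ℂ`.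

Theorem F: for a log-concave radical weight `w` the algebra `ℓ¹(w)` (power series without constant
term) embeds isometrically into a commutative radical Banach algebra `B` such that every closed ideal
of `B` either contains `ℓ¹(w)` or meets it in `0`.

Every `S_...` is a statement to be proved in its own file; the docstring contains the proof.
`U` is a unital commutative normed algebra over `ℂ`, `Du U` its dual, `act b g = g (b ·)`.
-/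

set_option autoImplicit false

namespace Pool.Agent.MPf50f2a

open Finset Filter Topology

universe u

/-! ## Part 1: one pair -/

/-- (50 lines) **Hahn-Banach step.**

Proof.  Let `K = max K₀ 1`, `K₀` from `Dom b c` for `δ`.  Fix `g`.  If `g = 0` take `g' = 0`.  On
`E = U × U` consider the seminorm `q (u, y) = K ‖g‖ ‖u‖ + δ ‖g‖ ‖y‖` and on the subspace
`{(b y, y)}` (the range of the injective linear map `y ↦ (b y, y)`) the functional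
`(b y, y) ↦ g (c y)`; it is dominated by `q` because
`|g (c y)| ≤ ‖g‖ ‖c y‖ ≤ ‖g‖ (K ‖b y‖ + δ ‖y‖)`.  Hahn-Banach for seminorms over `ℂ`
(or: the norm form `exists_extension_norm_eq` for `WithLp 1`-like norm; one way: equip `U × U` with the
norm `q`, e.g. use the normed space `WithLp 1 (U × U)` and the linear map
`(u, y) ↦ ((K ‖g‖)⁻¹ • u, (δ ‖g‖)⁻¹ • y)`, i.e. consider on the subspace `{(K‖g‖ b y, δ‖g‖ y)}` of
`WithLp 1 (U × U)` the functional `↦ g (c y)` which has norm at most `1`) gives an extension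
`(u, y) ↦ g' u + h y` to `E` dominated by `q`, so `‖g'‖ ≤ K ‖g‖` and `‖h‖ ≤ δ ‖g‖`.  As
`g (c y) = g' (b y) + h y`, `act b g' - act c g = - h`. -/
def S_HB : Prop :=
  ∀ (U : Type u) [NormedCommRing U] [NormedAlgebra ℂ U] (b c : U), Dom b c →
    ∀ δ : ℝ, 0 < δ → ∃ K : ℝ, 1 ≤ K ∧ ∀ g : Du U, ∃ g' : Du U, ‖g'‖ ≤ K * ‖g‖ ∧
      ‖act b g' - act c g‖ ≤ δ * ‖g‖

/-- (50 lines; uses `S_HB`) **Chains.**

Proof.  Induction on `J`.  `J = 0`: `K = 1`, `T 0 = id`, `T j = 0` for `j > 0`.  Step: let `K`, `T` be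
given for `J`, let `K'` and a choice function `s : Du U → Du U` be given by `S_HB` for
`δ = η / K`; put `T' (J + 1) g = s (T J g)`, `T' j = T j` for `j ≤ J`, `T' j = 0` for `j > J + 1`,
constant `K' * K`.  `‖act b (T' (J+1) g) - act c (T' J g)‖ ≤ δ ‖T J g‖ ≤ δ K ‖g‖ = η ‖g‖`. -/
def S_Chain : Prop :=
  ∀ (U : Type u) [NormedCommRing U] [NormedAlgebra ℂ U] (b c : U), Dom b c →
    ∀ (J : ℕ) (η : ℝ), 0 < η → ∃ (K : ℝ) (T : ℕ → Du U → Du U), 1 ≤ K ∧ (∀ g, T 0 g = g) ∧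
      (∀ j, J < j → ∀ g, T j g = 0) ∧ (∀ j g, ‖T j g‖ ≤ K * ‖g‖) ∧
      (∀ j, j < J → ∀ g, ‖act b (T (j + 1) g) - act c (T j g)‖ ≤ η * ‖g‖)

/-- (50 lines) **A bound for a truncated binomial sum.**

Proof.  By `QN c` with `r = ε / 4` there is `C ≥ 0` with `‖c ^ k‖ ≤ C (ε/4) ^ k` for all `k`.  So the
`i`-th summand is at most `k.choose i * C (ε/4)^(k-i) ‖b‖^i ≤ 2^k C (ε/4)^k ((4/ε) ‖b‖)^i
≤ C (ε/2)^k (1 + (4/ε) ‖b‖)^J ≤ C (1 + (4/ε) ‖b‖)^J ε^k` and there are at most `J + 1` summands that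
are not zero.  (`‖(-c)^m‖ = ‖c^m‖`.)  Take `M₀ = max 1 ((J + 1) C (1 + (4/ε) ‖b‖)^J)`. -/
def S_MZ : Prop :=
  ∀ (U : Type u) [NormedCommRing U] [NormedAlgebra ℂ U] (b c : U), QN c →
    ∀ (ε : ℝ), 0 < ε → ∀ J : ℕ, ∃ M₀ : ℝ, 1 ≤ M₀ ∧ ∀ k : ℕ,
      ∑ i ∈ (range (k + 1)).filter (fun i => i ≤ J),
        (k.choose i : ℝ) * ‖(-c) ^ (k - i) * b ^ i‖ ≤ M₀ * ε ^ k

/-- (20 lines) Proof.  `QN c` with `r = ε / 4`: `2 ^ k ‖c ^ k‖ ≤ C (ε / 2) ^ k = C (1/2)^k ε^k`, and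
`C (1/2)^k ≤ 1/2` for large `k`. -/
def S_JJ : Prop :=
  ∀ (U : Type u) [NormedCommRing U] [NormedAlgebra ℂ U] (c : U), QN c →
    ∀ (ε : ℝ), 0 < ε → ∃ J : ℕ, ∀ k : ℕ, J < k → 2 ^ k * ‖c ^ k‖ ≤ ε ^ k / 2

/-- (120 lines; uses `S_MZ`) **The error estimate.**  The constant `M'` does not depend on `η`, `T`.

Proof.  Write `b^i.h` for `act (b^i) h`.  Let `R i = act b (T (i+1) g) - act c (T i g)`, so
`‖R i‖ ≤ η ‖g‖` for `i < J`.

Case `1 ≤ k ≤ J`, `μ = 0`.  Then `Wop b c T k 0 id g = ∑_{i ≤ k} C(k,i) (-c)^(k-i) b^i.T i g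
= ∑_{i ≤ k-1} C(k-1,i) (-c)^(k-1-i) b^i.(R i)` (Pascal's rule: the right side is
`∑_{i≤k-1} C(k-1,i) [(-c)^(k-1-i) b^(i+1).T(i+1) g + (-c)^(k-i) b^i.T i g]`).  Its norm is at most
`∑_{i ≤ k-1} C(k-1,i) ‖c‖^(k-1-i) ‖b‖^i η ‖g‖ = (‖b‖+‖c‖)^(k-1) η ‖g‖ ≤ (1+‖b‖+‖c‖)^J η ‖g‖`
(careful with `‖1‖`: use `NormOneClass`), which is `≤ η M₁ ε^k ‖g‖` for
`M₁ = (1+‖b‖+‖c‖)^J / (min ε 1)^J`.

Case `k > J`.  Let `Q i = b^i.T i g - c^i.g`.  `Q 0 = 0` and `Q (i+1) = b^i.(R i) + c.(Q i)`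
(as `b^(i+1).T(i+1)g = b^i.(act b (T (i+1) g)) = b^i.(R i) + b^i.c.T i g = b^i.R i + c.(Q i + c^i.g)`), so
`‖Q i‖ ≤ i (1+‖b‖+‖c‖)^i η ‖g‖ ≤ J (1+‖b‖+‖c‖)^J η ‖g‖` for `i ≤ J` by induction.  As `T i g = 0` for
`i > J`, `Wop b c T k 0 id g = ∑_{i ≤ J} C(k,i) (-c)^(k-i).(c^i.g + Q i)
= μ c^k.g + ∑_{i≤J} C(k,i) (-c)^(k-i).(Q i)` with `μ = ∑_{i ≤ J} C(k,i) (-1)^(k-i)`, `‖μ‖ ≤ 2^k`, so
`‖μ‖ ‖c^k‖ ≤ ε^k/2` by hypothesis, and the error is at most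
`∑_{i≤J} C(k,i) ‖(-c)^(k-i)‖ J (1+‖b‖+‖c‖)^J η ‖g‖ ≤ M₂ ε^k J (1+‖b‖+‖c‖)^J η ‖g‖`, where `M₂` is from
`S_MZ` for the pair `(1, c)`.  Take `M'` = maximum of `1`, `M₁` and `M₂ J (1+‖b‖+‖c‖)^J`. -/
def S_Err : Prop :=
  ∀ (U : Type u) [NormedCommRing U] [NormedAlgebra ℂ U] [NormOneClass U] (b c : U), QN c →
    ∀ (ε : ℝ), 0 < ε → ∀ J : ℕ, (∀ k : ℕ, J < k → 2 ^ k * ‖c ^ k‖ ≤ ε ^ k / 2) →
    ∃ M' : ℝ, 1 ≤ M' ∧ ∀ (η : ℝ) (T : ℕ → Du U → Du U), 0 < η → (∀ g, T 0 g = g) →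
      (∀ j, J < j → ∀ g, T j g = 0) →
      (∀ j, j < J → ∀ g, ‖act b (T (j + 1) g) - act c (T j g)‖ ≤ η * ‖g‖) →
      ∀ k : ℕ, 1 ≤ k → ∃ μ : ℂ, ‖μ‖ * ‖c ^ k‖ ≤ ε ^ k / 2 ∧
        ∀ g, ‖Wop b c T k 0 id g - μ • act (c ^ k) g‖ ≤ η * M' * ε ^ k * ‖g‖

/-- (60 lines; uses `S_Chain`, `S_MZ`, `S_JJ`, `S_Err`) **All data for one pair.**

Proof.  `J` from `S_JJ`, `M'` from `S_Err`, `η = 1 / (2 M' P)`, `K`, `T` from `S_Chain`, `M₀` from `S_MZ`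
for `(b, c)`, `M = K M₀`.  `main` is `S_Err` (`η M' ε^k = ε^k / (2 P)`).  `crude`:
`Wop b c T k j Φ g = ∑_{i ≤ k} C(k,i) act ((-c)^(k-i) b^i) (Φ (T (j+i) g))`; for `i > J` the vector
`T (j+i) g` is `0` and `Φ 0 = 0` (as `‖Φ 0‖ ≤ C * 0`); for `i ≤ J` the norm of the summand is at most
`C(k,i) ‖(-c)^(k-i) b^i‖ C K ‖g‖` (`norm_act_le`).  Sum with `S_MZ`. -/
def S_Step : Prop :=
  ∀ (U : Type u) [NormedCommRing U] [NormedAlgebra ℂ U] [NormOneClass U] (b c : U),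
    QN c → Dom b c → ∀ (ε : ℝ), 0 < ε → ∀ P : ℝ, 1 ≤ P →
    ∃ (J : ℕ) (T : ℕ → Du U → Du U) (M : ℝ), StepOK b c ε J T M P

/-- (40 lines; uses `S_Step`) **Recursion.**

Proof.  For every `n` and `P : ℝ` choose (classically) `J`, `T`, `M` with
`1 ≤ P → StepOK (b n) (c n) (ε n) J T M P`; call them `J₀ n P`, `T₀ n P`, `M₀ n P`.  Define
`P 0 = 1`, `P (n+1) = P n * M₀ n (P n)` by recursion; `1 ≤ P n` by induction (`StepOK.one_le`).  Put
`M n = M₀ n (P n)` etc.; then `P n = ∏ m ∈ range n, M m`. -/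
def S_Seq : Prop :=
  ∀ (U : Type u) [NormedCommRing U] [NormedAlgebra ℂ U] [NormOneClass U] (b c : ℕ → U),
    (∀ n, QN (c n)) → (∀ n, Dom (b n) (c n)) → ∀ (ε : ℕ → ℝ), (∀ n, 0 < ε n) →
    ∃ (J : ℕ → ℕ) (T : ℕ → ℕ → Du U → Du U) (M : ℕ → ℝ), Good b c ε J T M

/-! ## Part 2: the nested operators -/

/-- (40 lines) **Linearity of `DD` in `Φ`.**

Proof.  Induction on `N`, for all families `Φ`.  `N = 0` is the definition.  Step:
`Wop b c T k j (fun g => ∑ i ∈ s, r i • act (a i) (Φ i g)) g = ∑ i ∈ s, r i • act (a i) (Wop b c T k j (Φ i) g)`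
(`act_sum_right`, `act_smul_right`, `act_comm`, exchange of two sums). -/
def S_Lin : Prop :=
  ∀ (U : Type u) [NormedCommRing U] [NormedAlgebra ℂ U] (b c : ℕ → U)
    (T : ℕ → ℕ → Du U → Du U) (f : Du U) (k κ : ℕ → ℕ) (N : ℕ) (s : Finset ℕ) (r : ℕ → ℂ)
    (a : ℕ → U) (Φ : ℕ → Du U → Du U),
    DD b c T f k κ N (fun g => ∑ i ∈ s, r i • act (a i) (Φ i g)) =
      ∑ i ∈ s, r i • act (a i) (DD b c T f k κ N (Φ i))

/-- (25 lines) **Crude bound.**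

Proof.  Induction on `N` (for all `C`, `Φ`); the step is `StepOK.crude`: the map
`Wop (b N) (c N) (T N) (k N) (κ N) Φ` has bound `C * M N * ε N ^ k N`. -/
def S_Crude : Prop :=
  ∀ (U : Type u) [NormedCommRing U] [NormedAlgebra ℂ U] (b c : ℕ → U) (ε : ℕ → ℝ) (J : ℕ → ℕ)
    (T : ℕ → ℕ → Du U → Du U) (M : ℕ → ℝ), (∀ n, 0 < ε n) → Good b c ε J T M →
    ∀ (f : Du U) (k κ : ℕ → ℕ) (N : ℕ) (C : ℝ) (Φ : Du U → Du U), 0 ≤ C →
      (∀ g, ‖Φ g‖ ≤ C * ‖g‖) →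
      ‖DD b c T f k κ N Φ‖ ≤ C * (∏ n ∈ range N, M n * ε n ^ k n) * ‖f‖

/-- (80 lines; uses `S_Lin`, `S_Crude`) **Main bound.**

Proof.  Induction on `N`.  `N = 0` is trivial.  Let `U := Wop (b N) (c N) (T N) (k N) (κ N) id`, so the
left side for `N + 1` is `‖DD ... N U‖`.  Let `P = ∏_{m<N} M m ≥ 1`, `E = ∏_{n<N} ε n ^ k n`,
`G = ∏_{n<N} (L n ^ κ n * ε n ^ k n)`, `L n = ∏_{m<n+1} M m ≥ 1`; `E ≤ G`.
Case `κ N ≥ 1`: `StepOK.crude` with `Φ = id`, `C = 1` gives `‖U g‖ ≤ M N ε_N^{k N} ‖g‖`, and `S_Crude`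
gives `‖DD N U‖ ≤ M N ε_N^{k N} P E ‖f‖ = L N * ε_N^{k N} * E ‖f‖ ≤ L N ^ κ N * ε_N^{k N} * G ‖f‖`.
Case `κ N = 0`, `k N = 0`: `U g = T N 0 g = g`, so `U = id`.
Case `κ N = 0`, `k N ≥ 1`: by `StepOK.main` there is `μ` with `‖μ‖ ‖c^k‖ ≤ ε^k/2` and
`U g = μ • act (c^k) g + Er g`, `‖Er g‖ ≤ ε^k/(2P) ‖g‖`.  By `S_Lin` (two summands, e.g. index set
`range 2`, `a 0 = c^k`, `Φ 0 = id`, `a 1 = 1`, `Φ 1 = Er`)
`DD N U = μ • act (c^k) (DD N id) + DD N Er`, norm at most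
`‖μ‖ ‖c^k‖ G ‖f‖ + ε^k/(2P) * (P E) ‖f‖ ≤ (ε^k/2) G ‖f‖ + (ε^k/2) E ‖f‖ ≤ ε^k G ‖f‖`. -/
def S_DMain : Prop :=
  ∀ (U : Type u) [NormedCommRing U] [NormedAlgebra ℂ U] (b c : ℕ → U) (ε : ℕ → ℝ) (J : ℕ → ℕ)
    (T : ℕ → ℕ → Du U → Du U) (M : ℕ → ℝ), (∀ n, 0 < ε n) → Good b c ε J T M →
    ∀ (f : Du U) (k κ : ℕ → ℕ) (N : ℕ),
      ‖DD b c T f k κ N id‖ ≤
        (∏ n ∈ range N, (∏ m ∈ range (n + 1), M m) ^ κ n * ε n ^ k n) * ‖f‖

/-- (40 lines; uses `S_Crude`) **Vanishing.**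

Proof.  First `T n j 0 = 0` for all `n`, `j`: `StepOK.crude` with `k = 0`, `Φ = id`, `C = 1` says
`‖T n j g‖ ≤ M n ‖g‖` (`Wop b c T 0 j id g = T j g`).  Induction on `N`, for all `Φ` with `Φ 0 = 0`.
Let `V = Wop (b N) (c N) (T N) (k N) (κ N) Φ`.  If `n = N`: `T N (κ N + i) g = 0` for all `i`, so `V g = 0`
for all `g` and `DD ... N V = 0` by `S_Crude` with `C = 0`.  If `n < N`: `V 0 = 0` and the induction
hypothesis applies. -/
def S_DZero : Prop :=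
  ∀ (U : Type u) [NormedCommRing U] [NormedAlgebra ℂ U] (b c : ℕ → U) (ε : ℕ → ℝ) (J : ℕ → ℕ)
    (T : ℕ → ℕ → Du U → Du U) (M : ℕ → ℝ), (∀ n, 0 < ε n) → Good b c ε J T M →
    ∀ (f : Du U) (k κ : ℕ → ℕ) (N n : ℕ) (Φ : Du U → Du U), Φ 0 = 0 → n < N → J n < κ n →
      DD b c T f k κ N Φ = 0

/-! ## Part 3: the functional on the polynomial ring -/

open MvPolynomial in
/-- (110 lines; uses `S_Lin`) **The functional and the nested operators.**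

Proof.  For `N`, `m` and `κ` let `TT κ N m : Du U → Du U` be the composition
`TT κ N 0 g = g`, `TT κ N (m+1) g = T (N+m) (κ (N+m)) (TT κ N m g)`; then
`GG T f κ N' = TT κ 0 N' f` and `TT κ N (m+1) g = TT κ (N+1) m (T N (κ N) g)`.
Fix `N'`.  Claim: for all `N ≤ N'` and all `κ` with `κ n = 0` for `n ≥ N'`, and all `a`,
`F (monomial κ a * ∏_{n<N} z_n^{k n}) = DD b c T f k κ N (TT κ N (N' - N)) a`, where
`z_n = C (b n) * X n - C (c n)`.  For `N = N'` this is the assertion (`TT κ N 0 = id`).  Induction on `N`;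
`N = 0` is the hypothesis on `F`.  Step `N → N + 1 ≤ N'`: by the binomial theorem
`monomial κ a * z_N^{k N} = ∑_{i ≤ k N} C(k N, i) monomial (κ + single N i) (a * b_N^i * (-c_N)^(k N - i))`,
so by the induction hypothesis for `κ + single N i` (which also vanishes for `n ≥ N'`) the left side is
`∑_i C(k N, i) DD b c T f k (κ + single N i) N (TT (κ + single N i) N (m+1)) (a b_N^i (-c_N)^(k N - i))`,
`m + 1 = N' - N`.  `DD ... κ N` depends only on `κ n` for `n < N`, and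
`TT (κ + single N i) N (m+1) g = TT κ (N+1) m (T N (κ N + i) g)` (`TT κ (N+1) m` only uses `κ n` for
`n > N`).  By `S_Lin` this is
`DD b c T f k κ N (fun g => ∑_i C(k N,i) • act ((-c_N)^(k N - i) b_N^i) (TT κ (N+1) m (T N (κ N + i) g))) a
= DD b c T f k κ (N+1) (TT κ (N+1) m) a`. -/
def S_FDD : Prop :=
  ∀ (U : Type u) [NormedCommRing U] [NormedAlgebra ℂ U] (b c : ℕ → U)
    (T : ℕ → ℕ → Du U → Du U) (f : Du U) (F : MvPolynomial ℕ U →ₗ[ℂ] ℂ),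
    (∀ (κ : ℕ →₀ ℕ) (a : U) (N : ℕ), (∀ n, N ≤ n → κ n = 0) →
      F (monomial κ a) = GG T f κ N a) →
    ∀ (κ : ℕ →₀ ℕ) (k : ℕ → ℕ) (a : U) (N : ℕ), (∀ n, N ≤ n → κ n = 0) →
      F (monomial κ a * ∏ n ∈ range N, (C (b n) * X n - C (c n)) ^ k n) =
        DD b c T f k κ N id a

open MvPolynomial in
/-- (40 lines) **Existence of the functional.**

Proof.  `MvPolynomial ℕ U` consists of finitely supported functions `(ℕ →₀ ℕ) → U`; let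
`G κ = GG T f κ (N κ)`, `N κ = κ.support.sup id + 1`, and
`F p = ∑ κ ∈ p.support, G κ (coeff κ p)` (`Finsupp.lsum` or `MvPolynomial` API: `Finsupp.sum_add_index'`).
`F (monomial κ a) = G κ a`.  If `N ≤ N'` and `κ n = 0` for `n ≥ N` then `GG T f κ N' = GG T f κ N`,
because `T n 0 g = g`. -/
def S_FF : Prop :=
  ∀ (U : Type u) [NormedCommRing U] [NormedAlgebra ℂ U] (T : ℕ → ℕ → Du U → Du U) (f : Du U),
    (∀ n g, T n 0 g = g) → ∃ F : MvPolynomial ℕ U →ₗ[ℂ] ℂ,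
      ∀ (κ : ℕ →₀ ℕ) (a : U) (N : ℕ), (∀ n, N ≤ n → κ n = 0) →
        F (monomial κ a) = GG T f κ N a

open MvPolynomial in
/-- (80 lines; uses `S_DMain`, `S_DZero`, `S_FDD`, `S_FF`) **Extension of functionals.**

Proof.  `F` from `S_FF`; `F (C a) = F (monomial 0 a) = f a` (`N = 0`).  Given `κ`, `k` take `N` larger
than all elements of the two supports; `k.prod (fun n e => z_n ^ e) = ∏_{n<N} z_n ^ k n`, similarly for
the two other products (`Wt M J n 0 = 1`).  By `S_FDD` the value is `DD b c T f k κ N id a`.  If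
`J n < κ n` for some `n` (then `n < N`) it is `0` by `S_DZero`.  Otherwise `κ n / (J n + 1) = 0`, so
`Wt M J n (κ n) = (∏_{m<n+1} M m) ^ κ n`, and `S_DMain` gives the bound (`‖f‖ ≤ 1`). -/
def S_Ext : Prop :=
  ∀ (U : Type u) [NormedCommRing U] [NormedAlgebra ℂ U] (b c : ℕ → U) (ε : ℕ → ℝ) (J : ℕ → ℕ)
    (T : ℕ → ℕ → Du U → Du U) (M : ℕ → ℝ), (∀ n, 0 < ε n) → Good b c ε J T M →
    ∀ f : Du U, ‖f‖ ≤ 1 → ∃ F : MvPolynomial ℕ U →ₗ[ℂ] ℂ, (∀ a, F (C a) = f a) ∧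
      ∀ (a : U) (κ k : ℕ →₀ ℕ),
        ‖F (monomial κ a * k.prod (fun n e => (C (b n) * X n - C (c n)) ^ e))‖ ≤
          ‖a‖ * κ.prod (fun n j => Wt M J n j) * k.prod (fun n e => ε n ^ e)

/-- (50 lines) **The weights.**

Proof.  Let `L = ∏_{m<n+1} M m ≥ 1`, `q j = j / (J n + 1)`, so `Wt n j = L^j / (q j)!`.
`q i + q j ≤ q (i + j)` (`Nat.add_div_le_add_div`) and `(q i)! (q j)! ≤ (q i + q j)!`
(`Nat.factorial_mul_factorial_dvd_factorial_add`) give submultiplicativity.  Last part: let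
`x = L / r > 0`, `j = q (J n + 1) + s`, `s ≤ J n`: `x^j / q! = x^s (x^(J n + 1))^q / q!
≤ (max 1 x)^(J n) * exp (x^(J n + 1))` (`y^q / q! ≤ exp y` for `y ≥ 0`). -/
def S_Wt : Prop :=
  ∀ (M : ℕ → ℝ) (J : ℕ → ℕ), (∀ n, 1 ≤ M n) → ∀ n : ℕ,
    Wt M J n 0 = 1 ∧ (∀ j, 0 < Wt M J n j) ∧
    (∀ i j, Wt M J n (i + j) ≤ Wt M J n i * Wt M J n j) ∧
    (∀ r : ℝ, 0 < r → ∃ C : ℝ, ∀ j, Wt M J n j ≤ C * r ^ j)

open MvPolynomial in
/-- (150 lines) **The algebra seminorm.**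

Proof.  An atom is `monomial κ a * k.prod (fun n e => z_n ^ e)`, `z_n = C (b n) * X n - C (c n)`, with
weight `‖a‖ W(κ) ε^k`, where `W(κ) = κ.prod W`.  The product of two atoms is the atom with `κ + κ'`,
`k + k'`, `a a'`, and its weight is at most the product of the weights.  Let `𝓕` be the set of all linear
`F : MvPolynomial ℕ U →ₗ[ℂ] ℂ` with `‖F atom‖ ≤ weight` for all atoms; `0 ∈ 𝓕`.  Every polynomial `u` is the
sum of the atoms `monomial κ (coeff κ u)`, so `‖F u‖ ≤ ∑ ‖coeff κ u‖ W(κ)` for all `F ∈ 𝓕`: the supremum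
`p u = ⨆ F ∈ 𝓕, ‖F u‖` is finite.  `p` is a seminorm.  Multiplicativity: let `F ∈ 𝓕`.
(1) Let `v` be an atom with weight `t`.  If `t = 0` then `a = 0` and `v = 0`.  If `t > 0` then
`u ↦ t⁻¹ F (u v)` is in `𝓕`, hence `‖F (u v)‖ ≤ t p(u)`.  (2) Fix `u`.  If `p(u) > 0` then
`v ↦ p(u)⁻¹ F (u v)` is in `𝓕` by (1), so `‖F (u v)‖ ≤ p(u) p(v)`.  If `p(u) = 0` then `F (u v) = 0` for
all atoms `v` by (1), so for all `v`.  Hence `p(u v) ≤ p(u) p(v)`.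
`p(C a) ≤ ‖a‖` (atom), `p(C a) ≥ ‖a‖`: Hahn-Banach (`exists_dual_vector''`) gives `f` with `‖f‖ ≤ 1`,
`f a = ‖a‖`, and the hypothesis gives `F ∈ 𝓕` with `F (C a) = f a`.  `z_n` is the atom with `κ = 0`,
`k = single n 1`, `a = 1`; `X n ^ j` is the atom `monomial (single n j) 1`. -/
def S_Semi : Prop :=
  ∀ (U : Type u) [NormedCommRing U] [NormedAlgebra ℂ U] [NormOneClass U] (b c : ℕ → U)
    (ε : ℕ → ℝ) (W : ℕ → ℕ → ℝ), (∀ n, 0 < ε n) → (∀ n, W n 0 = 1) → (∀ n j, 0 < W n j) →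
    (∀ n i j, W n (i + j) ≤ W n i * W n j) →
    (∀ f : Du U, ‖f‖ ≤ 1 → ∃ F : MvPolynomial ℕ U →ₗ[ℂ] ℂ, (∀ a, F (C a) = f a) ∧
      ∀ (a : U) (κ k : ℕ →₀ ℕ),
        ‖F (monomial κ a * k.prod (fun n e => (C (b n) * X n - C (c n)) ^ e))‖ ≤
          ‖a‖ * κ.prod W * k.prod (fun n e => ε n ^ e)) →
    ∃ p : MvPolynomial ℕ U → ℝ, IsAlgSem (MvPolynomial ℕ U) p ∧ (∀ a, p (C a) = ‖a‖) ∧
      (∀ n, p (C (b n) * X n - C (c n)) ≤ ε n) ∧ ∀ n j, p (X n ^ j) ≤ W n j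

/-- (60 lines) **Completion.**

Proof.  `p` makes (a type synonym of) `P` a `SeminormedCommRing` and `NormedAlgebra ℂ`; take
`V = UniformSpace.Completion P` with its `NormedCommRing` and `NormedAlgebra ℂ` structure
(`Mathlib/Analysis/Normed/Module/Completion.lean`) and `ι` the canonical map
(`UniformSpace.Completion.coeRingHom`, `UniformSpace.Completion.norm_coe`). -/
def S_Compl : Prop :=
  ∀ (P : Type u) [CommRing P] [Algebra ℂ P] (p : P → ℝ), IsAlgSem P p →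
    ∃ (V : Type u) (_ : NormedCommRing V) (_ : NormedAlgebra ℂ V) (_ : CompleteSpace V)
      (ι : P →ₐ[ℂ] V), ∀ x, ‖ι x‖ = p x

/-- (60 lines; uses `S_Seq`, `S_Ext`, `S_Wt`, `S_Semi`, `S_Compl`) **The unital core theorem.**

Proof.  `S_Seq` gives `Good b c ε J T M`; `M n ≥ 1` is `StepOK.one_le`.  `S_Ext`, `S_Wt` and `S_Semi` with
`W = Wt M J` give `p`; `S_Compl` gives `V` and `ι₀ : MvPolynomial ℕ U →ₐ[ℂ] V`; `ι` is the composition of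
`ι₀` with `C` (as a `ℂ`-algebra homomorphism `U → MvPolynomial ℕ U`) and `x n = ι₀ (X n)`. -/
def S_Core : Prop :=
  ∀ (U : Type u) [NormedCommRing U] [NormedAlgebra ℂ U] [NormOneClass U] (b c : ℕ → U)
    (ε : ℕ → ℝ), (∀ n, 0 < ε n) → (∀ n, QN (c n)) → (∀ n, Dom (b n) (c n)) →
    ∃ (V : Type u) (_ : NormedCommRing V) (_ : NormedAlgebra ℂ V) (_ : CompleteSpace V)
      (ι : U →ₐ[ℂ] V) (x : ℕ → V), (∀ a, ‖ι a‖ = ‖a‖) ∧
      (∀ n, ‖ι (b n) * x n - ι (c n)‖ ≤ ε n) ∧ ∀ n, QN (x n)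

/-! ## Part 4: radical algebras -/

/-- (60 lines) **Unitization.**

Proof.  `U = WithLp 1 (Unitization ℂ A)` (`Mathlib/Analysis/Normed/Algebra/UnitizationL1.lean`), which is
commutative; `j a = toLp 1 (a : Unitization ℂ A)`. -/
def S_Un : Prop :=
  ∀ (A : Type u) [NonUnitalNormedCommRing A] [NormedSpace ℂ A] [IsScalarTower ℂ A A]
    [SMulCommClass ℂ A A] [CompleteSpace A],
    ∃ (U : Type u) (_ : NormedCommRing U) (_ : NormedAlgebra ℂ U) (_ : NormOneClass U)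
      (_ : CompleteSpace U) (j : A →ₙₐ[ℂ] U),
      (∀ (l : ℂ) (a : A), ‖algebraMap ℂ U l + j a‖ = ‖l‖ + ‖a‖) ∧
      ∀ y : U, ∃ (l : ℂ) (a : A), y = algebraMap ℂ U l + j a

/-- (60 lines) **Elements of radical algebras are quasi-nilpotent.**

Proof.  Let `l ≠ 0` be a complex number.  `- l⁻¹ • a` has a quasi-inverse `b`:
`-l⁻¹ a + b - l⁻¹ a b = 0`, so `(1 - l⁻¹ j a) (1 + j b) = 1` in `U`, and `algebraMap l - j a` is
invertible.  So `spectrum ℂ (j a) ⊆ {0}`, the spectral radius of `j a` is `0` and by Gelfand's formula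
(`spectrum.pow_nnnorm_pow_one_div_tendsto_nhds_spectralRadius`) `‖(j a)^k‖^(1/k) → 0`.  So for `r > 0` we
have `‖(j a)^k‖ ≤ r^k` for `k ≥ k₀`, and `C` is the maximum of `1` and the finitely many numbers
`‖(j a)^k‖ / r^k`, `k < k₀`. -/
def S_QNA : Prop :=
  ∀ (A : Type u) [NonUnitalNormedCommRing A] [NormedSpace ℂ A] [IsScalarTower ℂ A A]
    [SMulCommClass ℂ A A] (U : Type u) [NormedCommRing U] [NormedAlgebra ℂ U] [NormOneClass U]
    [CompleteSpace U] (j : A →ₙₐ[ℂ] U), IsRad A → ∀ a, QN (j a)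

/-- (20 lines) Proof.  If `χ a = l ≠ 0` let `b` be a quasi-inverse of `- l⁻¹ • a`; applying `χ` to
`-l⁻¹ a + b + (-l⁻¹ a) b = 0` gives `-1 + χ b - χ b = 0`. -/
def S_RadCh : Prop :=
  ∀ (A : Type u) [NonUnitalNormedCommRing A] [NormedSpace ℂ A] [IsScalarTower ℂ A A]
    [SMulCommClass ℂ A A], IsRad A → ∀ (χ : A →ₙₐ[ℂ] ℂ) (a : A), χ a = 0

/-- (60 lines; uses `S_Un`) **Characters are contractive.**

Proof.  With `U`, `j` from `S_Un` define `χ' : U →ₐ[ℂ] ℂ`, `χ' (l + j a) = l + χ a` (the decomposition is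
unique because of the norm formula; or use `Unitization.lift` for `Unitization ℂ A` directly).  `U` is a
unital Banach algebra with `‖1‖ = 1`, so `‖χ' y‖ ≤ ‖y‖` (`AlgHom.norm_apply_le_self`).  Direct proof
without `S_Un`: if `|χ a| > ‖a‖` let `l = χ a`, `a' = l⁻¹ a`, `‖a'‖ < 1`, and `b = ∑_{k ≥ 1} a'^k`
(powers in the non-unital ring, defined recursively) satisfies `b = a' + a' b`, so
`χ b = 1 + χ b`, a contradiction. -/
def S_ChNorm : Prop :=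
  ∀ (A : Type u) [NonUnitalNormedCommRing A] [NormedSpace ℂ A] [IsScalarTower ℂ A A]
    [SMulCommClass ℂ A A] [CompleteSpace A] (χ : A →ₙₐ[ℂ] ℂ) (a : A), ‖χ a‖ ≤ ‖a‖

/-- (100 lines; uses `S_Un`) **An algebra without characters is radical.**

Proof.  `U`, `j` from `S_Un`.  Let `a : A`.  If `1 + j a` is not invertible in the commutative Banach
algebra `U` then it lies in a maximal ideal and there is a character `χ' : U →ₐ[ℂ] ℂ` with
`χ' (1 + j a) = 0` (Gelfand-Mazur; Mathlib: `WeakDual.CharacterSpace`, e.g.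
`Ideal.toCharacterSpace`, `WeakDual.CharacterSpace.exists_apply_eq_zero`, or
`spectrum.gelfandTransform_eq` and `-1 ∈ spectrum ℂ (j a)`), so `χ' (j a) = -1`; but `χ' ∘ j` is a
character of `A`, hence zero, a contradiction.  So `(1 + j a) (l + j b) = 1` for some `l`, `b`; apply the
norm formula (or compare components: `l + j (a l + b + a b) = 1`, i.e. `‖(l - 1) + j(...)‖ = 0`) to get
`l = 1` and `a + b + a b = 0`. -/
def S_ChRad : Prop :=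
  ∀ (A : Type u) [NonUnitalNormedCommRing A] [NormedSpace ℂ A] [IsScalarTower ℂ A A]
    [SMulCommClass ℂ A A] [CompleteSpace A], (∀ (χ : A →ₙₐ[ℂ] ℂ) (a : A), χ a = 0) → IsRad A

/-- (120 lines; uses `S_RadCh`, `S_ChNorm`, `S_ChRad`) **The closed subalgebra.**

Proof.  `B` is the closed non-unital subalgebra of `V` generated by `j(A)` and the `x n`:
`B = (NonUnitalAlgebra.adjoin ℂ (Set.range j ∪ Set.range x)).topologicalClosure` (as a type; it has the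
instances `NonUnitalNormedCommRing` etc. and is complete as a closed subset), `ψ` the inclusion.
Radical: by `S_ChRad` it is enough that a character `χ` of `B` vanishes.  `χ ∘ φ` is a character of `A`,
so zero by `S_RadCh`.  For the element `y ∈ B` with `ψ y = x n` we have for `m ≥ 1`:
`|χ y|^m = |χ (y^m)| ≤ ‖x n ^ m‖ ≤ C r^m` (`S_ChNorm`; `y^m` recursively in the non-unital ring), for all
`r > 0`, so `|χ y| ≤ r` for all `r > 0` and `χ y = 0`.  So `χ` vanishes on the subalgebra generated by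
these elements (`NonUnitalAlgebra.adjoin_induction`), which is dense in `B`, and `χ` is continuous by
`S_ChNorm`. -/
def S_Sub : Prop :=
  ∀ (A : Type u) [NonUnitalNormedCommRing A] [NormedSpace ℂ A] [IsScalarTower ℂ A A]
    [SMulCommClass ℂ A A] (V : Type u) [NormedCommRing V] [NormedAlgebra ℂ V]
    [CompleteSpace V] (j : A →ₙₐ[ℂ] V) (x : ℕ → V), IsRad A → (∀ a, ‖j a‖ = ‖a‖) →
    (∀ n, QN (x n)) →
    ∃ (B : Type u) (_ : NonUnitalNormedCommRing B) (_ : NormedSpace ℂ B)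
      (_ : IsScalarTower ℂ B B) (_ : SMulCommClass ℂ B B) (_ : CompleteSpace B)
      (φ : A →ₙₐ[ℂ] B) (ψ : B →ₙₐ[ℂ] V), (∀ a, ψ (φ a) = j a) ∧ (∀ y, ‖ψ y‖ = ‖y‖) ∧
      (∀ n, ∃ y, ψ y = x n) ∧ IsRad B

/-- (80 lines; uses `S_Core`, `S_Un`, `S_QNA`, `S_Sub`) **Theorem E, sufficiency.**

Proof.  `U`, `j` from `S_Un`; `Dom (j b) (j c)` follows from the condition because every `y : U` is
`algebraMap l + j a` and `j c * y = j (l • c + c * a)`, `‖j a‖ = ‖a‖` (`l = 0` in the norm formula).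
`QN (j (c n))` by `S_QNA`.  Let `i ↦ (n i, m i)` be a surjection `ℕ → ℕ × ℕ` (`Nat.unpair`); apply
`S_Core` to the pairs `(j (b (n i)), j (c (n i)))` and `ε i = 1 / (m i + 1)`.  `S_Sub` for the
homomorphism `ι ∘ j : A → V` gives `B`, `φ`, `ψ`; `‖φ a‖ = ‖ψ (φ a)‖ = ‖a‖`.  Given `n` and `e > 0` take
`m` with `1/(m+1) < e`, `i` with `(n i, m i) = (n, m)` and `y` with `ψ y = x i`:
`‖φ (b n) * y - φ (c n)‖ = ‖ι (j (b n)) * x i - ι (j (c n))‖ < e`. -/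
def S_ThmE1 : Prop :=
  ∀ (A : Type u) [NonUnitalNormedCommRing A] [NormedSpace ℂ A] [IsScalarTower ℂ A A]
    [SMulCommClass ℂ A A] [CompleteSpace A], IsRad A → ∀ (b c : ℕ → A),
    (∀ n, ∀ δ : ℝ, 0 < δ → ∃ K : ℝ, ∀ (l : ℂ) (y : A),
      ‖l • c n + c n * y‖ ≤ K * ‖l • b n + b n * y‖ + δ * (‖l‖ + ‖y‖)) →
    ∃ (B : Type u) (_ : NonUnitalNormedCommRing B) (_ : NormedSpace ℂ B)
      (_ : IsScalarTower ℂ B B) (_ : SMulCommClass ℂ B B) (_ : CompleteSpace B)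
      (φ : A →ₙₐ[ℂ] B), (∀ a, ‖φ a‖ = ‖a‖) ∧ IsRad B ∧
      ∀ n, φ (c n) ∈ closure (Set.range fun x : B => φ (b n) * x)

/-- (40 lines) **Theorem E, necessity.**

Proof.  There is `x : B` with `‖φ b * x - φ c‖ < δ`; put `K = ‖x‖`.  With `Y = l • 1 + φ y` (in words; in
`B` write everything out): `l • φ c + φ c * φ y = (l • (φ b * x) + φ b * x * φ y) + (l • d + d * φ y)`,
`d = φ c - φ b * x`, and `l • (φ b * x) + φ b * x * φ y = x * (l • φ b + φ b * φ y)`, so the norm is at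
most `‖x‖ ‖l • b + b * y‖ + ‖d‖ (‖l‖ + ‖y‖)`. -/
def S_ThmE2 : Prop :=
  ∀ (A : Type u) [NonUnitalNormedCommRing A] [NormedSpace ℂ A] [IsScalarTower ℂ A A]
    [SMulCommClass ℂ A A] (B : Type u) [NonUnitalNormedCommRing B] [NormedSpace ℂ B]
    [IsScalarTower ℂ B B] [SMulCommClass ℂ B B] (φ : A →ₙₐ[ℂ] B) (b c : A),
    (∀ a, ‖φ a‖ = ‖a‖) → φ c ∈ closure (Set.range fun x : B => φ b * x) →
    ∀ δ : ℝ, 0 < δ → ∃ K : ℝ, ∀ (l : ℂ) (y : A),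
      ‖l • c + c * y‖ ≤ K * ‖l • b + b * y‖ + δ * (‖l‖ + ‖y‖)

end Pool.Agent.MPf50f2a
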