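import Pool.Agent.Lib.MP_f50f2a_an.Spec

/-!
# MP_f50f2a_an, Spec2: Theorem F (power series algebras) and Theorem T (a criterion)

Same conventions as in `Spec.lean`: every `S_...` is a statement to be proved in its own file; the
docstring contains the proof.
-/

set_option autoImplicit false

namespace Pool.Agent.MPf50f2a

open Finset Filter Topology

universe u

/-! ## Part 5: weighted algebras of power series -/

/-- Log-concave radical weights. -/
structure IsWt (w : ℕ → ℝ) : Prop where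
  zero : w 0 = 1
  pos : ∀ n, 0 < w n
  lc : ∀ n, w n * w (n + 2) ≤ w (n + 1) ^ 2
  lim : Tendsto (fun n => w (n + 1) / w n) atTop (𝓝 0)

/-- `A` is the algebra of all power series `∑ f n X ^ (n + 1)` without constant term with
`∑ |f n| w (n + 1) < ∞`, `coef a n` is the coefficient of `X ^ (n + 1)`. -/
structure IsWL1 (w : ℕ → ℝ) (A : Type u) [NonUnitalNormedCommRing A] [NormedSpace ℂ A]
    (coef : A →ₗ[ℂ] (ℕ → ℂ)) : Prop where
  norm : ∀ a, HasSum (fun n => ‖coef a n‖ * w (n + 1)) ‖a‖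
  surj : ∀ f : ℕ → ℂ, Summable (fun n => ‖f n‖ * w (n + 1)) → ∃ a, coef a = f
  mul_zero : ∀ a b, coef (a * b) 0 = 0
  mul_succ : ∀ a b m, coef (a * b) (m + 1) = ∑ p ∈ antidiagonal m, coef a p.1 * coef b p.2

/-- `e n = X ^ (n + 1)` and its properties. -/
structure IsE (w : ℕ → ℝ) (A : Type u) [NonUnitalNormedCommRing A] [NormedSpace ℂ A]
    (coef : A →ₗ[ℂ] (ℕ → ℂ)) (e : ℕ → A) : Prop where
  coefe : ∀ n, coef (e n) = Pi.single n 1
  norme : ∀ n, ‖e n‖ = w (n + 1)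
  mule : ∀ m n, e m * e n = e (m + n + 1)
  shlo : ∀ n a i, i ≤ n → coef (e n * a) i = 0
  shhi : ∀ n a i, coef (e n * a) (n + 1 + i) = coef a i
  exp : ∀ a, HasSum (fun n => coef a n • e n) a

/-- (50 lines) **Weight inequalities.**

Proof.  By `lc` the ratio `w (m + 1) / w m` is decreasing in `m`; so for `i ≤ i'`
`w (n + i') / w i' = ∏_{s<n} w (i'+s+1) / w (i'+s) ≤ ∏_{s<n} w (i+s+1) / w (i+s) = w (n + i) / w i`
(induction on `n`).  The first inequality is the case `i = 0`.  Last part: there is `n₀` with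
`w (n+1) ≤ r w n` for `n ≥ n₀`, so `w n ≤ (w n₀ / r ^ n₀) r ^ n` for `n ≥ n₀`; take the maximum with the
finitely many `w n / r ^ n`, `n < n₀`. -/
def S_FW : Prop :=
  ∀ w : ℕ → ℝ, IsWt w → (∀ i j, w (i + j) ≤ w i * w j) ∧
    (∀ n i i', i ≤ i' → w (n + i') * w i ≤ w (n + i) * w i') ∧
    (∀ r : ℝ, 0 < r → ∃ C : ℝ, ∀ n, w n ≤ C * r ^ n)

/-- (150 lines; uses `S_FW`) **Existence of the algebra.**

Proof.  One way: the set of all `f : PowerSeries ℂ` with `coeff 0 f = 0` and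
`Summable (fun n => ‖coeff n f‖ * w n)` is a `NonUnitalSubalgebra ℂ (PowerSeries ℂ)`: by `S_FW`
`∑_n ‖coeff n (f g)‖ w n ≤ ∑_n ∑_{i+j=n} ‖coeff i f‖ w i ‖coeff j g‖ w j` (Cauchy product of absolutely
convergent series, e.g. `summable_norm_sum_mul_antidiagonal_of_summable_norm`,
`tsum_mul_tsum_eq_tsum_sum_antidiagonal_of_summable_norm`), which also gives `‖f g‖ ≤ ‖f‖ ‖g‖` for
`‖f‖ = ∑' ‖coeff n f‖ w n`.  All algebraic axioms are inherited.  Completeness: the map
`f ↦ (n ↦ coeff (n+1) f * w (n+1))` is an isometric linear bijection onto `lp (fun _ : ℕ => ℂ) 1`.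
`coef f n = coeff (n + 1) f`.  (Other way: define the product on `lp (fun _ : ℕ => ℂ) 1` directly.) -/
def S_FEx : Prop :=
  ∀ w : ℕ → ℝ, IsWt w →
    ∃ (A : Type) (_ : NonUnitalNormedCommRing A) (_ : NormedSpace ℂ A) (_ : IsScalarTower ℂ A A)
      (_ : SMulCommClass ℂ A A) (_ : CompleteSpace A) (coef : A →ₗ[ℂ] (ℕ → ℂ)), IsWL1 w A coef

/-- (90 lines) **The elements `e n`.**

Proof.  `coef` is injective: `coef a = 0` gives `‖a‖ = 0` by uniqueness of sums.  `e n` exists by `surj`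
(finitely supported); `norme` by `norm` and `hasSum_single`.  `shlo`, `shhi` from `mul_zero`, `mul_succ`
(only one summand is not zero).  `mule` by injectivity of `coef` and `shlo`, `shhi`.  `exp`: for a finite
set `s` the coefficients of `a - ∑ n ∈ s, coef a n • e n` are `coef a n` for `n ∉ s` and `0` for `n ∈ s`,
so its norm is `‖a‖ - ∑ n ∈ s, ‖coef a n‖ w (n+1)`, which tends to `0` along `s` by `norm`. -/
def S_FB : Prop :=
  ∀ w : ℕ → ℝ, IsWt w → ∀ (A : Type u) [NonUnitalNormedCommRing A] [NormedSpace ℂ A]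
    (coef : A →ₗ[ℂ] (ℕ → ℂ)), IsWL1 w A coef →
    Function.Injective coef ∧ ∃ e : ℕ → A, IsE w A coef e

/-- (50 lines; uses `S_FW`, `S_FB`, `S_ChNorm`, `S_ChRad`) **Radical.**

Proof.  By `S_ChRad` let `χ` be a character.  `χ (e n) = χ (e 0) ^ (n + 1)` by `mule` and induction, and
`‖χ (e n)‖ ≤ w (n + 1)` (`S_ChNorm`).  By the last part of `S_FW`, `‖χ (e 0)‖ ^ (n+1) ≤ C r ^ (n+1)` for
all `r > 0`, so `χ (e 0) = 0`, `χ (e n) = 0`, and `χ a = ∑ coef a n χ (e n) = 0` by `exp` and continuity of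
`χ` (`S_ChNorm`). -/
def S_FRad : Prop :=
  ∀ w : ℕ → ℝ, IsWt w → ∀ (A : Type u) [NonUnitalNormedCommRing A] [NormedSpace ℂ A]
    [IsScalarTower ℂ A A] [SMulCommClass ℂ A A] [CompleteSpace A]
    (coef : A →ₗ[ℂ] (ℕ → ℂ)), IsWL1 w A coef → IsRad A

/-- (80 lines) **The domination condition for `(X ^ (m + 1), X)`.**

Proof.  Let `Y 0 = l`, `Y (j + 1) = coef y j`.  By `norm`, `shlo`, `shhi`, `coefe`:
`‖l • e m + e m * y‖ = ∑_j ‖Y j‖ w (m + 1 + j)` (the coefficients of `l • e m + e m * y` are `0` at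
`i < m` and `Y j` at `m + j`), in particular for `m = 0`, and `‖l‖ + ‖y‖ = ∑_j ‖Y j‖ w j`
(as `w 0 = 1`).  Choose `j₀` with `w (j + 1) ≤ δ w j` for `j ≥ j₀` (`lim`) and
`K = ∑_{j<j₀} w (j + 1) / w (m + 1 + j)`.  Then `w (j + 1) ≤ K w (m + 1 + j) + δ w j` for all `j`; multiply
with `‖Y j‖` and sum. -/
def S_FDom : Prop :=
  ∀ w : ℕ → ℝ, IsWt w → ∀ (A : Type u) [NonUnitalNormedCommRing A] [NormedSpace ℂ A]
    (coef : A →ₗ[ℂ] (ℕ → ℂ)) (e : ℕ → A), IsWL1 w A coef → IsE w A coef e →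
    ∀ (m : ℕ) (δ : ℝ), 0 < δ → ∃ K : ℝ, ∀ (l : ℂ) (y : A),
      ‖l • e 0 + e 0 * y‖ ≤ K * ‖l • e m + e m * y‖ + δ * (‖l‖ + ‖y‖)

/-- (120 lines; uses `S_FW`) **Every nonzero closed ideal contains a power of `X`.**

Proof.  Let `a ∈ I`, `a ≠ 0`, `k` the least index with `coef a k ≠ 0` (exists as `‖a‖ ≠ 0`), without loss
of generality `coef a k = 1` (divide).  For `i > k`: by `S_FW`
`w (n + 2 + i) * w (k + 2) ≤ w (n + 1 + k + 2) * w (i + 1)`, i.e. `w (n+2+i) ≤ r n * w (n+k+2) * w (i+1)`,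
`r n = w (n+k+3) / (w (n+k+2) * w (k+2)) → 0`.  Choose `n₀` with `r n * ‖a‖ ≤ 1/2` for `n ≥ n₀`.  Claim:
`e (n₀ + k + 1) ∈ I`.  Otherwise, `I` being a closed subspace, there is a continuous linear functional
`f` on `A` (over `ℂ`) with `f = 0` on `I` and `f (e (n₀+k+1)) ≠ 0` (Hahn-Banach,
e.g. `geometric_hahn_banach` or the quotient by `I`: `SeparatingDual`/`exists_dual_vector` in `A ⧸ I`).
For `n ≥ n₀`: `e n * a ∈ I`, and `e n * a = ∑_i coef a i • e (n + 1 + i)` (multiply `exp` by `e n`, or apply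
`exp` to `e n * a` and use `shlo`, `shhi`), so
`0 = f (e n * a) = f (e (n+k+1)) + ∑_{i>k} coef a i f (e (n+1+i))`.  Let
`s = sup_{n ≥ n₀} ‖f (e (n+k+1))‖ / w (n+k+2)`, which is at most `‖f‖` (`norme`).  For `n ≥ n₀` and `i > k`
we have `n + 1 + i = n' + k + 1` with `n' ≥ n₀`, so `‖f (e (n+1+i))‖ ≤ s w (n+2+i)`, and
`‖f (e (n+k+1))‖ ≤ ∑_{i>k} ‖coef a i‖ s w (n+2+i) ≤ s * w (n+k+2) * r n * ‖a‖ ≤ (s/2) w (n+k+2)`.
So `s ≤ s / 2`, `s = 0`, a contradiction. -/
def S_FIdeal : Prop :=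
  ∀ w : ℕ → ℝ, IsWt w → ∀ (A : Type u) [NonUnitalNormedCommRing A] [NormedSpace ℂ A]
    [IsScalarTower ℂ A A] [SMulCommClass ℂ A A]
    (coef : A →ₗ[ℂ] (ℕ → ℂ)) (e : ℕ → A), IsWL1 w A coef → IsE w A coef e →
    ∀ I : Submodule ℂ A, IsClosed (I : Set A) → (∀ a y : A, y ∈ I → a * y ∈ I) →
      ∀ a ∈ I, a ≠ 0 → ∃ m, e m ∈ I

/-- (80 lines; uses `S_FB`, `S_FRad`, `S_FDom`, `S_FIdeal`, `S_ThmE1`) **Theorem F.**

Proof.  `e` from `S_FB`.  `S_ThmE1` for the pairs `(e n, e 0)`, `n : ℕ` (condition: `S_FDom`) gives `B`, `φ`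
with `φ (e 0) ∈ closure (range (φ (e n) * ·))` for all `n`.  Let `I` be a closed ideal of `B` and suppose
there is `a ≠ 0` with `φ a ∈ I`.  `φ⁻¹(I)` is a closed ideal of `A` (`φ` is isometric), so by `S_FIdeal`
there is `m` with `φ (e m) ∈ I`; hence `φ (e m) * x ∈ I` for all `x` and `φ (e 0) ∈ I` as `I` is closed.
`e (n+1) = e 0 * e n` (`mule`), so `φ (e n) ∈ I` for all `n`; by `exp` and continuity `φ a' ∈ I` for all
`a'`. -/
def S_ThmF : Prop :=
  ∀ w : ℕ → ℝ, IsWt w → ∀ (A : Type u) [NonUnitalNormedCommRing A] [NormedSpace ℂ A]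
    [IsScalarTower ℂ A A] [SMulCommClass ℂ A A] [CompleteSpace A]
    (coef : A →ₗ[ℂ] (ℕ → ℂ)), IsWL1 w A coef →
    IsRad A ∧
    ∃ (B : Type u) (_ : NonUnitalNormedCommRing B) (_ : NormedSpace ℂ B)
      (_ : IsScalarTower ℂ B B) (_ : SMulCommClass ℂ B B) (_ : CompleteSpace B)
      (φ : A →ₙₐ[ℂ] B), (∀ a, ‖φ a‖ = ‖a‖) ∧ IsRad B ∧
      ∀ I : Submodule ℂ B, IsClosed (I : Set B) → (∀ b y : B, y ∈ I → b * y ∈ I) →
        (∀ a, φ a ∈ I → a = 0) ∨ (∀ a, φ a ∈ I)

/-! ## Part 6: the criterion -/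

/-- Topologically simple: nonzero multiplication and no closed ideals except `0` and `A`. -/
def IsTS (A : Type u) [NonUnitalNormedCommRing A] [NormedSpace ℂ A] : Prop :=
  (∃ a b : A, a * b ≠ 0) ∧ ∀ I : Submodule ℂ A, IsClosed (I : Set A) →
    (∀ a y : A, y ∈ I → a * y ∈ I) → I = ⊥ ∨ I = ⊤

/-- `A` is isomorphic to `ℂ`. -/
def IsoC (A : Type u) [NonUnitalNormedCommRing A] [NormedSpace ℂ A] : Prop :=
  ∃ χ : A →ₙₐ[ℂ] ℂ, Function.Bijective χ

/-- Bounded approximate identity (in the form with finite sets, which is equivalent to the form with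
nets). -/
def HasBAI (A : Type u) [NonUnitalNormedCommRing A] : Prop :=
  ∃ C : ℝ, ∀ (F : Finset A) (ε : ℝ), 0 < ε → ∃ e : A, ‖e‖ ≤ C ∧ ∀ a ∈ F, ‖e * a - a‖ < ε

/-- The improvement property of an element `X`: the trivial choice `l = 1`, `v = 0` gives the bound
`‖u‖`; it can be improved by a fixed factor. -/
def Imp (B : Type u) [NonUnitalNormedCommRing B] [NormedSpace ℂ B] (X : B) : Prop :=
  ∃ δ θ : ℝ, 0 < δ ∧ θ < 1 ∧ ∀ u : B, ‖u‖ < δ →
    ∃ (l : ℂ) (v : B), ‖X - (l • (X - u) + (X - u) * v)‖ ≤ θ * ‖u‖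

/-- (120 lines) **The minimal closed ideal.**

Proof.  Let `A` be the closed set `closure (range (X * ·))`, the closure of the ideal generated by `X`,
which is a closed ideal of `Q`; as a type it is a `NonUnitalSubalgebra ℂ Q` with the inclusion `ψ`
(closed, so complete).  `X ∈ A` as `X = X * 1`.  `X * X ≠ 0`, since otherwise
`X ∈ closure (range 0) = {0}`.  Let `L` be a closed subspace of `A` with `A L ⊆ L`, `L ≠ 0`, and let `L₁`
be the closure of the linear span of all products `ψ a * ψ y`, `a ∈ A`, `y ∈ L`.  It is a closed ideal of `Q`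
(because `A` is an ideal of `Q`) and contained in `L` (`L` is closed in `A`, `A` closed in `Q`).
If `L₁ ≠ 0` then `X ∈ L₁` by hypothesis, so `closure (X Q) ⊆ L₁ ⊆ L` and `L = A`.
If `L₁ = 0` then `X * y = 0` for some `y ≠ 0` (`y ∈ L`), the annihilator of `X` is a closed ideal
`≠ 0` of `Q`, so `X * X = 0`, a contradiction. -/
def S_T1 : Prop :=
  ∀ (Q : Type u) [NormedCommRing Q] [NormedAlgebra ℂ Q] [CompleteSpace Q] (X : Q), X ≠ 0 →
    X ∈ closure (Set.range fun y : Q => X * X * y) →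
    (∀ I : Ideal Q, IsClosed (I : Set Q) → I ≠ ⊥ → X ∈ I) →
    ∃ (A : Type u) (_ : NonUnitalNormedCommRing A) (_ : NormedSpace ℂ A)
      (_ : IsScalarTower ℂ A A) (_ : SMulCommClass ℂ A A) (_ : CompleteSpace A)
      (ψ : A →ₙₐ[ℂ] Q), (∀ a, ‖ψ a‖ = ‖a‖) ∧
      Set.range ψ = closure (Set.range fun y : Q => X * y) ∧ IsTS A

/-- (150 lines; uses `S_Un`, `S_T1`) **The criterion is sufficient.**

Proof.  Let `δ`, `θ` be as in `Imp B X`.
(a) If `J` is a closed ideal of `B` with `X ∉ J` then `‖X - y‖ ≥ δ` for all `y ∈ J`.  Otherwise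
`d = inf_{y ∈ J} ‖X - y‖ < δ`, `d > 0` as `J` is closed; choose `y ∈ J` such that `u = X - y` satisfies
`‖u‖ < δ` and `θ ‖u‖ < d` (possible: `θ < 1`).  By `Imp` there are `l`, `v` with
`‖X - (l • y + y * v)‖ ≤ θ ‖u‖ < d`, but `l • y + y * v ∈ J`.
(b) By Zorn's lemma there is a maximal `J` among the closed ideals (as `Submodule ℂ B`) with `X ∉ J`: for a
nonempty chain take the closure of the union, it does not contain `X` by (a); `⊥` is such an ideal.
(c) `U`, `j` from `S_Un` for `B`.  `j(J)` is a closed ideal `J'` of `U` (closed as `j` is an isometric embedding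
of a complete space).  Let `Q = U ⧸ J'` (`Ideal.Quotient`, a `NormedCommRing`, complete) and `π` the
quotient map, `X' = π (j X) ≠ 0`.  `X' ∈ closure (range (X' * X' * ·))`.  Let `I` be a closed ideal `≠ ⊥` of
`Q`, `I'` its preimage in `U`, `I' ⊋ J'`.  If `I'` contains some `algebraMap l + j a` with `l ≠ 0`, this is
invertible (quasi-inverse of `l⁻¹ • a`), so `I' = U ∋ j X`.  Otherwise `I' ⊆ j(B)` and the preimage of
`I'` in `B` is a closed ideal strictly larger than `J`, so it contains `X` by maximality.  So `X' ∈ I`, and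
`S_T1` gives `A`, `ψ`.
(d) `A` is not isomorphic to `ℂ`: otherwise there is `p : A`, `p ≠ 0`, `p * p = p`.  The range of `ψ` is
contained in `π (j B)`, because `π (j B)` is closed (`j(B) + J' = j(B)` is closed in `U`; for example
`π (j B)` is the kernel of the character of `Q` induced by `l + j a ↦ l`) and contains all
`X' * π y`.  So `ψ p = π (j b)`, `b : B`, and with a quasi-inverse `b'` of `- b` we have
`(1 - ψ p) (1 + π (j b')) = 1`; multiply with `ψ p`: `ψ p = 0`, a contradiction.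
(e) If `X B` is dense in `B` then `range ψ = π (j B)`.  If in addition `HasBAI B` with constant `C` then for a
finite subset of `A` choose preimages in `B` and `e` for them; `π (j e)` is in the range of `ψ` and does the
job with the same constant `C`. -/
def S_T2 : Prop :=
  ∀ (B : Type u) [NonUnitalNormedCommRing B] [NormedSpace ℂ B] [IsScalarTower ℂ B B]
    [SMulCommClass ℂ B B] [CompleteSpace B] (X : B), IsRad B → X ≠ 0 →
    X ∈ closure (Set.range fun y : B => X * X * y) → Imp B X →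
    ∃ (A : Type u) (_ : NonUnitalNormedCommRing A) (_ : NormedSpace ℂ A)
      (_ : IsScalarTower ℂ A A) (_ : SMulCommClass ℂ A A) (_ : CompleteSpace A),
      IsTS A ∧ ¬ IsoC A ∧
      (HasBAI B → closure (Set.range fun y : B => X * y) = Set.univ → HasBAI A)

/-- (80 lines; uses `S_ChNorm`, `S_ChRad`) **The criterion is necessary.**

Proof.  (1) `IsRad A`: by `S_ChRad` it is enough that every character `χ` is `0`.  If `χ ≠ 0` its kernel is a
closed (`S_ChNorm`) ideal `≠ ⊤`, so `⊥`, and `χ` is injective; it is surjective as a nonzero linear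
functional; contradiction to `¬ IsoC A`.
(2) `N = {a | ∀ b, b * a = 0}` is a closed ideal `≠ ⊤`, so `N = ⊥`.  Let `X ≠ 0`.  The closure of
`{X * y}` is a closed ideal, it is not `⊥` (else `X ∈ N`), so it is `⊤`.  `X * X ≠ 0` (else `X * (X * y) = 0`
for all `y`, by density `X * y = 0` for all `y`, `X ∈ N`), so the same holds for `X * X`.
(3) `Imp A X` with `δ = ‖X‖`, `θ = 1/2`: if `u = 0` take `l = 1`, `v = 0`; if `u ≠ 0`, `‖u‖ < ‖X‖` then
`X - u ≠ 0`, so by (2) there is `v` with `‖X - (X - u) * v‖ < ‖u‖ / 2`; take `l = 0`. -/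
def S_T3 : Prop :=
  ∀ (A : Type u) [NonUnitalNormedCommRing A] [NormedSpace ℂ A] [IsScalarTower ℂ A A]
    [SMulCommClass ℂ A A] [CompleteSpace A], IsTS A → ¬ IsoC A →
    IsRad A ∧ ∀ X : A, X ≠ 0 → closure (Set.range fun y : A => X * y) = Set.univ ∧
      X ∈ closure (Set.range fun y : A => X * X * y) ∧ Imp A X

/-- (40 lines; uses `S_T2`, `S_T3`) **Theorem T.**

Proof.  Forward: `S_T3` for any `X ≠ 0` (exists as `A` has a nonzero product).  Backward: `S_T2`; in the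
second part `X B` is dense, so `X * (X B)` is dense in `X B ∋`-closure: given `ε` choose `b` with
`‖X * b - X‖ < ε / 2` and `b'` with `‖X * b' - b‖ < ε / (2 ‖X‖ + 1)`; then `‖X * X * b' - X‖ < ε`. -/
def S_ThmT : Prop :=
  ((∃ (A : Type u) (_ : NonUnitalNormedCommRing A) (_ : NormedSpace ℂ A)
      (_ : IsScalarTower ℂ A A) (_ : SMulCommClass ℂ A A) (_ : CompleteSpace A),
      IsTS A ∧ ¬ IsoC A) ↔
    ∃ (B : Type u) (_ : NonUnitalNormedCommRing B) (_ : NormedSpace ℂ B)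
      (_ : IsScalarTower ℂ B B) (_ : SMulCommClass ℂ B B) (_ : CompleteSpace B) (X : B),
      IsRad B ∧ X ≠ 0 ∧ X ∈ closure (Set.range fun y : B => X * X * y) ∧ Imp B X) ∧
  ((∃ (A : Type u) (_ : NonUnitalNormedCommRing A) (_ : NormedSpace ℂ A)
      (_ : IsScalarTower ℂ A A) (_ : SMulCommClass ℂ A A) (_ : CompleteSpace A),
      IsTS A ∧ ¬ IsoC A ∧ HasBAI A) ↔
    ∃ (B : Type u) (_ : NonUnitalNormedCommRing B) (_ : NormedSpace ℂ B)
      (_ : IsScalarTower ℂ B B) (_ : SMulCommClass ℂ B B) (_ : CompleteSpace B) (X : B),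
      IsRad B ∧ HasBAI B ∧ X ≠ 0 ∧ closure (Set.range fun y : B => X * y) = Set.univ ∧ Imp B X)

end Pool.Agent.MPf50f2a
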