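import Pool.Agent.Lib.MP_f50f2a_an.Spec

/-!
# MP_f50f2a_an, Sub: the closed subalgebra generated by `A` and the adjoined elements is radical
-/

set_option autoImplicit false

namespace Pool.Agent.MPf50f2a

open Finset Filter Topology

universe u

section sub

variable {V : Type u} [NormedCommRing V] [NormedAlgebra ℂ V]

/-- Powers in a non-unital ring: `sub_pow y m = y ^ (m + 1)`. -/
private def sub_pow {B : Type u} [Mul B] (y : B) : ℕ → B
  | 0 => y
  | m + 1 => y * sub_pow y m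

private lemma sub_pow_coe {B : Type u} [NonUnitalNormedCommRing B] [NormedSpace ℂ B]
    (ψ : B →ₙₐ[ℂ] V) (y : B) (m : ℕ) : ψ (sub_pow y m) = ψ y ^ (m + 1) := by
  induction m with
  | zero => simp [sub_pow]
  | succ m ih => rw [sub_pow, map_mul, ih]; ring

private lemma sub_pow_char {B : Type u} [NonUnitalNormedCommRing B] [NormedSpace ℂ B]
    (χ : B →ₙₐ[ℂ] ℂ) (y : B) (m : ℕ) : χ (sub_pow y m) = χ y ^ (m + 1) := by
  induction m with
  | zero => simp [sub_pow]
  | succ m ih => rw [sub_pow, map_mul, ih]; ring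

/-- A character vanishes on a quasi-nilpotent element. -/
private lemma sub_qn (hChNorm : S_ChNorm.{u}) {B : Type u} [NonUnitalNormedCommRing B]
    [NormedSpace ℂ B] [IsScalarTower ℂ B B] [SMulCommClass ℂ B B] [CompleteSpace B]
    (ψ : B →ₙₐ[ℂ] V) (hψ : ∀ y, ‖ψ y‖ = ‖y‖) (χ : B →ₙₐ[ℂ] ℂ) (y : B) (h : QN (ψ y)) :
    χ y = 0 := by
  by_contra hne
  have ht : 0 < ‖χ y‖ := norm_pos_iff.mpr hne
  obtain ⟨C, hC⟩ := h (‖χ y‖ / 2) (by positivity)
  obtain ⟨m, hm⟩ := pow_unbounded_of_one_lt C (one_lt_two : (1 : ℝ) < 2)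
  have h1 : ‖χ y‖ ^ (m + 1) ≤ C * (‖χ y‖ / 2) ^ (m + 1) := by
    calc ‖χ y‖ ^ (m + 1) = ‖χ (sub_pow y m)‖ := by rw [sub_pow_char, norm_pow]
      _ ≤ ‖sub_pow y m‖ := hChNorm B χ _
      _ = ‖ψ y ^ (m + 1)‖ := by rw [← hψ, sub_pow_coe]
      _ ≤ _ := hC _
  rw [div_pow, mul_div_assoc', le_div_iff₀ (by positivity), mul_comm] at h1
  have h2 : (2 : ℝ) ^ (m + 1) ≤ C := le_of_mul_le_mul_right h1 (by positivity)
  have h3 : (2 : ℝ) ^ m ≤ 2 ^ (m + 1) := by
    rw [pow_succ]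
    have : (0 : ℝ) < 2 ^ m := by positivity
    linarith
  linarith

/-- A character of the closure of the algebra generated by `S` vanishes if it vanishes on `S`. -/
private lemma sub_char (S : Set V)
    (χ : ↥(NonUnitalAlgebra.adjoin ℂ S).topologicalClosure →ₙₐ[ℂ] ℂ)
    (hb : ∀ y, ‖χ y‖ ≤ ‖y‖)
    (h : ∀ y : ↥(NonUnitalAlgebra.adjoin ℂ S).topologicalClosure, (y : V) ∈ S → χ y = 0)
    (y : ↥(NonUnitalAlgebra.adjoin ℂ S).topologicalClosure) : χ y = 0 := by
  have h1 : ∀ (z : V) (hz : z ∈ NonUnitalAlgebra.adjoin ℂ S),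
      χ ⟨z, NonUnitalSubalgebra.le_topologicalClosure _ hz⟩ = 0 := by
    intro z hz
    induction hz using NonUnitalAlgebra.adjoin_induction with
    | mem z hz => exact h ⟨z, _⟩ hz
    | add a b ha hb' iha ihb =>
      have e : (⟨a + b, NonUnitalSubalgebra.le_topologicalClosure _ (add_mem ha hb')⟩ :
          ↥(NonUnitalAlgebra.adjoin ℂ S).topologicalClosure) =
          ⟨a, NonUnitalSubalgebra.le_topologicalClosure _ ha⟩ +
            ⟨b, NonUnitalSubalgebra.le_topologicalClosure _ hb'⟩ := rfl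
      rw [e, map_add, iha, ihb, add_zero]
    | zero =>
      have e : (⟨0, NonUnitalSubalgebra.le_topologicalClosure _ (zero_mem _)⟩ :
          ↥(NonUnitalAlgebra.adjoin ℂ S).topologicalClosure) = 0 := rfl
      rw [e, map_zero]
    | mul a b ha hb' iha ihb =>
      have e : (⟨a * b, NonUnitalSubalgebra.le_topologicalClosure _ (mul_mem ha hb')⟩ :
          ↥(NonUnitalAlgebra.adjoin ℂ S).topologicalClosure) =
          ⟨a, NonUnitalSubalgebra.le_topologicalClosure _ ha⟩ *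
            ⟨b, NonUnitalSubalgebra.le_topologicalClosure _ hb'⟩ := rfl
      rw [e, map_mul, iha, ihb, mul_zero]
    | smul r a ha iha =>
      have e : (⟨r • a, NonUnitalSubalgebra.le_topologicalClosure _
          (SMulMemClass.smul_mem r ha)⟩ :
          ↥(NonUnitalAlgebra.adjoin ℂ S).topologicalClosure) =
          r • ⟨a, NonUnitalSubalgebra.le_topologicalClosure _ ha⟩ := rfl
      rw [e, map_smul, iha, smul_zero]
  rw [← norm_eq_zero]
  refine le_antisymm (le_of_forall_pos_le_add fun ε hε => ?_) (norm_nonneg _)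
  have hy : (y : V) ∈ closure ((NonUnitalAlgebra.adjoin ℂ S : NonUnitalSubalgebra ℂ V) : Set V) :=
    y.2
  obtain ⟨z, hz, hyz⟩ := Metric.mem_closure_iff.mp hy ε hε
  have e : χ y = χ (y - ⟨z, NonUnitalSubalgebra.le_topologicalClosure _ hz⟩) := by
    rw [map_sub, h1 z hz, sub_zero]
  rw [zero_add, e]
  refine (hb _).trans ?_
  rw [dist_eq_norm] at hyz
  exact hyz.le

end sub

theorem tSub (hRadCh : S_RadCh.{u}) (hChNorm : S_ChNorm.{u}) (hChRad : S_ChRad.{u}) :
    S_Sub.{u} := by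
  intro A _ _ _ _ V _ _ _ j x hA hj hx
  have hcomp : CompleteSpace
      ↥(NonUnitalAlgebra.adjoin ℂ (Set.range j ∪ Set.range x)).topologicalClosure :=
    (NonUnitalSubalgebra.isClosed_topologicalClosure
      (NonUnitalAlgebra.adjoin ℂ (Set.range j ∪ Set.range x))).completeSpace_coe
  have hmem : ∀ z ∈ Set.range j ∪ Set.range x,
      z ∈ (NonUnitalAlgebra.adjoin ℂ (Set.range j ∪ Set.range x)).topologicalClosure :=
    fun z hz => NonUnitalSubalgebra.le_topologicalClosure _ (NonUnitalAlgebra.subset_adjoin ℂ hz)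
  let φ : A →ₙₐ[ℂ] ↥(NonUnitalAlgebra.adjoin ℂ (Set.range j ∪ Set.range x)).topologicalClosure :=
    NonUnitalAlgHom.codRestrict j _ fun a => hmem _ (Or.inl ⟨a, rfl⟩)
  let ψ : ↥(NonUnitalAlgebra.adjoin ℂ (Set.range j ∪ Set.range x)).topologicalClosure →ₙₐ[ℂ] V :=
    NonUnitalSubalgebraClass.subtype _
  have hφψ : ∀ a, ψ (φ a) = j a := fun a => rfl
  have hψ : ∀ y, ‖ψ y‖ = ‖y‖ := fun y => rfl
  let hns : NormedSpace ℂ
      ↥(NonUnitalAlgebra.adjoin ℂ (Set.range j ∪ Set.range x)).topologicalClosure :=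
    { norm_smul_le := fun r y => norm_smul_le r (y : V) }
  refine ⟨↥(NonUnitalAlgebra.adjoin ℂ (Set.range j ∪ Set.range x)).topologicalClosure,
    inferInstance, hns, inferInstance, inferInstance, hcomp, φ, ψ, hφψ, hψ,
    fun n => ⟨⟨x n, hmem _ (Or.inr ⟨n, rfl⟩)⟩, rfl⟩, ?_⟩
  refine hChRad _ fun χ y => sub_char _ χ (hChNorm _ χ) ?_ y
  intro y hy
  rcases hy with ⟨a, ha⟩ | ⟨n, hn⟩
  · have e : y = φ a := Subtype.ext ha.symm
    rw [e]
    exact hRadCh A hA (χ.comp φ) a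
  · refine sub_qn hChNorm ψ hψ χ y ?_
    have e : ψ y = x n := hn.symm
    rw [e]
    exact hx n

end Pool.Agent.MPf50f2a
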